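import Pool.Agent.Lib.MP_830418_an.Flat.Stm

open Finset

universe u

namespace Pool.Agent.PC

private theorem pr_congr {G : Type u} [Group G] {N : ℕ} (c : ℕ → Fin N → G) (m : ℕ)
    (t s : ℕ → Fin N) (h : ∀ k < m, t k = s k) : pr c m t = pr c m s := by
  induction m with
  | zero => rfl
  | succ m ih =>
    show pr c m t * c m (t m) = pr c m s * c m (s m)
    rw [ih fun k hk => h k (Nat.lt_succ_of_lt hk), h m (Nat.lt_succ_self m)]

private theorem pr_update {G : Type u} [Group G] {N : ℕ} (c : ℕ → Fin N → G) (m : ℕ)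
    (t : ℕ → Fin N) (i : Fin N) : pr c (m + 1) (Function.update t m i) = pr c m t * c m i := by
  show pr c m (Function.update t m i) * c m (Function.update t m i m) = _
  rw [Function.update_self]
  rw [pr_congr c m (Function.update t m i) t fun k hk => Function.update_of_ne hk.ne _ _]

theorem p_Vad (h1 : S_Vad1.{u}) : S_Vad.{u} := by
  intro p hp G _ N hN u hu c m
  induction m with
  | zero =>
    intro ψ _ hSC _
    refine ⟨?_, hSC, ?_⟩
    · simp
    · intro x hx
      refine ⟨fun _ => ⟨0, hN⟩, ?_⟩
      show ψ (1 * x) ≠ 0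
      rw [one_mul]
      exact hx
  | succ m ih =>
    intro ψ hFS hSC hdis
    obtain ⟨ih1, ih2, ih3⟩ := ih ψ hFS hSC (by
      rintro t s ⟨k, hk, hts⟩ q r hq hr heq
      refine hdis (Function.update t m (t m)) (Function.update s m (t m))
        ⟨k, Nat.lt_succ_of_lt hk, ?_⟩ q r hq hr ?_
      · rw [Function.update_of_ne hk.ne, Function.update_of_ne hk.ne]
        exact hts
      · rw [pr_update, pr_update, mul_inv_rev, mul_inv_rev, mul_assoc, mul_assoc, heq])
    obtain ⟨a1, a2, a3⟩ := h1 p hp G N hN u hu (c m) (Vad u c m ψ) (hFS.Vad u c m) ih2 (by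
      intro x y i j hij hx hy heq
      obtain ⟨t, ht⟩ := ih3 x hx
      obtain ⟨s, hs⟩ := ih3 y hy
      refine hdis (Function.update t m i) (Function.update s m j)
        ⟨m, Nat.lt_succ_self m, ?_⟩ _ _ ht hs ?_
      · rw [Function.update_self, Function.update_self]
        exact hij
      · rw [pr_update, pr_update, mul_inv_rev, mul_inv_rev, mul_assoc, mul_assoc,
          inv_mul_cancel_left, inv_mul_cancel_left]
        exact heq)
    refine ⟨?_, a2, ?_⟩
    · rw [Vad_succ, a1, ih1, ← mul_assoc, ← Real.rpow_add (by exact_mod_cast hN)]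
      congr 2
      push_cast
      ring
    · intro x hx
      have : ∃ i, Rad u (c m) (Vad u c m ψ) x i ≠ 0 := by
        by_contra hcon
        push Not at hcon
        exact hx (funext hcon)
      obtain ⟨i, hi⟩ := this
      obtain ⟨t, ht⟩ := ih3 _ (a3 x i hi)
      refine ⟨Function.update t m i, ?_⟩
      rw [pr_update, mul_assoc]
      exact ht

end Pool.Agent.PC
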