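import Pool.Agent.Lib.MP_830418_an.Flat.Stm

open Finset

universe u

namespace Pool.Agent.PC

section vad1

variable {G : Type u} [Group G] {N : ℕ}

private theorem vad1_pt {p : ℝ} (hp : 0 < p) (u : Fin N → Fin N → ℂ) (hu : Had u)
    (v : Fin N → ℂ) (hv : ∀ i j, i ≠ j → v i = 0 ∨ v j = 0) (i : Fin N) :
    ‖∑ j, starRingEnd ℂ (u i j) * v j‖ ^ p = ∑ j, ‖v j‖ ^ p := by
  by_cases h : ∃ j0, v j0 ≠ 0
  · obtain ⟨j0, hj0⟩ := h
    have h0 : ∀ j, j ≠ j0 → v j = 0 := by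
      intro j hj
      rcases hv j j0 hj with h | h
      · exact h
      · exact absurd h hj0
    rw [Finset.sum_eq_single j0, Finset.sum_eq_single j0]
    · rw [norm_mul, RCLike.norm_conj, hu.1, one_mul]
    · intro j _ hj
      rw [h0 j hj, norm_zero, Real.zero_rpow hp.ne']
    · intro h
      exact absurd (Finset.mem_univ _) h
    · intro j _ hj
      rw [h0 j hj, mul_zero]
    · intro h
      exact absurd (Finset.mem_univ _) h
  · push Not at h
    simp [h, hp.ne']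

private theorem vad1_num {p : ℝ} (hN : 1 ≤ N) :
    (N : ℝ) * ((Real.sqrt N)⁻¹) ^ p = (N : ℝ) ^ (1 - p / 2) := by
  have hN0 : (0 : ℝ) < N := by exact_mod_cast hN
  have h1 : (Real.sqrt (N : ℝ))⁻¹ = (N : ℝ) ^ (-(1 / 2) : ℝ) := by
    rw [Real.sqrt_eq_rpow, Real.rpow_neg hN0.le]
  rw [h1, ← Real.rpow_mul hN0.le]
  nth_rewrite 1 [← Real.rpow_one (N : ℝ)]
  rw [← Real.rpow_add hN0]
  congr 1
  ring

end vad1

theorem p_Vad1 : S_Vad1.{u} := by
  intro p hp G _ N hN u hu c ψ hψ hsc hdis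
  have h3 : ∀ x i, Rad u c ψ x i ≠ 0 → ψ (c i * x) ≠ 0 := by
    intro x i hne h0
    apply hne
    rw [Rad_apply, h0]
    simp
  refine ⟨?_, ?_, h3⟩
  · have hterm : ∀ x i, ‖Rad u c ψ x i‖ ^ p =
        ((Real.sqrt N)⁻¹) ^ p * ∑ j, ‖ψ (c i * x) j‖ ^ p := by
      intro x i
      rw [Rad_apply, norm_mul, Real.mul_rpow (norm_nonneg _) (norm_nonneg _),
        vad1_pt hp u hu (ψ (c i * x)) (hsc (c i * x)) i]
      congr 2
      rw [norm_inv, Complex.norm_real, Real.norm_of_nonneg (Real.sqrt_nonneg _)]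
    have hs : Summable fun y => ∑ j, ‖ψ y j‖ ^ p := nrm_summable hp hψ
    have hsi : ∀ i : Fin N, Summable fun x =>
        ((Real.sqrt N)⁻¹) ^ p * ∑ j, ‖ψ (c i * x) j‖ ^ p := by
      intro i
      exact (((Equiv.mulLeft (c i)).summable_iff (f := fun y => ∑ j, ‖ψ y j‖ ^ p)).2 hs).mul_left _
    calc nrm p (Rad u c ψ) = ∑' x, ∑ i, ((Real.sqrt N)⁻¹) ^ p * ∑ j, ‖ψ (c i * x) j‖ ^ p := by
          unfold nrm
          refine tsum_congr fun x => Finset.sum_congr rfl fun i _ => hterm x i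
      _ = ∑ i : Fin N, ∑' x, ((Real.sqrt N)⁻¹) ^ p * ∑ j, ‖ψ (c i * x) j‖ ^ p :=
          Summable.tsum_finsetSum fun i _ => hsi i
      _ = ∑ _i : Fin N, ((Real.sqrt N)⁻¹) ^ p * nrm p ψ := by
          refine Finset.sum_congr rfl fun i _ => ?_
          rw [tsum_mul_left]
          congr 1
          exact (Equiv.mulLeft (c i)).tsum_eq fun y => ∑ j, ‖ψ y j‖ ^ p
      _ = (N : ℝ) ^ (1 - p / 2) * nrm p ψ := by
          rw [Finset.sum_const, Finset.card_univ, Fintype.card_fin, nsmul_eq_mul, ← mul_assoc,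
            vad1_num hN]
  · intro x i j hij
    by_contra hcon
    push Not at hcon
    refine hdis (c i * x) (c j * x) i j hij (h3 x i hcon.1) (h3 x j hcon.2) ?_
    rw [inv_mul_cancel_left, inv_mul_cancel_left]

end Pool.Agent.PC
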