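import Pool.Agent.Lib.MP_830418_an.Flat.Stm

open Finset

universe u

namespace Pool.Agent.PC

section chain

variable {G : Type u} [Group G] {N : ℕ}

/-- the terms of the chain -/
private noncomputable def chain_l (V D : Vec G N →ₗ[ℂ] Vec G N) (lam : ℝ) :
    List G → Vec G N → List (Vec G N)
  | [], _ => []
  | b :: bs, φ => D (tr b φ) :: chain_l V D lam bs (((lam : ℂ))⁻¹ • V (tr b φ))

private theorem chain_sum (V D : Vec G N →ₗ[ℂ] Vec G N) (lam : ℝ) (bs : List G) :
    ∀ φ : Vec G N, (chain_l V D lam bs φ).sum = Fop V D lam bs φ := by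
  induction bs with
  | nil => intro φ; rfl
  | cons b bs ih =>
    intro φ
    rw [chain_l, List.sum_cons, ih, Fop_cons]

private theorem chain_len (V D : Vec G N →ₗ[ℂ] Vec G N) (lam : ℝ) (bs : List G) :
    ∀ φ : Vec G N, (chain_l V D lam bs φ).length = bs.length := by
  induction bs with
  | nil => intro φ; rfl
  | cons b bs ih =>
    intro φ
    rw [chain_l, List.length_cons, ih, List.length_cons]

private theorem chain_fs (V D : Vec G N →ₗ[ℂ] Vec G N) (lam : ℝ)
    (hV : ∀ φ, FS φ → FS (V φ)) (hD : ∀ φ, FS φ → FS (D φ)) (bs : List G) :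
    ∀ φ : Vec G N, FS φ → ∀ ψ ∈ chain_l V D lam bs φ, FS ψ := by
  induction bs with
  | nil =>
    intro φ _ ψ hψ
    rw [chain_l] at hψ
    simp at hψ
  | cons b bs ih =>
    intro φ hφ ψ hψ
    rw [chain_l, List.mem_cons] at hψ
    rcases hψ with rfl | hψ
    · exact hD _ (hφ.tr b)
    · exact ih _ ((hV _ (hφ.tr b)).smul _) ψ hψ

private theorem chain_bd (p : ℝ) (V D : Vec G N →ₗ[ℂ] Vec G N) (lam a b : ℝ) (ha : 0 ≤ a)
    (hb : 0 ≤ b) (hV : ∀ φ, FS φ → FS (V φ))
    (h1 : ∀ φ, FS φ → nrm p (((lam : ℂ))⁻¹ • V φ) ≤ nrm p φ)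
    (h2 : ∀ φ, FS φ → nrm p (D φ) ≤ a * nrm p φ + b * (nrm p φ - nrm p (((lam : ℂ))⁻¹ • V φ)))
    (bs : List G) :
    ∀ φ : Vec G N, FS φ → ((chain_l V D lam bs φ).map (nrm p)).sum ≤
      ((bs.length : ℝ) * a + b) * nrm p φ := by
  induction bs with
  | nil =>
    intro φ _
    rw [chain_l]
    simp only [List.map_nil, List.sum_nil, List.length_nil, Nat.cast_zero, zero_mul, zero_add]
    exact mul_nonneg hb (nrm_nonneg p φ)
  | cons g bs ih =>
    intro φ hφ
    rw [chain_l, List.map_cons, List.sum_cons, List.length_cons]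
    have e1 := h2 _ (hφ.tr g)
    have e2 := h1 _ (hφ.tr g)
    have e3 := ih _ ((hV _ (hφ.tr g)).smul ((lam : ℂ))⁻¹)
    rw [nrm_tr] at e1 e2
    have e4 : (bs.length : ℝ) * a * nrm p (((lam : ℂ))⁻¹ • V (tr g φ)) ≤
        (bs.length : ℝ) * a * nrm p φ :=
      mul_le_mul_of_nonneg_left e2 (mul_nonneg (Nat.cast_nonneg _) ha)
    push_cast
    nlinarith

end chain

theorem p_chain (h1 : S_hold.{u}) : S_chain.{u} := by
  intro p hp G _ N V D lam a b ha hb hV hD h3 h4 bs φ hφ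
  have e1 := h1 p hp G N (chain_l V D lam bs φ) (chain_fs V D lam hV hD bs φ hφ)
  rw [chain_sum, chain_len] at e1
  have e2 := chain_bd p V D lam a b ha hb hV h3 h4 bs φ hφ
  refine e1.trans ?_
  rw [mul_assoc]
  exact mul_le_mul_of_nonneg_left e2 (Real.rpow_nonneg (Nat.cast_nonneg _) _)

end Pool.Agent.PC
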