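import Pool.Agent.Lib.MP_830418_an.Flat.Stm

open Finset

universe u

namespace Pool.Agent.PC

section ext

variable {G : Type u} [Group G] {N : ℕ}

/-- the convolution as a sum over the left factor -/
private theorem ext_conv (F ζ : G →₀ ℂ) (x : G) :
    ∑ k ∈ ζ.support, F (x * k⁻¹) * ζ k = F.sum fun g a => a * ζ (g⁻¹ * x) := by
  have h1 : ∑ k ∈ ζ.support, F (x * k⁻¹) * ζ k = ∑' k, F (x * k⁻¹) * ζ k := by
    refine (tsum_eq_sum fun k hk => ?_).symm
    rw [Finsupp.notMem_support_iff.1 hk, mul_zero]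
  have h2 : (F.sum fun g a => a * ζ (g⁻¹ * x)) = ∑' g, F g * ζ (g⁻¹ * x) := by
    refine (tsum_eq_sum fun g hg => ?_).symm
    show F g * ζ (g⁻¹ * x) = 0
    rw [Finsupp.notMem_support_iff.1 hg, zero_mul]
  rw [h1, h2, ← ((Equiv.inv G).trans (Equiv.mulLeft x)).tsum_eq
    (fun g => F g * ζ (g⁻¹ * x))]
  refine tsum_congr fun k => ?_
  simp [mul_assoc]

private theorem ext_conv' (F ζ : G →₀ ℂ) (x : G) :
    ∑ k ∈ ζ.support, cst (F : G → ℂ) (x * k⁻¹) * ζ k =
      F.sum fun g a => starRingEnd ℂ a * ζ (g * x) := by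
  have h1 : ∑ k ∈ ζ.support, cst (F : G → ℂ) (x * k⁻¹) * ζ k =
      ∑' k, cst (F : G → ℂ) (x * k⁻¹) * ζ k := by
    refine (tsum_eq_sum fun k hk => ?_).symm
    rw [Finsupp.notMem_support_iff.1 hk, mul_zero]
  have h2 : (F.sum fun g a => starRingEnd ℂ a * ζ (g * x)) =
      ∑' g, starRingEnd ℂ (F g) * ζ (g * x) := by
    refine (tsum_eq_sum fun g hg => ?_).symm
    show starRingEnd ℂ (F g) * ζ (g * x) = 0
    rw [Finsupp.notMem_support_iff.1 hg, map_zero, zero_mul]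
  rw [h1, h2, ← (Equiv.mulRight x⁻¹).tsum_eq
    (fun g => starRingEnd ℂ (F g) * ζ (g * x))]
  refine tsum_congr fun k => ?_
  simp [cst]

/-- scaling -/
private theorem ext_smul {p : ℝ} {C : ℝ} {f : G → ℂ} (a : ℝ) (ha : 0 ≤ a)
    (h : ConvLe p C f) : ConvLe p (a ^ p * C) fun x => (a : ℂ) * f x := by
  intro ζ
  obtain ⟨h1, h2⟩ := h ζ
  have key : ∀ g : G, ‖∑ k ∈ ζ.support, (a : ℂ) * f (g * k⁻¹) * ζ k‖ ^ p =
      a ^ p * ‖∑ k ∈ ζ.support, f (g * k⁻¹) * ζ k‖ ^ p := by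
    intro g
    have : ∑ k ∈ ζ.support, (a : ℂ) * f (g * k⁻¹) * ζ k =
        (a : ℂ) * ∑ k ∈ ζ.support, f (g * k⁻¹) * ζ k := by
      rw [Finset.mul_sum]
      exact Finset.sum_congr rfl fun k _ => by ring
    rw [this, norm_mul, Real.mul_rpow (norm_nonneg _) (norm_nonneg _), Complex.norm_real,
      Real.norm_of_nonneg ha]
  refine ⟨?_, ?_⟩
  · simp only [key]
    exact h1.mul_left _
  · simp only [key]
    rw [tsum_mul_left, mul_assoc]
    exact mul_le_mul_of_nonneg_left h2 (Real.rpow_nonneg ha _)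

/-- the image of a finitely supported vector under a matrix is finitely supported -/
private theorem ext_fs {T : Vec G N →ₗ[ℂ] Vec G N} {f : Fin N → Fin N → (G →₀ ℂ)}
    (hf : ∀ φ x i, T φ x i = ∑ j, (f i j).sum fun g a => a * φ (g⁻¹ * x) j)
    {φ : Vec G N} (hφ : FS φ) : FS (T φ) := by
  refine FS.of_subset (s := ⋃ i : Fin N, ⋃ j : Fin N, ⋃ g ∈ (f i j).support,
    {x | g⁻¹ * x ∈ Function.support φ}) ?_ fun x hx => ?_
  · exact Set.finite_iUnion fun i => Set.finite_iUnion fun j =>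
      (f i j).support.finite_toSet.biUnion fun g _ => finite_preimage_mul g⁻¹ hφ
  · simp only [Set.mem_iUnion, Set.mem_ofPred_eq, Function.mem_support, not_exists, not_not] at hx
    funext i
    rw [hf]
    refine Finset.sum_eq_zero fun j _ => ?_
    refine Finset.sum_eq_zero fun g hg => ?_
    show f i j g * φ (g⁻¹ * x) j = 0
    rw [hx i j g hg]
    simp

private theorem ext_A {p : ℝ} (hp : 1 < p) {T : Vec G N →ₗ[ℂ] Vec G N}
    {f : Fin N → Fin N → (G →₀ ℂ)}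
    (hf : ∀ φ x i, T φ x i = ∑ j, (f i j).sum fun g a => a * φ (g⁻¹ * x) j)
    {C : ℝ} (hT : ∀ φ, FS φ → nrm p (T φ) ≤ C * nrm p φ) (i₀ j : Fin N) :
    ConvLe p C (f i₀ j : G → ℂ) := by
  classical
  intro ζ
  have hp0 : 0 < p := by linarith
  set φ : Vec G N := fun x i => if i = j then ζ x else 0 with hφ
  have hφ0 : ∀ x, x ∉ ζ.support → φ x = 0 := by
    intro x hx
    funext i
    simp [hφ, Finsupp.notMem_support_iff.1 hx]
  have hφs : FS φ := FS.of_subset ζ.support.finite_toSet fun x hx => hφ0 x (by simpa using hx)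
  have hTφ : ∀ x, T φ x i₀ = ∑ k ∈ ζ.support, f i₀ j (x * k⁻¹) * ζ k := by
    intro x
    rw [hf, ext_conv, Finset.sum_eq_single j]
    · simp [hφ]
    · intro b _ hb
      simp [hφ, hb]
    · intro h
      exact absurd (Finset.mem_univ j) h
  have hle : ∀ x, ‖∑ k ∈ ζ.support, f i₀ j (x * k⁻¹) * ζ k‖ ^ p ≤ ∑ i, ‖T φ x i‖ ^ p := by
    intro x
    rw [← hTφ]
    exact Finset.single_le_sum (f := fun i => ‖T φ x i‖ ^ p)
      (fun i _ => Real.rpow_nonneg (norm_nonneg _) _) (Finset.mem_univ i₀)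
  have hsum := nrm_summable hp0 (ext_fs hf hφs)
  have hsum' : Summable fun x => ‖∑ k ∈ ζ.support, f i₀ j (x * k⁻¹) * ζ k‖ ^ p :=
    Summable.of_nonneg_of_le (fun x => Real.rpow_nonneg (norm_nonneg _) _) hle hsum
  refine ⟨hsum', ?_⟩
  refine (Summable.tsum_le_tsum hle hsum' hsum).trans ?_
  refine (hT φ hφs).trans (le_of_eq ?_)
  rw [nrm_eq_sum hp0 hφ0]
  congr 1
  refine Finset.sum_congr rfl fun x _ => ?_
  rw [Finset.sum_eq_single j]
  · simp [hφ]
  · intro b _ hb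
    simp [hφ, hb, hp0.ne']
  · intro h
    exact absurd (Finset.mem_univ j) h

private theorem ext_B {p : ℝ} (hp : 1 < p) {Ts : Vec G N →ₗ[ℂ] Vec G N}
    {f : Fin N → Fin N → (G →₀ ℂ)}
    (hf : ∀ ψ x j, Ts ψ x j = ∑ i, (f i j).sum fun g a => starRingEnd ℂ a * ψ (g * x) i)
    {D : ℝ} {i₀ : Fin N} {ξ : Vec G N} (hξ : FS ξ) (hξ0 : ∀ x i, i ≠ i₀ → ξ x i = 0)
    (h : ∀ j, ConvLe p D (cst (f i₀ j : G → ℂ))) :
    nrm p (Ts ξ) ≤ N * D * nrm p ξ := by
  classical
  have hp0 : 0 < p := by linarith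
  set ζ : G →₀ ℂ := Finsupp.onFinset hξ.toFinset (fun x => ξ x i₀) (by
    intro x hx
    rw [Set.Finite.mem_toFinset]
    intro h0
    exact hx (congrFun h0 i₀)) with hζ
  have hζa : ∀ x, ζ x = ξ x i₀ := fun x => rfl
  have hTs : ∀ x j, Ts ξ x j = ∑ k ∈ ζ.support, cst (f i₀ j : G → ℂ) (x * k⁻¹) * ζ k := by
    intro x j
    rw [hf, ext_conv', Finset.sum_eq_single i₀]
    · rfl
    · intro b _ hb
      refine Finset.sum_eq_zero fun g _ => ?_
      show starRingEnd ℂ (f b j g) * ξ (g * x) b = 0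
      rw [hξ0 _ b hb, mul_zero]
    · intro h
      exact absurd (Finset.mem_univ i₀) h
  have hξn : nrm p ξ = ∑ k ∈ ζ.support, ‖ζ k‖ ^ p := by
    rw [nrm_eq_sum hp0 (s := ζ.support)]
    · refine Finset.sum_congr rfl fun x _ => ?_
      rw [Finset.sum_eq_single i₀]
      · rfl
      · intro b _ hb
        rw [hξ0 x b hb, norm_zero, Real.zero_rpow hp0.ne']
      · intro h
        exact absurd (Finset.mem_univ i₀) h
    · intro x hx
      rw [Finsupp.notMem_support_iff, hζa] at hx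
      funext i
      by_cases hi : i = i₀
      · rw [hi]
        exact hx
      · exact hξ0 x i hi
  have hs : ∀ j, Summable fun x => ‖Ts ξ x j‖ ^ p := by
    intro j
    simp only [hTs]
    exact (h j ζ).1
  have hswap : nrm p (Ts ξ) = ∑ j, ∑' x, ‖Ts ξ x j‖ ^ p := by
    unfold nrm
    exact Summable.tsum_finsetSum fun j _ => hs j
  rw [hswap, hξn]
  calc ∑ j : Fin N, ∑' x, ‖Ts ξ x j‖ ^ p ≤ ∑ _j : Fin N, D * ∑ k ∈ ζ.support, ‖ζ k‖ ^ p := by
        refine Finset.sum_le_sum fun j _ => ?_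
        simp only [hTs]
        exact (h j ζ).2
    _ = N * D * ∑ k ∈ ζ.support, ‖ζ k‖ ^ p := by
        rw [Finset.sum_const, Finset.card_univ, Fintype.card_fin, nsmul_eq_mul, mul_assoc]

end ext

theorem p_ext : S_ext.{u} := by
  intro p hp G _ N T Ts hRep C R hC hR hT i₀ ξ hξ hξ0 hlt
  obtain ⟨f, hf, hfs⟩ := hRep
  have hp0 : 0 < p := by linarith
  have hex : ∃ j, ¬ ConvLe p (R * C) (cst (f i₀ j : G → ℂ)) := by
    by_contra hcon
    push Not at hcon
    exact absurd (ext_B hp hfs hξ hξ0 hcon) (not_le.2 hlt)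
  obtain ⟨j, hj⟩ := hex
  have hA := ext_A hp hf hT i₀ j
  set a : ℝ := C ^ (-(1 / p)) with ha
  set b : ℝ := C ^ (1 / p) with hb
  have ha0 : 0 ≤ a := Real.rpow_nonneg hC.le _
  have hb0 : 0 ≤ b := Real.rpow_nonneg hC.le _
  have hap : a ^ p = C⁻¹ := by
    rw [ha, ← Real.rpow_mul hC.le]
    have : -(1 / p) * p = -1 := by field_simp
    rw [this, Real.rpow_neg_one]
  have hbp : b ^ p = C := by
    rw [hb, ← Real.rpow_mul hC.le, one_div_mul_cancel hp0.ne', Real.rpow_one]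
  have hba : (b : ℂ) * (a : ℂ) = 1 := by
    rw [← Complex.ofReal_mul, hb, ha, ← Real.rpow_add hC]
    simp
  refine ⟨(a : ℂ) • f i₀ j, ?_, ?_⟩
  · have h1 := ext_smul a ha0 hA
    rw [hap, inv_mul_cancel₀ hC.ne'] at h1
    exact h1
  · intro hcon
    apply hj
    have h1 := ext_smul b hb0 hcon
    rw [hbp, mul_comm] at h1
    have h2 : (fun x => (b : ℂ) * cst (((a : ℂ) • f i₀ j : G →₀ ℂ) : G → ℂ) x) =
        cst (f i₀ j : G → ℂ) := by
      funext x
      simp only [cst, Finsupp.coe_smul, Pi.smul_apply, smul_eq_mul, map_mul, Complex.conj_ofReal]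
      rw [← mul_assoc, hba, one_mul]
    rw [h2] at h1
    exact h1

end Pool.Agent.PC
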