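import Pool.Agent.Lib.MP_830418_an.Flat.Stm

open Finset

universe u

namespace Pool.Agent.PC

private theorem hold_fin {p : ℝ} (hp : 1 < p) {G : Type u} [Group G] {N : ℕ} {ι : Type*}
    [Fintype ι] (ψ : ι → Vec G N) (h : ∀ k, FS (ψ k)) :
    nrm p (∑ k, ψ k) ≤ (Fintype.card ι : ℝ) ^ (p - 1) * ∑ k, nrm p (ψ k) := by
  classical
  have hp0 : 0 < p := by linarith
  have hfin : (⋃ k, Function.support (ψ k)).Finite := Set.finite_iUnion h
  set S : Finset G := hfin.toFinset with hS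
  have hz : ∀ k, ∀ x, x ∉ S → ψ k x = 0 := by
    intro k x hx
    by_contra hne
    exact hx (by rw [hS, Set.Finite.mem_toFinset]; exact Set.mem_iUnion.2 ⟨k, hne⟩)
  have hz' : ∀ x, x ∉ S → (∑ k, ψ k) x = 0 := by
    intro x hx
    rw [Finset.sum_apply]
    exact Finset.sum_eq_zero fun k _ => hz k x hx
  rw [nrm_eq_sum hp0 hz']
  have e : ∀ k, nrm p (ψ k) = ∑ x ∈ S, ∑ i, ‖ψ k x i‖ ^ p := fun k => nrm_eq_sum hp0 (hz k)
  simp only [e]
  have key : ∀ x i, ‖(∑ k, ψ k) x i‖ ^ p ≤ (Fintype.card ι : ℝ) ^ (p - 1) *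
      ∑ k, ‖ψ k x i‖ ^ p := by
    intro x i
    have h1 : ‖(∑ k, ψ k) x i‖ ≤ ∑ k, ‖ψ k x i‖ := by
      rw [Finset.sum_apply, Finset.sum_apply]
      exact norm_sum_le _ _
    calc ‖(∑ k, ψ k) x i‖ ^ p ≤ (∑ k, ‖ψ k x i‖) ^ p :=
          Real.rpow_le_rpow (norm_nonneg _) h1 hp0.le
      _ ≤ ((Finset.univ : Finset ι).card : ℝ) ^ (p - 1) * ∑ k, ‖ψ k x i‖ ^ p :=
          Real.rpow_sum_le_const_mul_sum_rpow_of_nonneg _ hp.le fun _ _ => norm_nonneg _
      _ = _ := by rw [Finset.card_univ]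
  calc ∑ x ∈ S, ∑ i, ‖(∑ k, ψ k) x i‖ ^ p
      ≤ ∑ x ∈ S, ∑ i, (Fintype.card ι : ℝ) ^ (p - 1) * ∑ k, ‖ψ k x i‖ ^ p :=
        Finset.sum_le_sum fun x _ => Finset.sum_le_sum fun i _ => key x i
    _ = (Fintype.card ι : ℝ) ^ (p - 1) * ∑ k, ∑ x ∈ S, ∑ i, ‖ψ k x i‖ ^ p := by
        simp only [← Finset.mul_sum]
        congr 1
        rw [Finset.sum_comm (s := Finset.univ (α := ι))]
        refine Finset.sum_congr rfl fun x _ => ?_
        rw [Finset.sum_comm]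

theorem p_hold : S_hold.{u} := by
  intro p hp G _ N l hl
  have h := hold_fin hp (fun k : Fin l.length => l.get k) (fun k => hl _ (List.get_mem _ _))
  have e1 : ∑ k : Fin l.length, l.get k = l.sum := by
    conv_rhs => rw [← List.ofFn_get l]
    rw [List.sum_ofFn]
  have e2 : ∑ k : Fin l.length, nrm p (l.get k) = (l.map (nrm p)).sum := by
    conv_rhs => rw [← List.ofFn_get l]
    rw [List.map_ofFn, List.sum_ofFn]
    rfl
  rw [e1, e2, Fintype.card_fin] at h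
  exact h

end Pool.Agent.PC
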