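import Pool.Agent.Lib.MP_830418_an.Flat.Stm

open Finset

universe u

namespace Pool.Agent.PC

private theorem low_nrm_add {G : Type u} [Group G] {N : ℕ} {p : ℝ} (hp : 0 < p) {φ ψ : Vec G N}
    (hφ : FS φ) (hψ : FS ψ) (h : ∀ x, φ x = 0 ∨ ψ x = 0) :
    nrm p (φ + ψ) = nrm p φ + nrm p ψ := by
  unfold nrm
  rw [← (nrm_summable hp hφ).tsum_add (nrm_summable hp hψ)]
  refine tsum_congr fun x => ?_
  rcases h x with h0 | h0
  · rw [nrm_term_zero hp h0, zero_add]
    simp [Pi.add_apply, h0]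
  · rw [nrm_term_zero hp h0, add_zero]
    simp [Pi.add_apply, h0]

private theorem low_fin {G : Type u} [Group G] {N : ℕ} (c : ℕ → Fin N → G) (m : ℕ) :
    (Set.range fun t : ℕ → Fin N => pr c m t).Finite := by
  induction m with
  | zero => exact (Set.finite_singleton (1 : G)).subset (by rintro _ ⟨t, rfl⟩; rfl)
  | succ m ih =>
    refine ((ih.prod (Set.finite_range (c m))).image fun q : G × G => q.1 * q.2).subset ?_
    rintro _ ⟨t, rfl⟩
    exact ⟨(pr c m t, c m (t m)), ⟨⟨t, rfl⟩, ⟨t m, rfl⟩⟩, rfl⟩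

theorem p_low (h1 : S_Vad.{u}) (h2 : S_neu.{u}) : S_low.{u} := by
  intro p hp G _ _ N hN u hu c m lam hlam hgen D ξ hFS hSC K
  set h : Vec G N := D ξ with hh
  set ρ : ℝ := (N : ℝ) ^ ((m : ℝ) * (1 - p / 2)) / lam ^ p with hρ
  suffices H : ∃ bs : List G, bs.length = K ∧
      FS (Fad (Vad u c m) D lam bs ξ) ∧ SC (Fad (Vad u c m) D lam bs ξ) ∧
      (∀ (t s : ℕ → Fin N), (∃ k < m, t k ≠ s k) → ∀ q r,
        Fad (Vad u c m) D lam bs ξ q ≠ 0 → Fad (Vad u c m) D lam bs ξ r ≠ 0 →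
        (pr c m t)⁻¹ * q ≠ (pr c m s)⁻¹ * r) ∧
      (∀ q, Fad (Vad u c m) D lam bs ξ q ≠ 0 → ∀ t : ℕ → Fin N, h ((pr c m t)⁻¹ * q) = 0) ∧
      nrm p (Fad (Vad u c m) D lam bs ξ) = nrm p h * ∑ k ∈ range K, ρ ^ k by
    obtain ⟨bs, hl, -, -, -, -, hn⟩ := H
    exact ⟨bs, hl, hn⟩
  induction K with
  | zero =>
    refine ⟨[], rfl, ?_, ?_, ?_, ?_, ?_⟩
    · rw [Fad_nil]; exact fs_zero
    · intro x i j _
      left
      rw [Fad_nil]; rfl
    · intro t s _ q r hq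
      exact absurd (by rw [Fad_nil]; rfl) hq
    · intro q hq
      exact absurd (by rw [Fad_nil]; rfl) hq
    · rw [Fad_nil, nrm_zero hp]
      simp
  | succ K ih =>
    obtain ⟨bs, hl, hfs, hsc, ha, hb, hn⟩ := ih
    set ψ : Vec G N := Fad (Vad u c m) D lam bs ξ with hψ
    obtain ⟨hV1, hV2, hV3⟩ := h1 p hp G N hN u hu c m ψ hfs hsc ha
    have hVfs : FS (Vad u c m ψ) := hfs.Vad u c m
    have hdis : ∀ x, h x = 0 ∨ Vad u c m ψ x = 0 := by
      intro x
      by_cases hx : Vad u c m ψ x = 0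
      · exact Or.inr hx
      · left
        obtain ⟨t, ht⟩ := hV3 x hx
        have := hb _ ht t
        rwa [inv_mul_cancel_left] at this
    set χ : Vec G N := ((lam : ℂ))⁻¹ • Vad u c m ψ with hχ
    have hχfs : FS χ := hVfs.smul _
    have hdis' : ∀ x, h x = 0 ∨ χ x = 0 := by
      intro x
      rcases hdis x with h0 | h0
      · exact Or.inl h0
      · right
        rw [hχ, Pi.smul_apply, h0, smul_zero]
    set ψ₁ : Vec G N := h + χ with hψ₁
    have hψ₁fs : FS ψ₁ := hFS.add hχfs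
    have hψ₁sc : SC ψ₁ := by
      intro x i j hij
      rcases hdis' x with h0 | h0
      · have e : ∀ i, ψ₁ x i = ((lam : ℂ))⁻¹ * Vad u c m ψ x i := by
          intro i
          rw [hψ₁, Pi.add_apply, Pi.add_apply, h0, hχ]
          simp
        rcases hV2 x i j hij with h3 | h3
        · left; rw [e, h3, mul_zero]
        · right; rw [e, h3, mul_zero]
      · have e : ∀ i, ψ₁ x i = h x i := by
          intro i
          rw [hψ₁, Pi.add_apply, Pi.add_apply, h0]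
          simp
        rcases hSC x i j hij with h3 | h3
        · left; rw [e, h3]
        · right; rw [e, h3]
    have hnχ : nrm p χ = ρ * nrm p ψ := by
      rw [hχ, nrm_smul, hV1, hρ, norm_inv, Complex.norm_real, Real.norm_of_nonneg hlam.le,
        Real.inv_rpow hlam.le]
      ring
    have hnψ₁ : nrm p ψ₁ = nrm p h * ∑ k ∈ range (K + 1), ρ ^ k := by
      rw [hψ₁, low_nrm_add hp hFS hχfs hdis', hnχ, hn, Finset.sum_range_succ', mul_add,
        Finset.mul_sum, Finset.mul_sum, Finset.mul_sum]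
      have e : ∀ k, ρ * (nrm p h * ρ ^ k) = nrm p h * ρ ^ (k + 1) := by
        intro k; ring
      simp only [e]
      ring
    -- the finite sets
    have hPf : (Function.support ψ₁).Finite := hψ₁fs
    have hhf : (Function.support h).Finite := hFS
    have hpf := low_fin c m
    have hTf : {x : G | ∃ t s : ℕ → Fin N, (∃ k < m, t k ≠ s k) ∧
        x = pr c m t * (pr c m s)⁻¹}.Finite := by
      refine ((hpf.prod hpf).image fun q : G × G => q.1 * q.2⁻¹).subset ?_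
      rintro _ ⟨t, s, -, rfl⟩
      exact ⟨(pr c m t, pr c m s), ⟨⟨t, rfl⟩, ⟨s, rfl⟩⟩, rfl⟩
    have hZf : {x : G | ∃ q r, ψ₁ q ≠ 0 ∧ ψ₁ r ≠ 0 ∧ x = q * r⁻¹}.Finite := by
      refine ((hPf.prod hPf).image fun q : G × G => q.1 * q.2⁻¹).subset ?_
      rintro _ ⟨q, r, hq, hr, rfl⟩
      exact ⟨(q, r), ⟨hq, hr⟩, rfl⟩
    have hYf : {x : G | ∃ q y, ∃ t : ℕ → Fin N, ψ₁ q ≠ 0 ∧ h y ≠ 0 ∧
        x = q * y⁻¹ * (pr c m t)⁻¹}.Finite := by
      refine ((hPf.prod (hhf.prod hpf)).image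
        fun q : G × G × G => q.1 * q.2.1⁻¹ * q.2.2⁻¹).subset ?_
      rintro _ ⟨q, y, t, hq, hy, rfl⟩
      exact ⟨(q, y, pr c m t), ⟨hq, hy, ⟨t, rfl⟩⟩, rfl⟩
    obtain ⟨b, hbY, hbT⟩ := h2 G hTf.toFinset hZf.toFinset hYf.toFinset (by
      intro x hx
      rw [Set.Finite.mem_toFinset] at hx
      obtain ⟨t, s, hts, rfl⟩ := hx
      exact hgen t s hts)
    rw [Set.Finite.mem_toFinset] at hbY
    have hbT' : ∀ t s : ℕ → Fin N, (∃ k < m, t k ≠ s k) → ∀ q r, ψ₁ q ≠ 0 → ψ₁ r ≠ 0 →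
        b * (pr c m t * (pr c m s)⁻¹) * b⁻¹ ≠ q * r⁻¹ := by
      intro t s hts q r hq hr he
      apply hbT (pr c m t * (pr c m s)⁻¹)
      · rw [Set.Finite.mem_toFinset]
        exact ⟨t, s, hts, rfl⟩
      · rw [Set.Finite.mem_toFinset]
        exact ⟨q, r, hq, hr, he⟩
    have hF : Fad (Vad u c m) D lam (b :: bs) ξ = tr b⁻¹ ψ₁ := by
      rw [Fad_cons]
    have hap : ∀ x, Fad (Vad u c m) D lam (b :: bs) ξ x = ψ₁ (b * x) := by
      intro x
      rw [hF, tr_apply, inv_inv]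
    refine ⟨b :: bs, by simp [hl], ?_, ?_, ?_, ?_, ?_⟩
    · rw [hF]; exact hψ₁fs.tr _
    · intro x i j hij
      rw [hap]
      exact hψ₁sc (b * x) i j hij
    · intro t s hts q r hq hr he
      rw [hap] at hq hr
      refine hbT' t s hts _ _ hq hr ?_
      have e1 : q = pr c m t * (pr c m s)⁻¹ * r := by
        rw [mul_assoc, ← he, mul_inv_cancel_left]
      rw [e1]
      group
    · intro q hq t
      rw [hap] at hq
      by_contra hne
      refine hbY ⟨b * q, (pr c m t)⁻¹ * q, t, hq, hne, ?_⟩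
      group
    · rw [hF, nrm_tr, hnψ₁]

end Pool.Agent.PC
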