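import Pool.Agent.Lib.MP_830418_an.Flat.Stm

open Finset Pointwise

universe u

namespace Pool.Agent.PC

private theorem neu_conj {G : Type u} [Group G] (t : G)
    (h : (Subgroup.centralizer ({t} : Set G)).FiniteIndex) : ¬ NonFC t := by
  intro hN
  apply hN
  have := h
  have : Finite (G ⧸ Subgroup.centralizer ({t} : Set G)) := inferInstance
  have hQ : ∀ a b : G, (QuotientGroup.leftRel (Subgroup.centralizer ({t} : Set G))) a b →
      a * t * a⁻¹ = b * t * b⁻¹ := by
    intro a b hab
    rw [QuotientGroup.leftRel_apply, Subgroup.mem_centralizer_iff] at hab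
    have h1 := hab t rfl
    -- `t * (a⁻¹ * b) = a⁻¹ * b * t`
    have h2 : a * (t * (a⁻¹ * b)) = a * (a⁻¹ * b * t) := by rw [h1]
    have h3 : a * t * a⁻¹ * b = b * t := by
      calc a * t * a⁻¹ * b = a * (t * (a⁻¹ * b)) := by group
        _ = a * (a⁻¹ * b * t) := h2
        _ = b * t := by group
    calc a * t * a⁻¹ = a * t * a⁻¹ * b * b⁻¹ := by group
      _ = b * t * b⁻¹ := by rw [h3]
  let Q : G ⧸ Subgroup.centralizer ({t} : Set G) → G :=
    Quotient.lift (fun g : G => g * t * g⁻¹) hQ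
  refine (Set.finite_range Q).subset ?_
  rintro _ ⟨g, rfl⟩
  exact ⟨(g : G ⧸ Subgroup.centralizer ({t} : Set G)), rfl⟩

theorem p_neu : S_neu.{u} := by
  intro G _ _ T Z Y hT
  by_contra hcon
  push Not at hcon
  classical
  let H : (G × G) ⊕ G → Subgroup G := fun i => match i with
    | Sum.inl tz => Subgroup.centralizer ({tz.1} : Set G)
    | Sum.inr _ => ⊥
  let g : (G × G) ⊕ G → G := fun i => match i with
    | Sum.inl tz => if h : ∃ b0 : G, b0 * tz.1 * b0⁻¹ = tz.2 then h.choose else 1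
    | Sum.inr y => y
  have hcov : ⋃ i ∈ (T ×ˢ Z).disjSum Y, g i • (H i : Set G) = Set.univ := by
    rw [Set.eq_univ_iff_forall]
    intro b
    rw [Set.mem_iUnion₂]
    by_cases hb : b ∈ Y
    · refine ⟨Sum.inr b, by simp [hb], ?_⟩
      show b ∈ b • ((⊥ : Subgroup G) : Set G)
      rw [Set.mem_smul_set]
      exact ⟨1, by simp, by simp⟩
    · obtain ⟨t, ht, hz⟩ := hcon b hb
      refine ⟨Sum.inl (t, b * t * b⁻¹), by simp [ht, hz], ?_⟩
      have hex : ∃ b0 : G, b0 * t * b0⁻¹ = b * t * b⁻¹ := ⟨b, rfl⟩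
      have hg : g (Sum.inl (t, b * t * b⁻¹)) = hex.choose := dif_pos hex
      rw [hg]
      show b ∈ hex.choose • ((Subgroup.centralizer ({t} : Set G) : Subgroup G) : Set G)
      rw [Set.mem_smul_set]
      refine ⟨hex.choose⁻¹ * b, ?_, by simp⟩
      rw [SetLike.mem_coe, Subgroup.mem_centralizer_iff]
      intro x hx
      rw [Set.mem_singleton_iff] at hx
      subst hx
      have h1 := hex.choose_spec
      generalize hex.choose = d at h1
      have h2 : d * x = b * x * b⁻¹ * d := by rw [← h1]; group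
      calc x * (d⁻¹ * b) = d⁻¹ * (d * x) * d⁻¹ * b := by group
        _ = d⁻¹ * (b * x * b⁻¹ * d) * d⁻¹ * b := by rw [h2]
        _ = d⁻¹ * b * x := by group
  obtain ⟨k, hk, hfin⟩ := Subgroup.exists_finiteIndex_of_leftCoset_cover hcov
  rcases k with ⟨t, z⟩ | y
  · have ht : t ∈ T := by
      simp at hk
      exact hk.1
    exact neu_conj t hfin (hT t ht)
  · have h0 : ((⊥ : Subgroup G)).FiniteIndex := hfin
    apply h0.index_ne_zero
    rw [Subgroup.index_bot]
    exact Nat.card_eq_zero_of_infinite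

end Pool.Agent.PC
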