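import Pool.Agent.Lib.MP_830418_an.Flat.Stm

open Finset

universe u

set_option linter.unusedSectionVars false

namespace Pool.Agent.PC

variable {G : Type u} [Group G]

/-- linear sum -/
private noncomputable def ls (f : G →₀ ℂ) (F : G → ℂ) : ℂ := f.sum fun g a => a * F g

/-- conjugate linear sum -/
private noncomputable def cs (f : G →₀ ℂ) (F : G → ℂ) : ℂ :=
  f.sum fun g a => starRingEnd ℂ a * F g

private theorem ls_single (g : G) (a : ℂ) (F : G → ℂ) : ls (Finsupp.single g a) F = a * F g := by
  unfold ls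
  exact Finsupp.sum_single_index (by simp)

private theorem cs_single (g : G) (a : ℂ) (F : G → ℂ) :
    cs (Finsupp.single g a) F = starRingEnd ℂ a * F g := by
  unfold cs
  exact Finsupp.sum_single_index (by simp)

private theorem ls_zero (F : G → ℂ) : ls (0 : G →₀ ℂ) F = 0 := Finsupp.sum_zero_index

private theorem cs_zero (F : G → ℂ) : cs (0 : G →₀ ℂ) F = 0 := Finsupp.sum_zero_index

private theorem ls_add (f f' : G →₀ ℂ) (F : G → ℂ) : ls (f + f') F = ls f F + ls f' F := by
  unfold ls
  exact Finsupp.sum_add_index' (by simp) (by intros; ring)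

private theorem cs_add (f f' : G →₀ ℂ) (F : G → ℂ) : cs (f + f') F = cs f F + cs f' F := by
  unfold cs
  exact Finsupp.sum_add_index' (by simp) (by intros; rw [map_add]; ring)

private theorem ls_fsum {ι : Type*} (s : Finset ι) (f : ι → G →₀ ℂ) (F : G → ℂ) :
    ls (∑ i ∈ s, f i) F = ∑ i ∈ s, ls (f i) F := by
  classical
  induction s using Finset.induction_on with
  | empty => simp [ls_zero]
  | insert i s hi ih => rw [Finset.sum_insert hi, Finset.sum_insert hi, ls_add, ih]

private theorem cs_fsum {ι : Type*} (s : Finset ι) (f : ι → G →₀ ℂ) (F : G → ℂ) :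
    cs (∑ i ∈ s, f i) F = ∑ i ∈ s, cs (f i) F := by
  classical
  induction s using Finset.induction_on with
  | empty => simp [cs_zero]
  | insert i s hi ih => rw [Finset.sum_insert hi, Finset.sum_insert hi, cs_add, ih]

private theorem ls_smul (r : ℂ) (f : G →₀ ℂ) (F : G → ℂ) : ls (r • f) F = r * ls f F := by
  unfold ls
  rw [Finsupp.sum_smul_index (by simp), Finsupp.sum, Finsupp.sum, Finset.mul_sum]
  exact Finset.sum_congr rfl fun _ _ => by ring

private theorem cs_smul (r : ℂ) (f : G →₀ ℂ) (F : G → ℂ) :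
    cs (r • f) F = starRingEnd ℂ r * cs f F := by
  unfold cs
  rw [Finsupp.sum_smul_index (by simp), Finsupp.sum, Finsupp.sum, Finset.mul_sum]
  exact Finset.sum_congr rfl fun _ _ => by rw [map_mul]; ring

private theorem ls_right {ι : Type*} (s : Finset ι) (f : G →₀ ℂ) (F : ι → G → ℂ) :
    ls f (fun g => ∑ i ∈ s, F i g) = ∑ i ∈ s, ls f (F i) := by
  unfold ls
  simp only [Finsupp.sum, Finset.mul_sum]
  exact Finset.sum_comm

private theorem cs_right {ι : Type*} (s : Finset ι) (f : G →₀ ℂ) (F : ι → G → ℂ) :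
    cs f (fun g => ∑ i ∈ s, F i g) = ∑ i ∈ s, cs f (F i) := by
  unfold cs
  simp only [Finsupp.sum, Finset.mul_sum]
  exact Finset.sum_comm

/-- convolution -/
private noncomputable def cv (f f' : G →₀ ℂ) : G →₀ ℂ :=
  ∑ g ∈ f.support, ∑ h ∈ f'.support, Finsupp.single (g * h) (f g * f' h)

private theorem ls_cv (f f' : G →₀ ℂ) (F : G → ℂ) :
    ls (cv f f') F = ls f fun g => ls f' fun h => F (g * h) := by
  unfold cv
  rw [ls_fsum]
  show _ = ∑ g ∈ f.support, f g * ∑ h ∈ f'.support, f' h * F (g * h)
  refine Finset.sum_congr rfl fun g _ => ?_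
  rw [ls_fsum, Finset.mul_sum]
  exact Finset.sum_congr rfl fun h _ => by rw [ls_single]; ring

private theorem cs_cv (f f' : G →₀ ℂ) (F : G → ℂ) :
    cs (cv f f') F = cs f' fun h => cs f fun g => F (g * h) := by
  unfold cv
  rw [cs_fsum]
  show _ = ∑ h ∈ f'.support, starRingEnd ℂ (f' h) *
    ∑ g ∈ f.support, starRingEnd ℂ (f g) * F (g * h)
  simp only [cs_fsum, Finset.mul_sum, cs_single, map_mul]
  rw [Finset.sum_comm]
  exact Finset.sum_congr rfl fun h _ => Finset.sum_congr rfl fun g _ => by ring

private theorem rep_iff {N : ℕ} (T Ts : Vec G N →ₗ[ℂ] Vec G N) : Rep T Ts ↔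
    ∃ f : Fin N → Fin N → (G →₀ ℂ),
      (∀ φ x i, T φ x i = ∑ j, ls (f i j) fun g => φ (g⁻¹ * x) j) ∧
      (∀ ψ x j, Ts ψ x j = ∑ i, cs (f i j) fun g => ψ (g * x) i) := Iff.rfl

theorem p_rep1 : S_rep1.{u} := by
  intro G _ N
  refine ⟨?_, ?_, ?_, ?_, ?_, ?_, ?_⟩
  · intro g
    rw [rep_iff]
    refine ⟨fun i j => if i = j then Finsupp.single g 1 else 0, ?_, ?_⟩
    · intro φ x i
      rw [Finset.sum_eq_single i]
      · beta_reduce
        rw [if_pos rfl, ls_single, one_mul, tr_apply]
      · intro j _ hj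
        beta_reduce
        rw [if_neg (Ne.symm hj), ls_zero]
      · intro h
        exact absurd (Finset.mem_univ _) h
    · intro ψ x j
      rw [Finset.sum_eq_single j]
      · beta_reduce
        rw [if_pos rfl, cs_single, map_one, one_mul, tr_apply, inv_inv]
      · intro i _ hi
        beta_reduce
        rw [if_neg hi, cs_zero]
      · intro h
        exact absurd (Finset.mem_univ _) h
  · intro u c
    rw [rep_iff]
    refine ⟨fun j i => Finsupp.single (c i) ((((Real.sqrt N : ℝ) : ℂ))⁻¹ * u i j), ?_, ?_⟩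
    · intro φ x j
      rw [Rop_apply, Finset.mul_sum]
      exact Finset.sum_congr rfl fun i _ => by rw [ls_single]; ring
    · intro ψ x i
      rw [Rad_apply, Finset.mul_sum]
      refine Finset.sum_congr rfl fun j _ => ?_
      rw [cs_single, map_mul, map_inv₀, Complex.conj_ofReal]
      ring
  · intro W
    rw [rep_iff]
    refine ⟨fun i j => if i = j then ∑ w ∈ W, Finsupp.single w⁻¹ 1 else 0, ?_, ?_⟩
    · intro φ x i
      rw [Finset.sum_eq_single i]
      · beta_reduce
        rw [if_pos rfl, ls_fsum, Dop_apply]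
        exact Finset.sum_congr rfl fun w _ => by rw [ls_single, one_mul, inv_inv]
      · intro j _ hj
        beta_reduce
        rw [if_neg (Ne.symm hj), ls_zero]
      · intro h
        exact absurd (Finset.mem_univ _) h
    · intro ψ x j
      rw [Finset.sum_eq_single j]
      · beta_reduce
        rw [if_pos rfl, cs_fsum, Dad_apply]
        exact Finset.sum_congr rfl fun w _ => by rw [cs_single, map_one, one_mul]
      · intro i _ hi
        beta_reduce
        rw [if_neg hi, cs_zero]
      · intro h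
        exact absurd (Finset.mem_univ _) h
  · rw [rep_iff]
    refine ⟨fun _ _ => 0, ?_, ?_⟩
    · intro φ x i
      simp [ls_zero]
    · intro φ x i
      simp [cs_zero]
  · intro T Ts T' Ts' h h'
    rw [rep_iff] at h h' ⊢
    obtain ⟨f, h1, h2⟩ := h
    obtain ⟨f', h1', h2'⟩ := h'
    refine ⟨fun i j => f i j + f' i j, ?_, ?_⟩
    · intro φ x i
      simp only [ls_add, Finset.sum_add_distrib, ← h1, ← h1']
      rfl
    · intro φ x i
      simp only [cs_add, Finset.sum_add_distrib, ← h2, ← h2']
      rfl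
  · intro r T Ts h
    rw [rep_iff] at h ⊢
    obtain ⟨f, h1, h2⟩ := h
    refine ⟨fun i j => (r : ℂ) • f i j, ?_, ?_⟩
    · intro φ x i
      simp only [ls_smul, ← Finset.mul_sum, ← h1]
      rfl
    · intro φ x i
      simp only [cs_smul, Complex.conj_ofReal, ← Finset.mul_sum, ← h2]
      rfl
  · intro T Ts T' Ts' h h'
    rw [rep_iff] at h h' ⊢
    obtain ⟨f, h1, h2⟩ := h
    obtain ⟨f', h1', h2'⟩ := h'
    refine ⟨fun i k => ∑ j, cv (f i j) (f' j k), ?_, ?_⟩
    · intro φ x i
      show T (T' φ) x i = _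
      rw [h1]
      simp only [h1', ls_right, ls_fsum, ls_cv]
      rw [Finset.sum_comm]
      refine Finset.sum_congr rfl fun k _ => Finset.sum_congr rfl fun j _ => ?_
      simp only [mul_inv_rev, mul_assoc]
    · intro ψ x k
      show Ts' (Ts ψ) x k = _
      rw [h2']
      simp only [h2, cs_right, cs_fsum, cs_cv]
      rw [Finset.sum_comm]
      refine Finset.sum_congr rfl fun i _ => Finset.sum_congr rfl fun j _ => ?_
      simp only [mul_assoc]

end Pool.Agent.PC
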