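import Pool.Agent.Lib.MP_830418_an.Flat.Stm

/-!
Assembly of the pieces (the pieces are hypotheses here).
-/

open Finset

namespace Pool.Agent.PC

universe u

theorem ConvLe.mono {G : Type u} [Group G] {p C C' : ℝ} {f : G → ℂ} (h : ConvLe p C f)
    (hC : C ≤ C') : ConvLe p C' f := fun ξ =>
  ⟨(h ξ).1, (h ξ).2.trans (mul_le_mul_of_nonneg_right hC
    (Finset.sum_nonneg fun _ _ => Real.rpow_nonneg (norm_nonneg _) _))⟩

theorem cst_cst {G : Type u} [Group G] (f : G → ℂ) : cst (cst f) = f := by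
  funext x
  simp [cst]

/-- finitely supported version of `cst` -/
noncomputable def cstF {G : Type u} [Group G] (f : G →₀ ℂ) : G →₀ ℂ :=
  (f.mapRange (starRingEnd ℂ) (map_zero _)).equivMapDomain (Equiv.inv G)

theorem cstF_coe {G : Type u} [Group G] (f : G →₀ ℂ) : (cstF f : G → ℂ) = cst (f : G → ℂ) := by
  funext x
  simp [cstF, cst, Finsupp.equivMapDomain_apply]

theorem nonFC_ne_one {G : Type u} [Group G] {x : G} (h : NonFC x) : x ≠ 1 := by
  rintro rfl
  apply h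
  simp only [mul_one, mul_inv_cancel]
  exact (Set.finite_singleton 1).subset (by rintro _ ⟨g, rfl⟩; rfl)

theorem NonFC.infinite {G : Type u} [Group G] {x : G} (h : NonFC x) : Infinite G := by
  by_contra hG
  rw [not_infinite_iff_finite] at hG
  exact h (Set.toFinite _)

theorem asm_cond (hcyc : S_cyc.{u}) (hsub : S_sub.{u}) (hpig : S_pig.{u})
    (G : Type u) [Group G]
    (h : ∀ n : ℕ, (∃ a : G, ∀ k : ℕ, 0 < k → k ≤ n → NonFC (a ^ k)) ∨
      ∃ H : Subgroup G, Finite H ∧ n ≤ Nat.card H ∧ ∀ x ∈ H, x ≠ 1 → NonFC x) :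
    Infinite G ∧ ∃ N : ℕ, 1 ≤ N ∧ CondF G N := by
  rcases hpig G h with h1 | ⟨l, hl, h2⟩
  · obtain ⟨a, ha⟩ := h1 1
    exact ⟨(ha 1 one_pos le_rfl).infinite, 2, by norm_num, hcyc G h1⟩
  · refine ⟨?_, l, hl.one_lt.le, hsub G l hl h2⟩
    obtain ⟨P, k, hk, hP, hx⟩ := h2 1
    have h1 : 1 < Nat.card P := by
      rw [hP]
      exact Nat.one_lt_pow (by omega) hl.one_lt
    have : Finite P := Nat.finite_of_card_ne_zero (by omega)
    have : Nontrivial P := Finite.one_lt_card_iff_nontrivial.1 h1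
    obtain ⟨x, hx1⟩ := exists_ne (1 : P)
    exact (hx x x.2 (fun h => hx1 (Subtype.ext h))).infinite

theorem asm (hfin : S_fin.{u}) (hban : S_ban.{u}) (hdual : S_dual.{u})
    (hcyc : S_cyc.{u}) (hsub : S_sub.{u}) (hpig : S_pig.{u})
    (G : Type u) [Group G]
    (h : ∀ n : ℕ, (∃ a : G, ∀ k : ℕ, 0 < k → k ≤ n → NonFC (a ^ k)) ∨
      ∃ H : Subgroup G, Finite H ∧ n ≤ Nat.card H ∧ ∀ x ∈ H, x ≠ 1 → NonFC x)
    (p : ℝ) (hp : 1 < p) (hp2 : p ≠ 2) :
    ∃ f : G → ℂ, (∃ C : ℝ, ConvLe p C f) ∧ ¬ ∃ C : ℝ, ConvLe p C (cst f) := by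
  obtain ⟨hinf, N, hN, hc⟩ := asm_cond hcyc hsub hpig G h
  rcases lt_or_gt_of_ne hp2 with h2 | h2
  · exact hban p hp G fun R hR => hfin p hp h2 G N hN hc R hR
  · have hp0 : 0 < p := by linarith
    set q : ℝ := p / (p - 1) with hq
    have hp1 : 0 < p - 1 := by linarith
    have hq1 : 1 < q := by
      rw [hq, one_lt_div hp1]
      linarith
    have hq2 : q < 2 := by
      rw [hq, div_lt_iff₀ hp1]
      linarith
    have hpq : 1 / p + 1 / q = 1 := by
      rw [hq]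
      field_simp
      ring
    have hqp : 1 / q + 1 / p = 1 := by rw [add_comm]; exact hpq
    refine hban p hp G fun R hR => ?_
    obtain ⟨f, hf1, hf2⟩ := hfin q hq1 hq2 G N hN hc ((R ^ (1 / p)) ^ q) (by positivity)
    refine ⟨cstF f, ?_, ?_⟩
    · rw [cstF_coe]
      have := hdual q p hq1 hp hqp G f 1 zero_le_one (by rwa [Real.one_rpow])
      rwa [Real.one_rpow] at this
    · rw [cstF_coe, cst_cst]
      intro hR'
      apply hf2
      refine hdual p q hp hq1 hpq G f (R ^ (1 / p)) (by positivity) ?_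
      rw [← Real.rpow_mul hR, one_div_mul_cancel hp0.ne', Real.rpow_one]
      exact hR'

end Pool.Agent.PC
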