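import Pool.Agent.Lib.MP_830418_an.Flat.Defs

/-!
Basic facts on `FS`, `nrm` and the operators.
-/

open Finset

namespace Pool.Agent.PC

universe u

variable {G : Type u} [Group G] {N : ℕ}

theorem FS.of_subset {φ : Vec G N} {s : Set G} (hs : s.Finite) (h : ∀ x, x ∉ s → φ x = 0) :
    FS φ := by
  refine hs.subset fun x hx => ?_
  by_contra hxs
  exact hx (h x hxs)

theorem fs_zero : FS (0 : Vec G N) := by
  unfold FS
  simp

theorem FS.add {φ ψ : Vec G N} (hφ : FS φ) (hψ : FS ψ) : FS (φ + ψ) :=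
  FS.of_subset (hφ.union hψ) fun x hx => by
    simp only [Set.mem_union, Function.mem_support, not_or, not_not] at hx
    simp [hx.1, hx.2]

theorem FS.smul {φ : Vec G N} (a : ℂ) (hφ : FS φ) : FS (a • φ) :=
  FS.of_subset hφ fun x hx => by
    simp only [Function.mem_support, not_not] at hx
    simp [hx]

/-- the preimage of a finite set under left multiplication is finite -/
theorem finite_preimage_mul (g : G) {s : Set G} (hs : s.Finite) : {x | g * x ∈ s}.Finite :=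
  hs.preimage (fun _ _ _ _ h => mul_left_cancel h)

@[simp] theorem tr_apply (g : G) (φ : Vec G N) (x : G) : tr g φ x = φ (g⁻¹ * x) := rfl

theorem Rop_apply (u : Fin N → Fin N → ℂ) (c : Fin N → G) (φ : Vec G N) (x : G) (j : Fin N) :
    Rop u c φ x j = (((Real.sqrt N : ℝ) : ℂ))⁻¹ * ∑ i, u i j * φ ((c i)⁻¹ * x) i := rfl

theorem Rad_apply (u : Fin N → Fin N → ℂ) (c : Fin N → G) (ψ : Vec G N) (x : G) (i : Fin N) :
    Rad u c ψ x i =
      (((Real.sqrt N : ℝ) : ℂ))⁻¹ * ∑ j, starRingEnd ℂ (u i j) * ψ (c i * x) j := rfl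

theorem Dop_apply (W : Finset G) (φ : Vec G N) (x : G) (j : Fin N) :
    Dop W φ x j = ∑ w ∈ W, φ (w * x) j := rfl

theorem Dad_apply (W : Finset G) (φ : Vec G N) (x : G) (j : Fin N) :
    Dad W φ x j = ∑ w ∈ W, φ (w⁻¹ * x) j := rfl

@[simp] theorem Vop_zero (u : Fin N → Fin N → ℂ) (c : ℕ → Fin N → G) (φ : Vec G N) :
    Vop u c 0 φ = φ := rfl

theorem Vop_succ (u : Fin N → Fin N → ℂ) (c : ℕ → Fin N → G) (m : ℕ) (φ : Vec G N) :
    Vop u c (m + 1) φ = Vop u c m (Rop u (c m) φ) := rfl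

@[simp] theorem Vad_zero (u : Fin N → Fin N → ℂ) (c : ℕ → Fin N → G) (φ : Vec G N) :
    Vad u c 0 φ = φ := rfl

theorem Vad_succ (u : Fin N → Fin N → ℂ) (c : ℕ → Fin N → G) (m : ℕ) (φ : Vec G N) :
    Vad u c (m + 1) φ = Rad u (c m) (Vad u c m φ) := rfl

theorem Fop_nil (V D : Vec G N →ₗ[ℂ] Vec G N) (lam : ℝ) (φ : Vec G N) :
    Fop V D lam [] φ = 0 := rfl

theorem Fop_cons (V D : Vec G N →ₗ[ℂ] Vec G N) (lam : ℝ) (b : G) (bs : List G) (φ : Vec G N) :
    Fop V D lam (b :: bs) φ =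
      D (tr b φ) + Fop V D lam bs (((lam : ℂ))⁻¹ • V (tr b φ)) := rfl

theorem Fad_nil (V D : Vec G N →ₗ[ℂ] Vec G N) (lam : ℝ) (φ : Vec G N) :
    Fad V D lam [] φ = 0 := rfl

theorem Fad_cons (V D : Vec G N →ₗ[ℂ] Vec G N) (lam : ℝ) (b : G) (bs : List G) (φ : Vec G N) :
    Fad V D lam (b :: bs) φ =
      tr b⁻¹ (D φ + ((lam : ℂ))⁻¹ • V (Fad V D lam bs φ)) := rfl

theorem FS.tr {φ : Vec G N} (hφ : FS φ) (g : G) : FS (tr g φ) :=
  FS.of_subset (finite_preimage_mul g⁻¹ hφ) fun x hx => by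
    simp only [Set.mem_setOf_eq, Function.mem_support, not_not] at hx
    simp [hx]

theorem FS.Rop {φ : Vec G N} (hφ : FS φ) (u : Fin N → Fin N → ℂ) (c : Fin N → G) :
    FS (Rop u c φ) := by
  refine FS.of_subset (Set.finite_iUnion fun i : Fin N => finite_preimage_mul (c i)⁻¹ hφ)
    fun x hx => ?_
  simp only [Set.mem_iUnion, Set.mem_setOf_eq, Function.mem_support, not_exists, not_not] at hx
  funext j
  simp [Rop_apply, hx]

theorem FS.Rad {φ : Vec G N} (hφ : FS φ) (u : Fin N → Fin N → ℂ) (c : Fin N → G) :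
    FS (Rad u c φ) := by
  refine FS.of_subset (Set.finite_iUnion fun i : Fin N => finite_preimage_mul (c i) hφ)
    fun x hx => ?_
  simp only [Set.mem_iUnion, Set.mem_setOf_eq, Function.mem_support, not_exists, not_not] at hx
  funext j
  simp [Rad_apply, hx]

theorem FS.Vop {φ : Vec G N} (hφ : FS φ) (u : Fin N → Fin N → ℂ) (c : ℕ → Fin N → G) (m : ℕ) :
    FS (Vop u c m φ) := by
  induction m generalizing φ with
  | zero => exact hφ
  | succ m ih => exact ih (hφ.Rop u (c m))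

theorem FS.Vad {φ : Vec G N} (hφ : FS φ) (u : Fin N → Fin N → ℂ) (c : ℕ → Fin N → G) (m : ℕ) :
    FS (Vad u c m φ) := by
  induction m with
  | zero => exact hφ
  | succ m ih => exact ih.Rad u (c m)

theorem FS.Dop {φ : Vec G N} (hφ : FS φ) (W : Finset G) : FS (Dop W φ) := by
  refine FS.of_subset (s := ⋃ w ∈ W, {x | w * x ∈ Function.support φ})
    (W.finite_toSet.biUnion fun w _ => finite_preimage_mul w hφ) fun x hx => ?_
  simp only [Set.mem_iUnion, Set.mem_setOf_eq, Function.mem_support, not_exists, not_not] at hx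
  funext j
  rw [Dop_apply]
  exact Finset.sum_eq_zero fun w hw => by rw [hx w hw]; rfl

theorem FS.Dad {φ : Vec G N} (hφ : FS φ) (W : Finset G) : FS (Dad W φ) := by
  refine FS.of_subset (s := ⋃ w ∈ W, {x | w⁻¹ * x ∈ Function.support φ})
    (W.finite_toSet.biUnion fun w _ => finite_preimage_mul w⁻¹ hφ) fun x hx => ?_
  simp only [Set.mem_iUnion, Set.mem_setOf_eq, Function.mem_support, not_exists, not_not] at hx
  funext j
  rw [Dad_apply]
  exact Finset.sum_eq_zero fun w hw => by rw [hx w hw]; rfl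

/-! ### the norm -/

theorem nrm_term_zero {p : ℝ} (hp : 0 < p) {φ : Vec G N} {x : G} (h : φ x = 0) :
    ∑ i, ‖φ x i‖ ^ p = 0 := by
  simp [h, hp.ne']

theorem nrm_summable {p : ℝ} (hp : 0 < p) {φ : Vec G N} (hφ : FS φ) :
    Summable fun x => ∑ i, ‖φ x i‖ ^ p := by
  refine summable_of_finite_support (hφ.subset fun x hx => ?_)
  intro h
  exact hx (nrm_term_zero hp h)

theorem nrm_nonneg (p : ℝ) (φ : Vec G N) : 0 ≤ nrm p φ :=
  tsum_nonneg fun _ => Finset.sum_nonneg fun _ _ => Real.rpow_nonneg (norm_nonneg _) _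

theorem nrm_eq_sum {p : ℝ} (hp : 0 < p) {φ : Vec G N} {s : Finset G} (h : ∀ x, x ∉ s → φ x = 0) :
    nrm p φ = ∑ x ∈ s, ∑ i, ‖φ x i‖ ^ p :=
  tsum_eq_sum fun x hx => nrm_term_zero hp (h x hx)

theorem nrm_tr (p : ℝ) (g : G) (φ : Vec G N) : nrm p (tr g φ) = nrm p φ := by
  unfold nrm
  exact (Equiv.mulLeft g⁻¹).tsum_eq fun x => ∑ i, ‖φ x i‖ ^ p

theorem nrm_smul (p : ℝ) (a : ℂ) (φ : Vec G N) : nrm p (a • φ) = ‖a‖ ^ p * nrm p φ := by
  unfold nrm
  rw [← tsum_mul_left]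
  refine tsum_congr fun x => ?_
  rw [Finset.mul_sum]
  refine Finset.sum_congr rfl fun i _ => ?_
  rw [Pi.smul_apply, Pi.smul_apply, smul_eq_mul, norm_mul,
    Real.mul_rpow (norm_nonneg _) (norm_nonneg _)]

theorem nrm_zero {p : ℝ} (hp : 0 < p) : nrm p (0 : Vec G N) = 0 := by
  rw [nrm_eq_sum hp (s := ∅) (by simp)]
  simp

/-- monotonicity in the absolute values, both sides finitely supported -/
theorem nrm_mono {p : ℝ} (hp : 0 < p) {φ ψ : Vec G N} (hψ : FS ψ)
    (h : ∀ x i, ‖φ x i‖ ≤ ‖ψ x i‖) : nrm p φ ≤ nrm p ψ := by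
  have hφ : FS φ := hψ.subset fun x hx hψx => hx (by
    funext i
    have := h x i
    rw [hψx] at this
    simpa using this)
  exact Summable.tsum_le_tsum (fun x => Finset.sum_le_sum fun i _ =>
    Real.rpow_le_rpow (norm_nonneg _) (h x i) hp.le) (nrm_summable hp hφ) (nrm_summable hp hψ)

end Pool.Agent.PC
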