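import Mathlib

/-!
Problem MP_830418_an (involution on p-convolvers), theorem on groups with elements of unbounded
order or finite subgroups of unbounded order modulo the FC-centre.  Definitions.

Vectors are functions `G → Fin N → ℂ`; all sums are `tsum`s over `G` of finitely supported
functions.
-/

open Finset

namespace Pool.Agent.PC

universe u

/-- vectors -/
abbrev Vec (G : Type u) (N : ℕ) : Type u := G → Fin N → ℂ

section defs

variable {G : Type u} [Group G] {N : ℕ}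

/-- finite support -/
def FS (φ : Vec G N) : Prop := (Function.support φ).Finite

/-- `p`-th power of the `ℓ^p` norm -/
noncomputable def nrm (p : ℝ) (φ : Vec G N) : ℝ := ∑' x, ∑ i, ‖φ x i‖ ^ p

/-- at every point at most one component is not zero -/
def SC (φ : Vec G N) : Prop := ∀ x i j, i ≠ j → φ x i = 0 ∨ φ x j = 0

/-- left translation: `(tr g φ) x = φ (g⁻¹ x)` -/
def tr (g : G) : Vec G N →ₗ[ℂ] Vec G N where
  toFun φ := fun x => φ (g⁻¹ * x)
  map_add' _ _ := rfl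
  map_smul' _ _ := rfl

/-- one Rudin-Shapiro step: `(R φ)_j = N^{-1/2} ∑_i u_ij c_i φ_i` -/
noncomputable def Rop (u : Fin N → Fin N → ℂ) (c : Fin N → G) : Vec G N →ₗ[ℂ] Vec G N where
  toFun φ := fun x j => (((Real.sqrt N : ℝ) : ℂ))⁻¹ * ∑ i, u i j * φ ((c i)⁻¹ * x) i
  map_add' φ ψ := by
    funext x j
    simp only [Pi.add_apply, mul_add, Finset.sum_add_distrib]
  map_smul' a φ := by
    funext x j
    simp only [Pi.smul_apply, smul_eq_mul, RingHom.id_apply, Finset.mul_sum]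
    refine Finset.sum_congr rfl fun i _ => ?_
    ring

/-- the adjoint of `Rop` -/
noncomputable def Rad (u : Fin N → Fin N → ℂ) (c : Fin N → G) : Vec G N →ₗ[ℂ] Vec G N where
  toFun ψ := fun x i => (((Real.sqrt N : ℝ) : ℂ))⁻¹ * ∑ j, starRingEnd ℂ (u i j) * ψ (c i * x) j
  map_add' φ ψ := by
    funext x j
    simp only [Pi.add_apply, mul_add, Finset.sum_add_distrib]
  map_smul' a φ := by
    funext x j
    simp only [Pi.smul_apply, smul_eq_mul, RingHom.id_apply, Finset.mul_sum]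
    refine Finset.sum_congr rfl fun i _ => ?_
    ring

/-- `V_0 = 1`, `V_{m+1} = V_m ∘ R_m` -/
noncomputable def Vop (u : Fin N → Fin N → ℂ) (c : ℕ → Fin N → G) : ℕ → (Vec G N →ₗ[ℂ] Vec G N)
  | 0 => LinearMap.id
  | m + 1 => (Vop u c m).comp (Rop u (c m))

/-- the adjoint of `Vop`: `V_0^* = 1`, `V_{m+1}^* = R_m^* ∘ V_m^*` -/
noncomputable def Vad (u : Fin N → Fin N → ℂ) (c : ℕ → Fin N → G) : ℕ → (Vec G N →ₗ[ℂ] Vec G N)
  | 0 => LinearMap.id
  | m + 1 => (Rad u (c m)).comp (Vad u c m)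

/-- `D φ (x) = ∑_{w ∈ W} φ (w x)` -/
def Dop (W : Finset G) : Vec G N →ₗ[ℂ] Vec G N where
  toFun φ := fun x j => ∑ w ∈ W, φ (w * x) j
  map_add' φ ψ := by
    funext x j
    simp only [Pi.add_apply, Finset.sum_add_distrib]
  map_smul' a φ := by
    funext x j
    simp only [Pi.smul_apply, smul_eq_mul, RingHom.id_apply, Finset.mul_sum]

/-- the adjoint of `Dop`: `D^* φ (x) = ∑_{w ∈ W} φ (w⁻¹ x)` -/
def Dad (W : Finset G) : Vec G N →ₗ[ℂ] Vec G N where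
  toFun φ := fun x j => ∑ w ∈ W, φ (w⁻¹ * x) j
  map_add' φ ψ := by
    funext x j
    simp only [Pi.add_apply, Finset.sum_add_distrib]
  map_smul' a φ := by
    funext x j
    simp only [Pi.smul_apply, smul_eq_mul, RingHom.id_apply, Finset.mul_sum]

/-- the chain `F [] = 0`, `F (b :: bs) = D b + F bs (lam⁻¹ V b)` -/
noncomputable def Fop (V D : Vec G N →ₗ[ℂ] Vec G N) (lam : ℝ) : List G → (Vec G N →ₗ[ℂ] Vec G N)
  | [] => 0
  | b :: bs => D.comp (tr b) + (Fop V D lam bs).comp (((lam : ℂ))⁻¹ • (V.comp (tr b)))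

/-- the adjoint chain -/
noncomputable def Fad (V D : Vec G N →ₗ[ℂ] Vec G N) (lam : ℝ) : List G → (Vec G N →ₗ[ℂ] Vec G N)
  | [] => 0
  | b :: bs => (tr b⁻¹).comp (D + ((lam : ℂ))⁻¹ • (V.comp (Fad V D lam bs)))

/-- complex Hadamard matrix -/
def Had (u : Fin N → Fin N → ℂ) : Prop :=
  (∀ i j, ‖u i j‖ = 1) ∧ ∀ i i', ∑ j, u i j * starRingEnd ℂ (u i' j) = if i = i' then (N : ℂ) else 0

/-- the products `c_{0,t 0} c_{1,t 1} ... c_{m-1,t (m-1)}` -/
def pr (c : ℕ → Fin N → G) : ℕ → (ℕ → Fin N) → G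
  | 0, _ => 1
  | m + 1, t => pr c m t * c m (t m)

/-- the window functional `S = (1/|W|) ∑_x ∑_i (∑_{w ∈ W} ‖φ (w x) i‖^{2p})^{1/2}` -/
noncomputable def win (W : Finset G) (p : ℝ) (φ : Vec G N) : ℝ :=
  ((W.card : ℝ))⁻¹ * ∑' x, ∑ i, Real.sqrt (∑ w ∈ W, (‖φ (w * x) i‖ ^ p) ^ 2)

/-- `x` has infinitely many conjugates -/
def NonFC (x : G) : Prop := (Set.range fun g : G => g * x * g⁻¹).Infinite

/-- `T` and `Ts` are given by a matrix of finitely supported functions and its adjoint -/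
def Rep (T Ts : Vec G N →ₗ[ℂ] Vec G N) : Prop :=
  ∃ f : Fin N → Fin N → (G →₀ ℂ),
    (∀ φ x i, T φ x i = ∑ j, (f i j).sum fun g a => a * φ (g⁻¹ * x) j) ∧
    (∀ ψ x j, Ts ψ x j = ∑ i, (f i j).sum fun g a => starRingEnd ℂ a * ψ (g * x) i)

/-- the flat datum -/
structure Flat (c : ℕ → Fin N → G) (m : ℕ) (W E X : Finset G) (δ : ℝ) : Prop where
  card : ∀ i, ∃ S : Finset G, (S.card : ℝ) ≤ (1 + δ) * (N : ℝ) ^ m ∧
    ∀ t : ℕ → Fin N, ∀ w ∈ W, pr c m t * c m i * w ∈ S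
  gen : ∀ t s : ℕ → Fin N, (∃ k < m + 1, t k ≠ s k) → NonFC (pr c (m + 1) t * (pr c (m + 1) s)⁻¹)
  hW : W.Nonempty
  hX : ∀ x ∈ X, ∀ w ∈ W, w⁻¹ * x ∈ E
  hE : E.card ≤ 2 * X.card
  hEn : E.Nonempty

/-- there are flat data with `|W|` arbitrarily large and `δ` arbitrarily small -/
def CondF (G : Type u) [Group G] (N : ℕ) : Prop :=
  ∀ (L₀ : ℕ) (δ : ℝ), 0 < δ → ∃ (m : ℕ) (c : ℕ → Fin N → G) (W E X : Finset G),
    L₀ ≤ W.card ∧ Flat c m W E X δ

/-- left convolution by `f` is bounded by `C` (for `p`-th powers), exactly as in S05239 -/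
def ConvLe (p C : ℝ) (f : G → ℂ) : Prop :=
  ∀ ξ : G →₀ ℂ,
    Summable (fun g : G => ‖∑ k ∈ ξ.support, f (g * k⁻¹) * ξ k‖ ^ p) ∧
    ∑' g : G, ‖∑ k ∈ ξ.support, f (g * k⁻¹) * ξ k‖ ^ p ≤ C * ∑ k ∈ ξ.support, ‖ξ k‖ ^ p

/-- `f^*`, i.e. `f^* x = conj (f x⁻¹)` -/
noncomputable def cst (f : G → ℂ) : G → ℂ := fun x => starRingEnd ℂ (f x⁻¹)

end defs

end Pool.Agent.PC
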