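import Pool.Agent.Lib.MP_830418_an.Flat.Stm
open Finset
universe u
namespace Pool.Agent.PC

private lemma two_pow (p : ℝ) (hp : 1 ≤ p) (x y : ℝ) (hx : 0 ≤ x) (hy : 0 ≤ y) :
    (x + y) ^ p ≤ 2 ^ (p - 1) * (x ^ p + y ^ p) := by
  have h := Real.rpow_sum_le_const_mul_sum_rpow_of_nonneg (s := (Finset.univ : Finset (Fin 2)))
    (f := ![x, y]) hp (by
      intro i _
      fin_cases i
      · exact hx
      · exact hy)
  simpa [Fin.sum_univ_two] using h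

theorem p_Dw : S_Dw.{u} := by
  intro p hp1 hp2 ι s hs a ha
  classical
  obtain ⟨w0, hw0, hmax⟩ := s.exists_max_image a hs
  have hp0 : 0 < p := by linarith
  have hM : 0 ≤ a w0 := ha w0 hw0
  have hpow : ∀ w ∈ s, ((a w) ^ (1 / p)) ^ p = a w := by
    intro w hw
    rw [← Real.rpow_mul (ha w hw), one_div, inv_mul_cancel₀ hp0.ne', Real.rpow_one]
  have hsplit : ∑ w ∈ s, (a w) ^ (1 / p)
      = (a w0) ^ (1 / p) + ∑ w ∈ s.erase w0, (a w) ^ (1 / p) :=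
    (Finset.add_sum_erase s (fun w => (a w) ^ (1 / p)) hw0).symm
  have hsplit2 : ∑ w ∈ s, a w = a w0 + ∑ w ∈ s.erase w0, a w :=
    (Finset.add_sum_erase s a hw0).symm
  have hx : 0 ≤ (a w0) ^ (1 / p) := Real.rpow_nonneg hM _
  have hy : 0 ≤ ∑ w ∈ s.erase w0, (a w) ^ (1 / p) :=
    Finset.sum_nonneg fun w hw => Real.rpow_nonneg (ha w (Finset.mem_of_mem_erase hw)) _
  have hB : 0 ≤ ∑ w ∈ s.erase w0, a w :=
    Finset.sum_nonneg fun w hw => ha w (Finset.mem_of_mem_erase hw)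
  have hA : 0 ≤ ∑ w ∈ s, a w := Finset.sum_nonneg ha
  have h1 := two_pow p hp1.le _ _ hx hy
  have hcard : (((s.erase w0).card : ℝ)) ^ (p - 1) ≤ (s.card : ℝ) ^ (p - 1) := by
    apply Real.rpow_le_rpow (Nat.cast_nonneg _) _ (by linarith)
    exact_mod_cast Finset.card_le_card (Finset.erase_subset _ _)
  have h2 : (∑ w ∈ s.erase w0, (a w) ^ (1 / p)) ^ p
      ≤ (s.card : ℝ) ^ (p - 1) * ∑ w ∈ s.erase w0, a w := by
    have h := Real.rpow_sum_le_const_mul_sum_rpow_of_nonneg (s := s.erase w0)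
      (f := fun w => (a w) ^ (1 / p)) hp1.le
      (fun w hw => Real.rpow_nonneg (ha w (Finset.mem_of_mem_erase hw)) _)
    have h' : ∑ w ∈ s.erase w0, ((a w) ^ (1 / p)) ^ p = ∑ w ∈ s.erase w0, a w :=
      Finset.sum_congr rfl fun w hw => hpow w (Finset.mem_of_mem_erase hw)
    rw [h'] at h
    exact h.trans (mul_le_mul_of_nonneg_right hcard hB)
  have hsq : ∑ w ∈ s, (a w) ^ 2 ≤ a w0 * ∑ w ∈ s, a w := by
    rw [Finset.mul_sum]
    refine Finset.sum_le_sum fun w hw => ?_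
    rw [sq]
    exact mul_le_mul_of_nonneg_right (hmax w hw) (ha w hw)
  have hR : Real.sqrt (∑ w ∈ s, (a w) ^ 2) ≤ (a w0 + ∑ w ∈ s, a w) / 2 := by
    apply Real.sqrt_le_iff.mpr
    refine ⟨by positivity, hsq.trans ?_⟩
    nlinarith [sq_nonneg (a w0 - ∑ w ∈ s, a w)]
  have hL : 0 ≤ (s.card : ℝ) ^ (p - 1) := Real.rpow_nonneg (Nat.cast_nonneg _) _
  have h3 : ∑ w ∈ s.erase w0, a w
      ≤ 2 * (∑ w ∈ s, a w - Real.sqrt (∑ w ∈ s, (a w) ^ 2)) := by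
    linarith
  have h4 : (s.card : ℝ) ^ (p - 1) * ∑ w ∈ s.erase w0, a w
      ≤ (s.card : ℝ) ^ (p - 1) * (2 * (∑ w ∈ s, a w - Real.sqrt (∑ w ∈ s, (a w) ^ 2))) :=
    mul_le_mul_of_nonneg_left h3 hL
  have h5 : a w0 ≤ ∑ w ∈ s, a w := by linarith
  have h6 : (0 : ℝ) ≤ 2 ^ (p - 1) := Real.rpow_nonneg (by norm_num) _
  rw [hsplit]
  refine h1.trans (mul_le_mul_of_nonneg_left ?_ h6)
  rw [hpow w0 hw0]
  calc a w0 + (∑ w ∈ s.erase w0, (a w) ^ (1 / p)) ^ p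
      ≤ ∑ w ∈ s, a w + (s.card : ℝ) ^ (p - 1) *
        (2 * (∑ w ∈ s, a w - Real.sqrt (∑ w ∈ s, (a w) ^ 2))) := by linarith
    _ = _ := by ring

end Pool.Agent.PC
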