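import Pool.Agent.Lib.MP_830418_an.Flat.Stm

open Finset

universe u

namespace Pool.Agent.PC

variable {G : Type u} [Group G] {N : ℕ}

private theorem nrm1_add {φ ψ : Vec G N} (hφ : FS φ) (hψ : FS ψ) :
    nrm 1 (φ + ψ) ≤ nrm 1 φ + nrm 1 ψ := by
  unfold nrm
  rw [← (nrm_summable one_pos hφ).tsum_add (nrm_summable one_pos hψ)]
  refine Summable.tsum_le_tsum (fun x => ?_) (nrm_summable one_pos (hφ.add hψ))
    ((nrm_summable one_pos hφ).add (nrm_summable one_pos hψ))
  rw [← Finset.sum_add_distrib]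
  refine Finset.sum_le_sum fun i _ => ?_
  simp only [Real.rpow_one, Pi.add_apply]
  exact norm_add_le _ _

private theorem fs_sum {κ : Type*} (t : Finset κ) (f : κ → Vec G N) (h : ∀ k ∈ t, FS (f k)) :
    FS (∑ k ∈ t, f k) := by
  classical
  induction t using Finset.induction_on with
  | empty => simpa using fs_zero
  | insert a t ha ih =>
    rw [Finset.sum_insert ha]
    exact (h a (Finset.mem_insert_self a t)).add
      (ih fun k hk => h k (Finset.mem_insert_of_mem hk))

private theorem nrm1_sum {κ : Type*} (t : Finset κ) (f : κ → Vec G N) (h : ∀ k ∈ t, FS (f k)) :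
    nrm 1 (∑ k ∈ t, f k) ≤ ∑ k ∈ t, nrm 1 (f k) := by
  classical
  induction t using Finset.induction_on with
  | empty => simp [nrm_zero one_pos]
  | insert a t ha ih =>
    rw [Finset.sum_insert ha, Finset.sum_insert ha]
    have h1 := ih fun k hk => h k (Finset.mem_insert_of_mem hk)
    have h2 := nrm1_add (h a (Finset.mem_insert_self a t))
      (fs_sum t f fun k hk => h k (Finset.mem_insert_of_mem hk))
    linarith

open Classical in
/-- `α` cut to the component `i` and to `W z` -/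
private noncomputable def cut (W : Finset G) (α : Vec G N) (z : G) (i : Fin N) : Vec G N :=
  fun x j => if j = i ∧ ∃ w ∈ W, x = w * z then α x j else 0

private theorem cut_fs (W : Finset G) {α : Vec G N} (hα : FS α) (z : G) (i : Fin N) :
    FS (cut W α z i) := by
  refine FS.of_subset hα fun x hx => ?_
  simp only [Function.mem_support, not_not] at hx
  funext j
  simp only [cut, Pi.zero_apply, hx]
  split_ifs <;> rfl

private theorem cut_sum (W : Finset G) {α : Vec G N} (s Z : Finset G)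
    (hs : ∀ x, x ∉ s → α x = 0) (hZ : ∀ x ∈ s, ∀ w ∈ W, w⁻¹ * x ∈ Z) :
    ∑ z ∈ Z, ∑ i, cut W α z i = (W.card : ℂ) • α := by
  classical
  funext x j
  have e1 : (∑ z ∈ Z, ∑ i, cut W α z i) x j = ∑ z ∈ Z, ∑ i, cut W α z i x j := by
    simp [Finset.sum_apply]
  rw [e1]
  have e2 : ∀ z, ∑ i, cut W α z i x j = if ∃ w ∈ W, x = w * z then α x j else 0 := by
    intro z
    rw [Finset.sum_eq_single j]
    · simp [cut]
    · intro i _ hi
      simp only [cut]
      rw [if_neg]
      rintro ⟨h, -⟩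
      exact hi h.symm
    · intro h
      exact absurd (Finset.mem_univ j) h
  simp only [e2, Pi.smul_apply, smul_eq_mul]
  rw [← Finset.sum_filter, Finset.sum_const, nsmul_eq_mul]
  by_cases hx : α x j = 0
  · simp [hx]
  · have hxs : x ∈ s := by
      by_contra hxs
      exact hx (by rw [hs x hxs]; rfl)
    have hf : Z.filter (fun z => ∃ w ∈ W, x = w * z) = W.image (fun w => w⁻¹ * x) := by
      ext z
      simp only [Finset.mem_filter, Finset.mem_image]
      constructor
      · rintro ⟨-, w, hw, rfl⟩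
        exact ⟨w, hw, by group⟩
      · rintro ⟨w, hw, rfl⟩
        exact ⟨hZ x hxs w hw, w, hw, by group⟩
    rw [hf, Finset.card_image_of_injective]
    intro a b hab
    have : a⁻¹ = b⁻¹ := mul_right_cancel hab
    exact inv_injective this

theorem p_L1 (h1 : S_L1w.{u}) : S_L1.{u} := by
  classical
  intro G _ N u hu c m W E X δ hδ hF α hα
  set V := Vop u c (m + 1) with hV
  set C := Real.sqrt ((1 + δ) * (N : ℝ) ^ (m + 1)) with hC
  set s : Finset G := hα.toFinset with hs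
  set Z : Finset G := (W ×ˢ s).image (fun q => q.1⁻¹ * q.2) with hZ
  have hs0 : ∀ x, x ∉ s → α x = 0 := by
    intro x hx
    by_contra h
    exact hx (hα.mem_toFinset.2 h)
  have hZ0 : ∀ x ∈ s, ∀ w ∈ W, w⁻¹ * x ∈ Z := by
    intro x hx w hw
    rw [hZ, Finset.mem_image]
    exact ⟨(w, x), Finset.mem_product.2 ⟨hw, hx⟩, rfl⟩
  have hW : (0 : ℝ) < (W.card : ℝ) := by
    exact_mod_cast Finset.card_pos.2 hF.hW
  -- the sum of the square roots
  have hout : ∀ z, z ∉ Z → ∀ w ∈ W, α (w * z) = 0 := by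
    intro z hz w hw
    refine hs0 _ fun h => hz ?_
    have := hZ0 _ h w hw
    simpa using this
  have hwin : win W 1 α =
      ((W.card : ℝ))⁻¹ * ∑ z ∈ Z, ∑ i, Real.sqrt (∑ w ∈ W, ‖α (w * z) i‖ ^ 2) := by
    unfold win
    congr 1
    simp only [Real.rpow_one]
    refine tsum_eq_sum fun z hz => ?_
    refine Finset.sum_eq_zero fun i _ => ?_
    rw [Finset.sum_eq_zero, Real.sqrt_zero]
    intro w hw
    rw [hout z hz w hw]
    simp
  have hterm : ∀ z i, nrm 1 (V (cut W α z i)) ≤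
      C * Real.sqrt (∑ w ∈ W, ‖α (w * z) i‖ ^ 2) := by
    intro z i
    have h := h1 G N u hu c m W E X δ hδ hF z i (cut W α z i) (by
      intro x j hx
      simp only [cut] at hx
      by_contra hh
      rw [if_neg hh] at hx
      exact hx rfl)
    refine h.trans (le_of_eq ?_)
    congr 2
    refine Finset.sum_congr rfl fun w hw => ?_
    have : cut W α z i (w * z) i = α (w * z) i := by
      unfold cut
      rw [if_pos ⟨rfl, w, hw, rfl⟩]
    rw [this]
  have hsum : (W.card : ℝ) * nrm 1 (V α) ≤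
      C * ∑ z ∈ Z, ∑ i, Real.sqrt (∑ w ∈ W, ‖α (w * z) i‖ ^ 2) := by
    have e : (W.card : ℝ) * nrm 1 (V α) = nrm 1 (∑ z ∈ Z, ∑ i, V (cut W α z i)) := by
      have e1 : ∑ z ∈ Z, ∑ i, V (cut W α z i) = (W.card : ℂ) • V α := by
        rw [← map_smul, ← cut_sum W s Z hs0 hZ0, map_sum]
        refine Finset.sum_congr rfl fun z _ => ?_
        rw [map_sum]
      rw [e1, nrm_smul]
      simp
    rw [e]
    have hfs : ∀ z i, FS (V (cut W α z i)) := fun z i => (cut_fs W hα z i).Vop u c (m + 1)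
    calc nrm 1 (∑ z ∈ Z, ∑ i, V (cut W α z i))
        ≤ ∑ z ∈ Z, nrm 1 (∑ i, V (cut W α z i)) :=
          nrm1_sum Z _ fun z _ => fs_sum _ _ fun i _ => hfs z i
      _ ≤ ∑ z ∈ Z, ∑ i, nrm 1 (V (cut W α z i)) :=
          Finset.sum_le_sum fun z _ => nrm1_sum _ _ fun i _ => hfs z i
      _ ≤ ∑ z ∈ Z, ∑ i, C * Real.sqrt (∑ w ∈ W, ‖α (w * z) i‖ ^ 2) :=
          Finset.sum_le_sum fun z _ => Finset.sum_le_sum fun i _ => hterm z i
      _ = C * ∑ z ∈ Z, ∑ i, Real.sqrt (∑ w ∈ W, ‖α (w * z) i‖ ^ 2) := by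
          simp only [Finset.mul_sum]
  rw [hwin]
  have : nrm 1 (V α) = (W.card : ℝ)⁻¹ * ((W.card : ℝ) * nrm 1 (V α)) := by
    rw [← mul_assoc, inv_mul_cancel₀ hW.ne', one_mul]
  rw [this]
  calc (W.card : ℝ)⁻¹ * ((W.card : ℝ) * nrm 1 (V α))
      ≤ (W.card : ℝ)⁻¹ * (C * ∑ z ∈ Z, ∑ i, Real.sqrt (∑ w ∈ W, ‖α (w * z) i‖ ^ 2)) :=
        mul_le_mul_of_nonneg_left hsum (inv_nonneg.2 hW.le)
    _ = C * ((W.card : ℝ)⁻¹ * ∑ z ∈ Z, ∑ i, Real.sqrt (∑ w ∈ W, ‖α (w * z) i‖ ^ 2)) := by
        ring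

end Pool.Agent.PC
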