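import Pool.Agent.Lib.MP_830418_an.Flat.Stm

/-!
The `ℓ^1` bound on one window.
-/

open Finset

universe u

namespace Pool.Agent.PC

theorem p_L1w (h1 : S_V2.{u}) (h2 : S_Vsupp.{u}) : S_L1w.{u} := by
  intro G _ N u hu c m W E X δ hδ hF z i φ hφ
  classical
  have hFS : FS φ := by
    refine FS.of_subset (s := ((W.image fun w => w * z : Finset G) : Set G))
      (Finset.finite_toSet _) fun x hx => ?_
    funext j
    by_contra hne
    obtain ⟨_, w, hw, hxw⟩ := hφ x j hne
    exact hx (by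
      rw [Finset.mem_coe, Finset.mem_image]
      exact ⟨w, hw, hxw.symm⟩)
  obtain ⟨S, hS, hmem⟩ := hF.card i
  set V : Vec G N := Vop u c (m + 1) φ with hV
  have hQ : ∀ x, x ∉ S.image (fun s => s * z) → V x = 0 := by
    intro x hx
    by_contra hne
    obtain ⟨t, ht⟩ := h2 G N u c m φ x hne
    obtain ⟨hti, w, hw, hxw⟩ := hφ _ _ ht
    apply hx
    rw [Finset.mem_image]
    refine ⟨pr c m t * c m i * w, hmem t w hw, ?_⟩
    have hx' : x = pr c (m + 1) t * (w * z) := by
      rw [← hxw]; group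
    rw [hx', show pr c (m + 1) t = pr c m t * c m (t m) from rfl, hti]
    group
  have hP : ∀ x, x ∉ W.image (fun w => w * z) → φ x = 0 := by
    intro x hx
    funext j
    by_contra hne
    obtain ⟨_, w, hw, hxw⟩ := hφ x j hne
    exact hx (Finset.mem_image.2 ⟨w, hw, hxw.symm⟩)
  have hn2 : nrm 2 V = ∑ w ∈ W, ‖φ (w * z) i‖ ^ 2 := by
    rw [hV, h1 G N u hu c (m + 1) φ hFS, nrm_eq_sum (by norm_num) hP,
      Finset.sum_image (fun a _ b _ hab => mul_right_cancel hab)]
    refine Finset.sum_congr rfl fun w _ => ?_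
    rw [Finset.sum_eq_single i]
    · exact Real.rpow_natCast _ 2
    · intro j _ hj
      have h0 : φ (w * z) j = 0 := by
        by_contra hne
        exact hj (hφ _ _ hne).1
      rw [h0, norm_zero, Real.zero_rpow (by norm_num)]
    · intro hi
      exact absurd (Finset.mem_univ i) hi
  set Q : Finset G := S.image (fun s => s * z) with hQdef
  have hn1 : nrm 1 V = ∑ a ∈ Q ×ˢ (Finset.univ : Finset (Fin N)), ‖V a.1 a.2‖ := by
    rw [nrm_eq_sum (by norm_num) hQ, Finset.sum_product]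
    refine Finset.sum_congr rfl fun x _ => Finset.sum_congr rfl fun j _ => ?_
    exact Real.rpow_one _
  have hn2' : nrm 2 V = ∑ a ∈ Q ×ˢ (Finset.univ : Finset (Fin N)), ‖V a.1 a.2‖ ^ 2 := by
    rw [nrm_eq_sum (by norm_num) hQ, Finset.sum_product]
    refine Finset.sum_congr rfl fun x _ => Finset.sum_congr rfl fun j _ => ?_
    exact Real.rpow_natCast _ 2
  have hcs : nrm 1 V ^ 2 ≤ ((Q.card : ℝ) * N) * nrm 2 V := by
    have := sq_sum_le_card_mul_sum_sq (s := Q ×ˢ (Finset.univ : Finset (Fin N)))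
      (f := fun a => ‖V a.1 a.2‖)
    rw [← hn1, ← hn2', Finset.card_product, Finset.card_univ, Fintype.card_fin] at this
    push_cast at this
    exact this
  have hQc : (Q.card : ℝ) ≤ (1 + δ) * (N : ℝ) ^ m :=
    le_trans (by exact_mod_cast Finset.card_image_le) hS
  have hfin : nrm 1 V ^ 2 ≤ ((1 + δ) * (N : ℝ) ^ (m + 1)) * nrm 2 V := by
    refine hcs.trans (mul_le_mul_of_nonneg_right ?_ (nrm_nonneg _ _))
    calc (Q.card : ℝ) * N ≤ ((1 + δ) * (N : ℝ) ^ m) * N :=
          mul_le_mul_of_nonneg_right hQc (Nat.cast_nonneg _)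
      _ = (1 + δ) * (N : ℝ) ^ (m + 1) := by ring
  have hA : 0 ≤ (1 + δ) * (N : ℝ) ^ (m + 1) := by positivity
  rw [← Real.sqrt_mul hA, ← hn2]
  exact Real.le_sqrt_of_sq_le hfin

end Pool.Agent.PC
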