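import Pool.Agent.Lib.MP_830418_an.Flat.Stm
open Finset
universe u
namespace Pool.Agent.PC

private theorem v2_norm_sq (z : ℂ) : ((‖z‖ ^ 2 : ℝ) : ℂ) = z * starRingEnd ℂ z := by
  rw [Complex.mul_conj, Complex.normSq_eq_norm_sq]

private theorem v2_pars {N : ℕ} {u : Fin N → Fin N → ℂ} (hu : Had u) (v : Fin N → ℂ) :
    ∑ j, ‖∑ i, u i j * v i‖ ^ 2 = (N : ℝ) * ∑ i, ‖v i‖ ^ 2 := by
  have key : ((∑ j, ‖∑ i, u i j * v i‖ ^ 2 : ℝ) : ℂ) = (((N : ℝ) * ∑ i, ‖v i‖ ^ 2 : ℝ) : ℂ) := by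
    rw [Complex.ofReal_sum, Complex.ofReal_mul, Complex.ofReal_sum, Complex.ofReal_natCast]
    calc ∑ j, ((‖∑ i, u i j * v i‖ ^ 2 : ℝ) : ℂ)
        = ∑ j, ∑ i, ∑ i', (u i j * starRingEnd ℂ (u i' j)) * (v i * starRingEnd ℂ (v i')) := by
          refine Finset.sum_congr rfl fun j _ => ?_
          rw [v2_norm_sq, map_sum, Finset.sum_mul_sum]
          refine Finset.sum_congr rfl fun i _ => Finset.sum_congr rfl fun i' _ => ?_
          rw [map_mul]
          ring
      _ = ∑ i, ∑ i', (∑ j, u i j * starRingEnd ℂ (u i' j)) * (v i * starRingEnd ℂ (v i')) := by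
          rw [Finset.sum_comm]
          refine Finset.sum_congr rfl fun i _ => ?_
          rw [Finset.sum_comm]
          refine Finset.sum_congr rfl fun i' _ => ?_
          rw [Finset.sum_mul]
      _ = ∑ i, (N : ℂ) * (v i * starRingEnd ℂ (v i)) := by
          refine Finset.sum_congr rfl fun i _ => ?_
          simp_rw [hu.2 i]
          rw [Finset.sum_eq_single i]
          · simp
          · intro i' _ hi'
            rw [if_neg (Ne.symm hi'), zero_mul]
          · intro h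
            exact absurd (Finset.mem_univ i) h
      _ = (N : ℂ) * ∑ i, ((‖v i‖ ^ 2 : ℝ) : ℂ) := by
          rw [Finset.mul_sum]
          refine Finset.sum_congr rfl fun i _ => ?_
          rw [v2_norm_sq]
  exact_mod_cast key

private theorem v2_step {G : Type u} [Group G] {N : ℕ} {u : Fin N → Fin N → ℂ} (hu : Had u)
    (c : Fin N → G) (φ : Vec G N) (hφ : FS φ) : nrm 2 (Rop u c φ) = nrm 2 φ := by
  rcases Nat.eq_zero_or_pos N with hN | hN
  · subst hN
    simp [nrm]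
  have hN' : (0 : ℝ) < (N : ℝ) := by exact_mod_cast hN
  have hpt : ∀ x : G, ∑ j, ‖Rop u c φ x j‖ ^ (2 : ℝ)
      = ∑ i, ‖φ ((c i)⁻¹ * x) i‖ ^ (2 : ℝ) := by
    intro x
    have h1 := v2_pars hu (fun i => φ ((c i)⁻¹ * x) i)
    have h2 : ∀ j, ‖Rop u c φ x j‖ ^ (2 : ℝ)
        = ((N : ℝ))⁻¹ * ‖∑ i, u i j * φ ((c i)⁻¹ * x) i‖ ^ 2 := by
      intro j
      rw [Rop_apply, Real.rpow_two, norm_mul, mul_pow, norm_inv, Complex.norm_real,
        Real.norm_of_nonneg (Real.sqrt_nonneg _), inv_pow, Real.sq_sqrt hN'.le]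
    simp_rw [h2, ← Finset.mul_sum]
    rw [h1, ← mul_assoc, inv_mul_cancel₀ hN'.ne', one_mul]
    exact Finset.sum_congr rfl fun i _ => (Real.rpow_two _).symm
  have hsum : ∀ i : Fin N, Summable fun x => ‖φ x i‖ ^ (2 : ℝ) := by
    intro i
    refine summable_of_finite_support (hφ.subset fun x hx => ?_)
    intro h
    apply hx
    simp [h]
  have hsum' : ∀ i : Fin N, Summable fun x => ‖φ ((c i)⁻¹ * x) i‖ ^ (2 : ℝ) := by
    intro i
    exact ((Equiv.mulLeft (c i)⁻¹).summable_iff (f := fun x => ‖φ x i‖ ^ (2 : ℝ))).2 (hsum i)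
  unfold nrm
  simp_rw [hpt]
  rw [Summable.tsum_finsetSum (fun i _ => hsum' i), Summable.tsum_finsetSum (fun i _ => hsum i)]
  refine Finset.sum_congr rfl fun i _ => ?_
  exact (Equiv.mulLeft (c i)⁻¹).tsum_eq fun x => ‖φ x i‖ ^ (2 : ℝ)

theorem p_V2 : S_V2.{u} := by
  intro G _ N u hu c m φ hφ
  induction m generalizing φ with
  | zero => rfl
  | succ m ih =>
    rw [Vop_succ, ih _ (hφ.Rop u (c m)), v2_step hu (c m) φ hφ]

end Pool.Agent.PC
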