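import Pool.Agent.Lib.MP_830418_an.Flat.Stm
open Finset
universe u
namespace Pool.Agent.PC

private theorem pr_congr {G : Type u} [Group G] {N : ℕ} (c : ℕ → Fin N → G) (m : ℕ)
    (t s : ℕ → Fin N) (h : ∀ k < m, t k = s k) : pr c m t = pr c m s := by
  induction m with
  | zero => rfl
  | succ m ih =>
    change pr c m t * c m (t m) = pr c m s * c m (s m)
    rw [ih fun k hk => h k (by omega), h m (by omega)]

private theorem Rop_ne {G : Type u} [Group G] {N : ℕ} (u : Fin N → Fin N → ℂ) (c : Fin N → G)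
    (φ : Vec G N) (x : G) (h : Rop u c φ x ≠ 0) : ∃ i, φ ((c i)⁻¹ * x) i ≠ 0 := by
  by_contra hc
  push Not at hc
  apply h
  funext j
  rw [Rop_apply]
  simp [hc]

private theorem Vop_ne {G : Type u} [Group G] {N : ℕ} (u : Fin N → Fin N → ℂ)
    (c : ℕ → Fin N → G) (m : ℕ) : ∀ (φ : Vec G N) (x : G), Vop u c m φ x ≠ 0 →
    ∃ t : ℕ → Fin N, φ ((pr c m t)⁻¹ * x) ≠ 0 := by
  induction m with
  | zero =>
    intro φ x h
    rw [Vop_zero] at h
    obtain ⟨i, hi⟩ : ∃ i, φ x i ≠ 0 := by
      by_contra hc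
      push Not at hc
      exact h (funext hc)
    refine ⟨fun _ => i, ?_⟩
    have h1 : (pr c 0 fun _ => i)⁻¹ * x = x := by
      change (1 : G)⁻¹ * x = x
      simp
    rw [h1]
    exact h
  | succ m ih =>
    intro φ x h
    rw [Vop_succ] at h
    obtain ⟨t, ht⟩ := ih _ _ h
    obtain ⟨i, hi⟩ := Rop_ne u (c m) φ _ ht
    refine ⟨Function.update t m i, fun h0 => hi ?_⟩
    have h1 : (pr c (m + 1) (Function.update t m i))⁻¹ * x =
        (c m i)⁻¹ * ((pr c m t)⁻¹ * x) := by
      change (pr c m (Function.update t m i) * c m (Function.update t m i m))⁻¹ * x = _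
      rw [pr_congr c m (Function.update t m i) t
        (fun k hk => by rw [Function.update_of_ne (by omega)]), Function.update_self]
      group
    rw [h1] at h0
    rw [h0]
    rfl

theorem p_Vsupp : S_Vsupp.{u} := by
  intro G _ N u c m φ x h
  rw [Vop_succ] at h
  obtain ⟨t, ht⟩ := Vop_ne u c m _ _ h
  obtain ⟨i, hi⟩ := Rop_ne u (c m) φ _ ht
  refine ⟨Function.update t m i, ?_⟩
  have h1 : (pr c (m + 1) (Function.update t m i))⁻¹ * x =
      (c m i)⁻¹ * ((pr c m t)⁻¹ * x) := by
    change (pr c m (Function.update t m i) * c m (Function.update t m i m))⁻¹ * x = _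
    rw [pr_congr c m (Function.update t m i) t
      (fun k hk => by rw [Function.update_of_ne (by omega)]), Function.update_self]
    group
  rw [h1, Function.update_self]
  exact hi

end Pool.Agent.PC
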