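import Pool.Agent.Lib.MP_830418_an.Flat.Stm

open Finset

universe u

namespace Pool.Agent.PC

section ban

variable {G : Type u}

private noncomputable abbrev banLP (G : Type u) (P : ENNReal) := lp (fun _ : G => ℂ) P

private theorem ban_mem {P : ENNReal} (hP : 0 < P.toReal) (e : G ≃ G) (φ : banLP G P) :
    Memℓp (fun g => (φ : G → ℂ) (e g)) P := by
  rw [memℓp_gen_iff hP]
  exact (e.summable_iff (f := fun g => ‖(φ : G → ℂ) g‖ ^ P.toReal)).2 ((lp.memℓp φ).summable hP)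

private theorem ban_norm {P : ENNReal} (hP : 0 < P.toReal) (e : G ≃ G) (φ ψ : banLP G P)
    (h : ∀ g, (ψ : G → ℂ) g = (φ : G → ℂ) (e g)) : ‖ψ‖ = ‖φ‖ := by
  have h1 := lp.norm_rpow_eq_tsum hP ψ
  have h2 := lp.norm_rpow_eq_tsum hP φ
  have h3 : ‖ψ‖ ^ P.toReal = ‖φ‖ ^ P.toReal := by
    rw [h1, h2, ← e.tsum_eq (fun g => ‖(φ : G → ℂ) g‖ ^ P.toReal)]
    exact tsum_congr fun g => by rw [h g]
  exact (Real.rpow_left_inj (lp.norm_nonneg' ψ) (lp.norm_nonneg' φ) hP.ne').1 h3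

private noncomputable def banR (P : ENNReal) [Fact (1 ≤ P)] (hP : 0 < P.toReal) (e : G ≃ G) :
    banLP G P →L[ℂ] banLP G P :=
  LinearMap.mkContinuous
    { toFun := fun φ => ⟨fun g => (φ : G → ℂ) (e g), ban_mem hP e φ⟩
      map_add' := fun φ ψ => by ext g; rfl
      map_smul' := fun a φ => by ext g; rfl } 1 (fun φ => by
        rw [one_mul]
        exact (ban_norm hP e φ _ fun g => rfl).le)

private theorem banR_apply (P : ENNReal) [Fact (1 ≤ P)] (hP : 0 < P.toReal) (e : G ≃ G)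
    (φ : banLP G P) (g : G) : (banR P hP e φ : G → ℂ) g = (φ : G → ℂ) (e g) := rfl

private noncomputable def banOp (P : ENNReal) [Fact (1 ≤ P)] (hP : 0 < P.toReal) (K : Finset G)
    (a : G → ℂ) (e : G → (G ≃ G)) : banLP G P →L[ℂ] banLP G P :=
  ∑ k ∈ K, a k • banR P hP (e k)

private theorem banOp_apply (P : ENNReal) [Fact (1 ≤ P)] (hP : 0 < P.toReal) (K : Finset G)
    (a : G → ℂ) (e : G → (G ≃ G)) (φ : banLP G P) (g : G) :
    (banOp P hP K a e φ : G → ℂ) g = ∑ k ∈ K, a k * (φ : G → ℂ) (e k g) := by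
  unfold banOp
  rw [ContinuousLinearMap.sum_apply, lp.coeFn_sum, Finset.sum_apply]
  rfl

private theorem ban_sum1 (c : lp (fun _ : ℕ => ℂ) 1) : Summable fun n => ‖c n‖ := by
  have := (lp.memℓp c).summable (by norm_num)
  simpa using this

private theorem ban_norm1 (c : lp (fun _ : ℕ => ℂ) 1) : ‖c‖ = ∑' n, ‖c n‖ := by
  have := lp.norm_eq_tsum_rpow (p := 1) (by norm_num) c
  simpa using this

private theorem ban_sumE {E : Type*} [NormedAddCommGroup E] [NormedSpace ℂ E] [CompleteSpace E]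
    (φ : ℕ → E) (M : ℝ) (hφ : ∀ n, ‖φ n‖ ≤ M) (c : lp (fun _ : ℕ => ℂ) 1) :
    Summable fun n => c n • φ n := by
  refine Summable.of_norm_bounded ((ban_sum1 c).mul_right M) fun n => ?_
  rw [norm_smul]
  exact mul_le_mul_of_nonneg_left (hφ n) (norm_nonneg _)

private theorem ban_leE {E : Type*} [NormedAddCommGroup E] [NormedSpace ℂ E] [CompleteSpace E]
    (φ : ℕ → E) (M : ℝ) (hφ : ∀ n, ‖φ n‖ ≤ M) (c : lp (fun _ : ℕ => ℂ) 1) :
    ‖∑' n, c n • φ n‖ ≤ ‖c‖ * M := by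
  rw [ban_norm1, ← tsum_mul_right]
  refine tsum_of_norm_bounded ((ban_sum1 c).mul_right M).hasSum fun n => ?_
  rw [norm_smul]
  exact mul_le_mul_of_nonneg_left (hφ n) (norm_nonneg _)

private noncomputable def banF {E : Type*} [NormedAddCommGroup E] [NormedSpace ℂ E]
    [CompleteSpace E] (φ : ℕ → E) (hφ : ∀ n, ‖φ n‖ ≤ 1) : lp (fun _ : ℕ => ℂ) 1 →L[ℂ] E :=
  LinearMap.mkContinuous
    { toFun := fun c => ∑' n, c n • φ n
      map_add' := fun c d => by
        rw [← (ban_sumE φ 1 hφ c).tsum_add (ban_sumE φ 1 hφ d)]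
        exact tsum_congr fun n => by rw [lp.coeFn_add, Pi.add_apply, add_smul]
      map_smul' := fun a c => by
        rw [RingHom.id_apply, ← (ban_sumE φ 1 hφ c).tsum_const_smul]
        exact tsum_congr fun n => by rw [lp.coeFn_smul, Pi.smul_apply, smul_eq_mul, mul_smul] } 1
    (fun c => by
      rw [one_mul]
      have := ban_leE φ 1 hφ c
      rw [mul_one] at this
      exact this)

end ban

theorem p_ban : S_ban.{u} := by
  intro p hp G _ hR
  by_contra hcon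
  push Not at hcon
  have hp0 : 0 < p := by linarith
  set P : ENNReal := ENNReal.ofReal p with hPdef
  have hPr : P.toReal = p := ENNReal.toReal_ofReal hp0.le
  have hP : 0 < P.toReal := by rw [hPr]; exact hp0
  have : Fact (1 ≤ P) := ⟨by
    rw [hPdef, ← ENNReal.ofReal_one]
    exact ENNReal.ofReal_le_ofReal hp.le⟩
  choose f hf1 hf2 using fun n : ℕ => hR n (Nat.cast_nonneg n)
  -- the functions as elements of `ℓ^p`
  have hmem : ∀ n, Summable (fun g : G => ‖(f n : G → ℂ) g‖ ^ p) ∧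
      ∑' g : G, ‖(f n : G → ℂ) g‖ ^ p ≤ 1 := by
    intro n
    have h := hf1 n (Finsupp.single 1 1)
    have hs : (Finsupp.single (1 : G) (1 : ℂ)).support = {1} :=
      Finsupp.support_single_ne_zero _ one_ne_zero
    rw [hs] at h
    simpa using h
  have hmm : ∀ n, Memℓp (E := fun _ : G => ℂ) (fun g => f n g) P := by
    intro n
    rw [memℓp_gen_iff hP, hPr]
    exact (hmem n).1
  let φ : ℕ → banLP G P := fun n => ⟨fun g => f n g, hmm n⟩
  have hφv : ∀ n g, (φ n : G → ℂ) g = f n g := fun n g => rfl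
  have hφ : ∀ n, ‖φ n‖ ≤ 1 := by
    intro n
    have h1 := lp.norm_rpow_eq_tsum hP (φ n)
    rw [hPr] at h1
    have h2 : ‖φ n‖ ^ p ≤ 1 := by rw [h1]; exact (hmem n).2
    by_contra h3
    push Not at h3
    exact absurd h2 (not_le.2 (Real.one_lt_rpow h3 hp0))
  -- the two operators
  let A : (G →₀ ℂ) → banLP G P →L[ℂ] banLP G P := fun ξ =>
    banOp P hP ξ.support ξ (fun k => Equiv.mulRight k⁻¹)
  let B : (G →₀ ℂ) → banLP G P →L[ℂ] banLP G P := fun ξ =>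
    banOp P hP ξ.support (fun k => starRingEnd ℂ (ξ k))
      (fun k => (Equiv.mulRight k⁻¹).trans (Equiv.inv G))
  have hA : ∀ ξ (ψ : banLP G P) g, ∑ k ∈ ξ.support, (ψ : G → ℂ) (g * k⁻¹) * ξ k =
      (A ξ ψ : G → ℂ) g := by
    intro ξ ψ g
    rw [banOp_apply]
    exact Finset.sum_congr rfl fun k _ => mul_comm _ _
  have hB : ∀ ξ (ψ : banLP G P) g,
      ‖∑ k ∈ ξ.support, cst (ψ : G → ℂ) (g * k⁻¹) * ξ k‖ = ‖(B ξ ψ : G → ℂ) g‖ := by
    intro ξ ψ g
    rw [banOp_apply, ← RCLike.norm_conj (∑ k ∈ ξ.support, cst (ψ : G → ℂ) (g * k⁻¹) * ξ k),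
      map_sum]
    congr 1
    refine Finset.sum_congr rfl fun k _ => ?_
    rw [map_mul, cst, Complex.conj_conj, mul_comm]
    rfl
  let s : (G →₀ ℂ) → ℝ := fun ξ => ∑ k ∈ ξ.support, ‖ξ k‖ ^ p
  have hs0 : ∀ ξ, 0 ≤ s ξ := fun ξ => Finset.sum_nonneg fun k _ =>
    Real.rpow_nonneg (norm_nonneg _) _
  have hAn : ∀ ξ n, ‖A ξ (φ n)‖ ≤ s ξ ^ (1 / p) := by
    intro ξ n
    have h1 := lp.norm_rpow_eq_tsum hP (A ξ (φ n))
    rw [hPr] at h1
    have h2 := (hf1 n ξ).2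
    rw [one_mul] at h2
    have h3 : ‖A ξ (φ n)‖ ^ p ≤ s ξ := by
      rw [h1]
      refine le_trans (le_of_eq ?_) h2
      exact tsum_congr fun g => by rw [← hA ξ (φ n) g]
    calc ‖A ξ (φ n)‖ = (‖A ξ (φ n)‖ ^ p) ^ (1 / p) := by
          rw [← Real.rpow_mul (norm_nonneg _), mul_one_div_cancel hp0.ne', Real.rpow_one]
      _ ≤ s ξ ^ (1 / p) := Real.rpow_le_rpow (Real.rpow_nonneg (norm_nonneg _) _) h3
          (by positivity)
  let F := banF φ hφ
  have hF : ∀ c, F c = ∑' n, c n • φ n := fun c => rfl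
  -- `F c` is a convolver
  have hconv : ∀ c, ConvLe p (‖c‖ ^ p) (F c : G → ℂ) := by
    intro c ξ
    have h1 := lp.norm_rpow_eq_tsum hP (A ξ (F c))
    have h0 := (lp.memℓp (A ξ (F c))).summable hP
    rw [hPr] at h1 h0
    have h2 : ‖A ξ (F c)‖ ≤ ‖c‖ * s ξ ^ (1 / p) := by
      have h3 : A ξ (F c) = ∑' n, c n • A ξ (φ n) := by
        rw [hF, (A ξ).map_tsum (ban_sumE φ 1 hφ c)]
        exact tsum_congr fun n => by rw [map_smul]
      rw [h3]
      exact ban_leE _ _ (hAn ξ) c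
    refine ⟨?_, ?_⟩
    · refine h0.congr fun g => ?_
      rw [hA]
    · calc ∑' g : G, ‖∑ k ∈ ξ.support, (F c : G → ℂ) (g * k⁻¹) * ξ k‖ ^ p
          = ∑' g : G, ‖(A ξ (F c) : G → ℂ) g‖ ^ p := tsum_congr fun g => by rw [hA]
        _ = ‖A ξ (F c)‖ ^ p := h1.symm
        _ ≤ (‖c‖ * s ξ ^ (1 / p)) ^ p := Real.rpow_le_rpow (norm_nonneg _) h2 hp0.le
        _ = ‖c‖ ^ p * s ξ := by
          rw [Real.mul_rpow (norm_nonneg _) (Real.rpow_nonneg (hs0 ξ) _),
            ← Real.rpow_mul (hs0 ξ), one_div_mul_cancel hp0.ne', Real.rpow_one]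
  -- uniform boundedness
  have hbs : ∃ M, ∀ ξ : G →₀ ℂ, ‖((((s ξ ^ (1 / p))⁻¹ : ℝ) : ℂ)) • ((B ξ).comp F)‖ ≤ M := by
    refine banach_steinhaus fun c => ?_
    obtain ⟨C, hC⟩ := hcon (F c) ⟨_, hconv c⟩
    refine ⟨(max C 0) ^ (1 / p), fun ξ => ?_⟩
    have h1 := lp.norm_rpow_eq_tsum hP (B ξ (F c))
    rw [hPr] at h1
    have h2 := (hC ξ).2
    have h3 : ‖B ξ (F c)‖ ^ p ≤ max C 0 * s ξ := by
      rw [h1]
      calc ∑' g : G, ‖(B ξ (F c) : G → ℂ) g‖ ^ p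
          = ∑' g : G, ‖∑ k ∈ ξ.support, cst (F c : G → ℂ) (g * k⁻¹) * ξ k‖ ^ p :=
            tsum_congr fun g => by rw [hB]
        _ ≤ C * s ξ := h2
        _ ≤ max C 0 * s ξ := mul_le_mul_of_nonneg_right (le_max_left _ _) (hs0 ξ)
    have h4 : ‖B ξ (F c)‖ ≤ (max C 0) ^ (1 / p) * s ξ ^ (1 / p) := by
      rw [← Real.mul_rpow (le_max_right _ _) (hs0 ξ)]
      calc ‖B ξ (F c)‖ = (‖B ξ (F c)‖ ^ p) ^ (1 / p) := by
            rw [← Real.rpow_mul (norm_nonneg _), mul_one_div_cancel hp0.ne', Real.rpow_one]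
        _ ≤ _ := Real.rpow_le_rpow (Real.rpow_nonneg (norm_nonneg _) _) h3 (by positivity)
    rw [ContinuousLinearMap.smul_apply, norm_smul, Complex.norm_real, norm_inv,
      Real.norm_of_nonneg (Real.rpow_nonneg (hs0 ξ) _), ContinuousLinearMap.comp_apply]
    rcases (Real.rpow_nonneg (hs0 ξ) (1 / p)).eq_or_lt with h5 | h5
    · rw [← h5, inv_zero, zero_mul]
      exact Real.rpow_nonneg (le_max_right _ _) _
    · rw [inv_mul_le_iff₀ h5, mul_comm]
      exact h4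
  obtain ⟨M, hM⟩ := hbs
  have hM0 : 0 ≤ M := le_trans (norm_nonneg _) (hM 0)
  obtain ⟨n, hn⟩ := exists_nat_ge (M ^ p)
  apply hf2 n
  intro ξ
  have hE : F (lp.single 1 n (1 : ℂ)) = φ n := by
    rw [hF, tsum_eq_single n]
    · simp
    · intro m hm
      rw [lp.single_apply_ne _ _ _ hm, zero_smul]
  have h1 := lp.norm_rpow_eq_tsum hP (B ξ (φ n))
  have h0 := (lp.memℓp (B ξ (φ n))).summable hP
  rw [hPr] at h1 h0
  have h2 : ‖B ξ (φ n)‖ ≤ M * s ξ ^ (1 / p) := by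
    rcases (Real.rpow_nonneg (hs0 ξ) (1 / p)).eq_or_lt with h5 | h5
    · have h6 : s ξ = 0 := by
        by_contra h7
        have : 0 < s ξ := lt_of_le_of_ne (hs0 ξ) (Ne.symm h7)
        exact absurd h5 (Real.rpow_pos_of_pos this _).ne
      have h7 : ξ.support = ∅ := by
        by_contra h8
        obtain ⟨k, hk⟩ := Finset.nonempty_iff_ne_empty.2 h8
        have : 0 < s ξ := Finset.sum_pos' (fun k _ => Real.rpow_nonneg (norm_nonneg _) _)
          ⟨k, hk, Real.rpow_pos_of_pos (norm_pos_iff.2 (Finsupp.mem_support_iff.1 hk)) _⟩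
        exact this.ne' h6
      have h8 : B ξ = 0 := by
        show banOp P hP ξ.support _ _ = 0
        rw [h7]
        rfl
      rw [h8, ContinuousLinearMap.zero_apply, norm_zero]
      exact mul_nonneg hM0 (Real.rpow_nonneg (hs0 ξ) _)
    · have h6 := (((((s ξ ^ (1 / p))⁻¹ : ℝ) : ℂ)) • ((B ξ).comp F)).le_of_opNorm_le (hM ξ)
        (lp.single 1 n (1 : ℂ))
      rw [ContinuousLinearMap.smul_apply, norm_smul, Complex.norm_real, norm_inv,
        Real.norm_of_nonneg (Real.rpow_nonneg (hs0 ξ) _), ContinuousLinearMap.comp_apply, hE,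
        lp.norm_single (by norm_num), norm_one, mul_one, inv_mul_le_iff₀ h5, mul_comm] at h6
      exact h6
  refine ⟨?_, ?_⟩
  · refine h0.congr fun g => ?_
    rw [← hB ξ (φ n) g]
  · calc ∑' g : G, ‖∑ k ∈ ξ.support, cst (f n : G → ℂ) (g * k⁻¹) * ξ k‖ ^ p
        = ∑' g : G, ‖(B ξ (φ n) : G → ℂ) g‖ ^ p := tsum_congr fun g => by
          rw [← hB ξ (φ n) g]
      _ = ‖B ξ (φ n)‖ ^ p := h1.symm
      _ ≤ (M * s ξ ^ (1 / p)) ^ p := Real.rpow_le_rpow (norm_nonneg _) h2 hp0.le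
      _ = M ^ p * s ξ := by
        rw [Real.mul_rpow hM0 (Real.rpow_nonneg (hs0 ξ) _),
          ← Real.rpow_mul (hs0 ξ), one_div_mul_cancel hp0.ne', Real.rpow_one]
      _ ≤ n * s ξ := mul_le_mul_of_nonneg_right hn (hs0 ξ)

end Pool.Agent.PC
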