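import Pool.Agent.Lib.MP_830418_an.Flat.Stm

open Finset

universe u

namespace Pool.Agent.PC

theorem p_diss (h1 : S_intV.{u}) (h2 : S_V2.{u}) (h3 : S_L1.{u}) (h4 : S_win.{u}) :
    S_diss.{u} := by
  intro p hp1 hp2 G _ N hN u hu c m W E X δ hδ hF φ hφ
  have hp0 : 0 < p := by linarith
  obtain ⟨-, -, -, hS0, -, hS1⟩ := h4 G N W hF.hW p hp0 φ hφ
  have hB : 0 ≤ nrm p φ := nrm_nonneg p φ
  set n : ℝ := (1 + δ) * (N : ℝ) ^ (m + 1) with hn
  have hNpos : (0 : ℝ) < N := by exact_mod_cast hN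
  have hnpos : 0 < n := by positivity
  have hA : ∀ α : Vec G N, FS α → (∀ x i, ‖α x i‖ = ‖φ x i‖ ^ p) →
      nrm 1 (Vop u c (m + 1) α) ≤ Real.sqrt n * win W p φ := by
    intro α hα hαφ
    have := h3 G N u hu c m W E X δ hδ hF α hα
    rwa [hS1 α hαφ] at this
  have hmain := h1 p hp1 hp2 G N (Vop u c (m + 1)) (fun ψ hψ => hψ.Vop u c (m + 1))
    (fun ψ hψ => (h2 G N u hu c (m + 1) ψ hψ).le) φ hφ (Real.sqrt n * win W p φ) hA
  rw [nrm_smul]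
  have hlam : 0 < n ^ ((2 - p) / (2 * p)) := Real.rpow_pos_of_pos hnpos _
  have e1 : ‖(((n ^ ((2 - p) / (2 * p)) : ℝ) : ℂ))⁻¹‖ ^ p = (n ^ ((2 - p) / 2))⁻¹ := by
    rw [norm_inv, Complex.norm_real, Real.norm_of_nonneg hlam.le, Real.inv_rpow hlam.le,
      ← Real.rpow_mul hnpos.le]
    congr 2
    field_simp
  rw [e1]
  have e2 : (Real.sqrt n * win W p φ) ^ (2 - p) = n ^ ((2 - p) / 2) * (win W p φ) ^ (2 - p) := by
    rw [Real.mul_rpow (Real.sqrt_nonneg _) hS0, Real.sqrt_eq_rpow, ← Real.rpow_mul hnpos.le]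
    congr 2
    ring
  rw [e2] at hmain
  have hq : 0 < n ^ ((2 - p) / 2) := Real.rpow_pos_of_pos hnpos _
  have hag := Real.geom_mean_le_arith_mean2_weighted (w₁ := 2 - p) (w₂ := p - 1)
    (by linarith) (by linarith) hS0 hB (by ring)
  calc (n ^ ((2 - p) / 2))⁻¹ * nrm p (Vop u c (m + 1) φ)
      ≤ (n ^ ((2 - p) / 2))⁻¹ *
        (n ^ ((2 - p) / 2) * (win W p φ) ^ (2 - p) * nrm p φ ^ (p - 1)) :=
        mul_le_mul_of_nonneg_left hmain (inv_nonneg.2 hq.le)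
    _ = (win W p φ) ^ (2 - p) * nrm p φ ^ (p - 1) := by
        rw [mul_assoc, inv_mul_cancel_left₀ hq.ne']
    _ ≤ (2 - p) * win W p φ + (p - 1) * nrm p φ := hag
    _ = _ := by ring

end Pool.Agent.PC
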