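import Pool.Agent.Lib.MP_830418_an.Flat.Stm

open Finset

universe u

namespace Pool.Agent.PC

private theorem dual_num (p q C s H : ℝ) (hp : 1 < p) (hq : 1 < q) (hpq : 1 / p + 1 / q = 1)
    (hC : 0 ≤ C) (hs : 0 ≤ s) (hH : 0 ≤ H)
    (h : s ≤ (C ^ p * s) ^ (1 / p) * H ^ (1 / q)) : s ≤ C ^ q * H := by
  have hp0 : 0 < p := by linarith
  have hq0 : 0 < q := by linarith
  rcases hs.eq_or_lt with h0 | h0
  · rw [← h0]
    exact mul_nonneg (Real.rpow_nonneg hC _) hH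
  · have h1 : (C ^ p * s) ^ (1 / p) = C * s ^ (1 / p) := by
      rw [Real.mul_rpow (Real.rpow_nonneg hC _) hs, ← Real.rpow_mul hC, mul_one_div_cancel hp0.ne',
        Real.rpow_one]
    have h2 : s = s ^ (1 / p) * s ^ (1 / q) := by
      rw [← Real.rpow_add h0, hpq, Real.rpow_one]
    rw [h1] at h
    have h3 : 0 < s ^ (1 / p) := Real.rpow_pos_of_pos h0 _
    have h4 : s ^ (1 / q) ≤ C * H ^ (1 / q) := by
      have h5 : s ^ (1 / p) * s ^ (1 / q) ≤ s ^ (1 / p) * (C * H ^ (1 / q)) := by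
        rw [← h2]
        calc s ≤ C * s ^ (1 / p) * H ^ (1 / q) := h
          _ = s ^ (1 / p) * (C * H ^ (1 / q)) := by ring
      exact le_of_mul_le_mul_left h5 h3
    have h6 := Real.rpow_le_rpow (Real.rpow_nonneg hs _) h4 hq0.le
    rw [← Real.rpow_mul hs, one_div_mul_cancel hq0.ne', Real.rpow_one,
      Real.mul_rpow hC (Real.rpow_nonneg hH _), ← Real.rpow_mul hH, one_div_mul_cancel hq0.ne',
      Real.rpow_one] at h6
    exact h6

private theorem dual_norm (p q : ℝ) (hp : 1 < p) (hq : 1 < q) (hpq : 1 / p + 1 / q = 1) (z : ℂ) :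
    ‖z * ((‖z‖ ^ (q - 2) : ℝ) : ℂ)‖ ^ p = ‖z‖ ^ q ∧
    z * ((‖z‖ ^ (q - 2) : ℝ) : ℂ) * starRingEnd ℂ z = ((‖z‖ ^ q : ℝ) : ℂ) := by
  have hp0 : 0 < p := by linarith
  have hq0 : 0 < q := by linarith
  by_cases hz : z = 0
  · subst hz
    simp [Real.zero_rpow hp0.ne', Real.zero_rpow hq0.ne']
  · have hn : 0 < ‖z‖ := norm_pos_iff.2 hz
    have h1 : (q - 1) * p = q := by
      field_simp at hpq
      linarith
    constructor
    · rw [norm_mul, Complex.norm_real, Real.norm_of_nonneg (Real.rpow_nonneg hn.le _)]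
      have h2 : ‖z‖ * ‖z‖ ^ (q - 2) = ‖z‖ ^ (q - 1) := by
        have h3 := Real.rpow_add hn 1 (q - 2)
        rw [Real.rpow_one] at h3
        rw [← h3]
        ring_nf
      rw [h2, ← Real.rpow_mul hn.le, h1]
    · have h4 : z * ((‖z‖ ^ (q - 2) : ℝ) : ℂ) * starRingEnd ℂ z =
          (z * starRingEnd ℂ z) * ((‖z‖ ^ (q - 2) : ℝ) : ℂ) := by ring
      rw [h4, Complex.mul_conj, Complex.normSq_eq_norm_sq, ← Complex.ofReal_mul]
      have h5 := Real.rpow_add hn 2 (q - 2)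
      rw [Real.rpow_two] at h5
      rw [← h5]
      ring_nf

theorem p_dual : S_dual.{u} := by
  intro p q hp hq hpq G _ f C hC hf η
  classical
  have hp0 : 0 < p := by linarith
  have hq0 : 0 < q := by linarith
  have hhc : p.HolderConjugate q := by
    rw [Real.holderConjugate_iff]
    refine ⟨hp, ?_⟩
    rw [← one_div, ← one_div]
    exact hpq
  have hH : 0 ≤ ∑ k ∈ η.support, ‖η k‖ ^ q :=
    Finset.sum_nonneg fun _ _ => Real.rpow_nonneg (norm_nonneg _) _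
  have key : ∀ B : Finset G, ∑ k ∈ B, ‖∑ x ∈ η.support, cst f (k * x⁻¹) * η x‖ ^ q ≤
      C ^ q * ∑ k ∈ η.support, ‖η k‖ ^ q := by
    intro B
    obtain ⟨c, hc⟩ : ∃ c : G → ℂ, ∀ k, c k = ∑ x ∈ η.support, cst f (k * x⁻¹) * η x :=
      ⟨_, fun _ => rfl⟩
    simp only [← hc]
    obtain ⟨g, hg⟩ : ∃ g : G → ℂ, ∀ k, g k = c k * ((‖c k‖ ^ (q - 2) : ℝ) : ℂ) :=
      ⟨_, fun _ => rfl⟩
    have hg1 : ∀ k, ‖g k‖ ^ p = ‖c k‖ ^ q := by
      intro k
      rw [hg]
      exact (dual_norm p q hp hq hpq (c k)).1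
    have hg2 : ∀ k, g k * starRingEnd ℂ (c k) = ((‖c k‖ ^ q : ℝ) : ℂ) := by
      intro k
      rw [hg]
      exact (dual_norm p q hp hq hpq (c k)).2
    obtain ⟨ξ, hξ1, hξ2⟩ : ∃ ξ : G →₀ ℂ, (∀ k ∈ B, ξ k = g k) ∧ ∀ k, k ∉ B → ξ k = 0 := by
      refine ⟨Finsupp.onFinset B (fun k => if k ∈ B then g k else 0) ?_, ?_, ?_⟩
      · intro k hk
        by_contra h
        exact hk (if_neg h)
      · intro k hk
        rw [Finsupp.onFinset_apply, if_pos hk]
      · intro k hk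
        rw [Finsupp.onFinset_apply, if_neg hk]
    have hsub : ξ.support ⊆ B := by
      intro k hk
      by_contra h
      exact (Finsupp.mem_support_iff.1 hk) (hξ2 k h)
    have hS1 : ∑ k ∈ ξ.support, ‖ξ k‖ ^ p = ∑ k ∈ B, ‖c k‖ ^ q := by
      rw [Finset.sum_subset hsub]
      · refine Finset.sum_congr rfl fun k hk => ?_
        rw [hξ1 k hk, hg1]
      · intro k _ hk
        rw [Finsupp.notMem_support_iff.1 hk, norm_zero, Real.zero_rpow hp0.ne']
    have hS2 : ∀ x, ∑ k ∈ ξ.support, f (x * k⁻¹) * ξ k = ∑ k ∈ B, f (x * k⁻¹) * g k := by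
      intro x
      rw [Finset.sum_subset hsub]
      · refine Finset.sum_congr rfl fun k hk => ?_
        rw [hξ1 k hk]
      · intro k _ hk
        rw [Finsupp.notMem_support_iff.1 hk, mul_zero]
    obtain ⟨hsum, hle⟩ := hf ξ
    rw [hS1] at hle
    simp only [hS2] at hsum hle
    have hcc : ∀ k, starRingEnd ℂ (c k) =
        ∑ x ∈ η.support, f (x * k⁻¹) * starRingEnd ℂ (η x) := by
      intro k
      rw [hc, map_sum]
      refine Finset.sum_congr rfl fun x _ => ?_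
      rw [map_mul, cst, Complex.conj_conj, mul_inv_rev, inv_inv]
    have e1 : ∑ x ∈ η.support, (∑ k ∈ B, f (x * k⁻¹) * g k) * starRingEnd ℂ (η x) =
        ((∑ k ∈ B, ‖c k‖ ^ q : ℝ) : ℂ) := by
      simp only [Finset.sum_mul]
      rw [Finset.sum_comm, Complex.ofReal_sum]
      refine Finset.sum_congr rfl fun k _ => ?_
      rw [← hg2 k, hcc k, Finset.mul_sum]
      refine Finset.sum_congr rfl fun x _ => ?_
      ring
    have hs0 : 0 ≤ ∑ k ∈ B, ‖c k‖ ^ q :=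
      Finset.sum_nonneg fun _ _ => Real.rpow_nonneg (norm_nonneg _) _
    have e2 : ∑ k ∈ B, ‖c k‖ ^ q ≤
        ∑ x ∈ η.support, ‖∑ k ∈ B, f (x * k⁻¹) * g k‖ * ‖η x‖ := by
      have h1 : ‖∑ x ∈ η.support, (∑ k ∈ B, f (x * k⁻¹) * g k) * starRingEnd ℂ (η x)‖ =
          ∑ k ∈ B, ‖c k‖ ^ q := by
        rw [e1, Complex.norm_real, Real.norm_of_nonneg hs0]
      rw [← h1]
      refine (norm_sum_le _ _).trans (le_of_eq ?_)
      refine Finset.sum_congr rfl fun x _ => ?_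
      rw [norm_mul, Complex.norm_conj]
    have e3 := Real.inner_le_Lp_mul_Lq η.support (fun x => ‖∑ k ∈ B, f (x * k⁻¹) * g k‖)
      (fun x => ‖η x‖) hhc
    simp only [abs_norm] at e3
    have e4 : ∑ x ∈ η.support, ‖∑ k ∈ B, f (x * k⁻¹) * g k‖ ^ p ≤
        C ^ p * ∑ k ∈ B, ‖c k‖ ^ q :=
      (hsum.sum_le_tsum η.support fun _ _ => Real.rpow_nonneg (norm_nonneg _) _).trans hle
    apply dual_num p q C _ _ hp hq hpq hC hs0 hH
    refine (e2.trans e3).trans ?_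
    apply mul_le_mul_of_nonneg_right _ (Real.rpow_nonneg hH _)
    exact Real.rpow_le_rpow (Finset.sum_nonneg fun _ _ => Real.rpow_nonneg (norm_nonneg _) _) e4
      (by positivity)
  have hsm : Summable fun k : G => ‖∑ x ∈ η.support, cst f (k * x⁻¹) * η x‖ ^ q :=
    summable_of_sum_le (fun _ => Real.rpow_nonneg (norm_nonneg _) _) key
  exact ⟨hsm, hsm.tsum_le_of_sum_le key⟩

end Pool.Agent.PC
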