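import Pool.Agent.Lib.MP_830418_an.Flat.Stm
open Finset
universe u
namespace Pool.Agent.PC

/-- `p_fin`: from flat data to finitely supported functions -/
theorem p_fin (h1 : S_num) (h2 : S_had) (h3 : S_diss.{u}) (h4 : S_D.{u}) (h5 : S_win.{u})
    (h6 : S_chain.{u}) (h7 : S_low.{u}) (h8 : S_h.{u}) (h9 : S_rep2.{u}) (h10 : S_ext.{u}) :
    S_fin.{u} := by
  intro p hp1 hp2 G _ _ N hN hC R hR
  classical
  obtain ⟨K, L₀, δ, hδ, hK, hnum⟩ := h1 p hp1 hp2 N R hR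
  obtain ⟨m, c, W, E, X, hL, hF⟩ := hC L₀ δ hδ
  obtain ⟨u, hu⟩ := h2 N hN
  have hp0 : 0 < p := by linarith
  have hWc : 1 ≤ W.card := hF.hW.card_pos
  have hWr : (1 : ℝ) ≤ (W.card : ℝ) := by exact_mod_cast hWc
  have hNr : (1 : ℝ) ≤ (N : ℝ) := by exact_mod_cast hN
  have hKr : (1 : ℝ) ≤ (K : ℝ) := by exact_mod_cast hK
  have hδ1 : (0 : ℝ) < 1 + δ := by linarith
  have hNm : (0 : ℝ) < (N : ℝ) ^ (m + 1) := by positivity
  have hbase : (0 : ℝ) < (1 + δ) * (N : ℝ) ^ (m + 1) := by positivity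
  set lam : ℝ := ((1 + δ) * (N : ℝ) ^ (m + 1)) ^ ((2 - p) / (2 * p)) with hlamdef
  have hlam : 0 < lam := Real.rpow_pos_of_pos hbase _
  set a : ℝ := 2 ^ (p - 1) * (W.card : ℝ) with hadef
  set b : ℝ := 2 ^ (p - 1) * (2 * (W.card : ℝ) ^ p) / (2 - p) with hbdef
  have h2p : 0 < 2 - p := by linarith
  have h21 : (0 : ℝ) < 2 ^ (p - 1) := Real.rpow_pos_of_pos (by norm_num) _
  have hWp : (0 : ℝ) < (W.card : ℝ) ^ p := Real.rpow_pos_of_pos (by linarith) _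
  have ha : 0 < a := by positivity
  have hb : 0 ≤ b := by positivity
  have hD1 := h3 p hp1 hp2 G N hN u hu c m W E X δ hδ hF
  have hD2 := h4 p hp1 hp2 G N W hF.hW
  have hchain := h6 p hp1 G N (Vop u c (m + 1)) (Dop W) lam a b ha.le hb
    (fun φ hφ => hφ.Vop u c (m + 1)) (fun φ hφ => hφ.Dop W)
    (fun φ hφ => by
      have hw := h5 G N W hF.hW p hp0 φ hφ
      have h := hD1 φ hφ
      have hle : win W p φ ≤ nrm p φ := hw.2.2.2.2.1
      have : 0 ≤ (2 - p) * (nrm p φ - win W p φ) := mul_nonneg h2p.le (by linarith)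
      refine h.trans (by linarith))
    (fun φ hφ => by
      have h := hD1 φ hφ
      have h' := hD2 φ hφ
      refine h'.trans ?_
      have hkey : nrm p φ - win W p φ ≤
          (nrm p φ - nrm p (((lam : ℂ))⁻¹ • Vop u c (m + 1) φ)) / (2 - p) := by
        rw [le_div_iff₀ h2p]
        have h'' : nrm p (((lam : ℂ))⁻¹ • Vop u c (m + 1) φ) ≤
          nrm p φ - (2 - p) * (nrm p φ - win W p φ) := h
        nlinarith [h'']
      have hmul : 2 ^ (p - 1) * (2 * (W.card : ℝ) ^ p) * (nrm p φ - win W p φ) ≤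
          2 ^ (p - 1) * (2 * (W.card : ℝ) ^ p) *
            ((nrm p φ - nrm p (((lam : ℂ))⁻¹ • Vop u c (m + 1) φ)) / (2 - p)) :=
        mul_le_mul_of_nonneg_left hkey (by positivity)
      have e1 : b * (nrm p φ - nrm p (((lam : ℂ))⁻¹ • Vop u c (m + 1) φ)) =
          2 ^ (p - 1) * (2 * (W.card : ℝ) ^ p) *
            ((nrm p φ - nrm p (((lam : ℂ))⁻¹ • Vop u c (m + 1) φ)) / (2 - p)) := by
        rw [hbdef]; ring
      rw [e1]
      have e2 : (2 : ℝ) ^ (p - 1) * ((W.card : ℝ) * nrm p φ +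
          2 * (W.card : ℝ) ^ p * (nrm p φ - win W p φ)) = a * nrm p φ +
          2 ^ (p - 1) * (2 * (W.card : ℝ) ^ p) * (nrm p φ - win W p φ) := by
        rw [hadef]; ring
      rw [e2]
      linarith)
  have i₀ : Fin N := ⟨0, hN⟩
  set ξ : Vec G N := fun x i => if i = i₀ ∧ x ∈ E then 1 else 0 with hξdef
  have hξ : ∀ x i, (i = i₀ ∧ x ∈ E → ξ x i = 1) ∧ (¬ (i = i₀ ∧ x ∈ E) → ξ x i = 0) := by
    intro x i
    constructor
    · intro h; simp only [hξdef]; rw [if_pos h]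
    · intro h; simp only [hξdef]; rw [if_neg h]
  obtain ⟨hξFS, hDFS, hDSC, hξn, hDn⟩ := h8 p hp0 G N c m W E X δ hF i₀ ξ hξ
  obtain ⟨bs, hbs, hlow⟩ := h7 p hp0 G N hN u hu c (m + 1) lam hlam hF.gen (Dad W) ξ hDFS hDSC K
  have hrep := h9 G N u c (m + 1) W lam bs
  have hratio : (N : ℝ) ^ (((m + 1 : ℕ) : ℝ) * (1 - p / 2)) / lam ^ p =
      (1 + δ) ^ (-(1 - p / 2)) := by
    have e1 : lam ^ p = (1 + δ) ^ (1 - p / 2) * ((N : ℝ) ^ (m + 1)) ^ (1 - p / 2) := by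
      rw [hlamdef, ← Real.rpow_mul hbase.le, ← Real.mul_rpow hδ1.le hNm.le]
      congr 1
      field_simp
    have e2 : (N : ℝ) ^ (((m + 1 : ℕ) : ℝ) * (1 - p / 2)) =
        ((N : ℝ) ^ (m + 1)) ^ (1 - p / 2) := by
      rw [Real.rpow_mul (by linarith), Real.rpow_natCast]
    rw [e1, e2, Real.rpow_neg hδ1.le]
    have h3 : (0 : ℝ) < (1 + δ) ^ (1 - p / 2) := Real.rpow_pos_of_pos hδ1 _
    have h4 : (0 : ℝ) < ((N : ℝ) ^ (m + 1)) ^ (1 - p / 2) := Real.rpow_pos_of_pos hNm _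
    field_simp
  set Cc : ℝ := (K : ℝ) ^ (p - 1) * ((K : ℝ) * a + b) with hCdef
  have hKp : (0 : ℝ) < (K : ℝ) ^ (p - 1) := Real.rpow_pos_of_pos (by linarith) _
  have hCpos : 0 < Cc := by
    have : 0 < (K : ℝ) * a + b := by
      have : 0 < (K : ℝ) * a := by positivity
      linarith
    positivity
  have hEpos : (0 : ℝ) < (E.card : ℝ) := by exact_mod_cast hF.hEn.card_pos
  have hEX : (E.card : ℝ) ≤ 2 * (X.card : ℝ) := by exact_mod_cast hF.hE
  have hS0 : 0 ≤ ∑ k ∈ range K, ((1 + δ) ^ (-(1 - p / 2))) ^ k :=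
    Finset.sum_nonneg fun k _ => pow_nonneg (Real.rpow_nonneg hδ1.le _) _
  refine h10 p hp1 G N _ _ hrep Cc R hCpos hR ?_ i₀ ξ hξFS ?_ ?_
  · intro φ hφ
    have := hchain bs φ hφ
    rw [hbs] at this
    exact this
  · intro x i hi
    exact (hξ x i).2 fun h => hi h.1
  · rw [hlow, hξn, hratio]
    have hn := hnum W.card hL
    have h1' : (N : ℝ) * (R * Cc) < (W.card : ℝ) ^ p / 2 *
        ∑ k ∈ range K, ((1 + δ) ^ (-(1 - p / 2))) ^ k := by
      rw [hCdef, hadef, hbdef]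
      exact hn
    calc (N : ℝ) * (R * Cc) * (E.card : ℝ)
        < ((W.card : ℝ) ^ p / 2 * ∑ k ∈ range K, ((1 + δ) ^ (-(1 - p / 2))) ^ k) *
          (E.card : ℝ) := mul_lt_mul_of_pos_right h1' hEpos
      _ = ((E.card : ℝ) / 2 * (W.card : ℝ) ^ p) *
          ∑ k ∈ range K, ((1 + δ) ^ (-(1 - p / 2))) ^ k := by ring
      _ ≤ ((X.card : ℝ) * (W.card : ℝ) ^ p) *
          ∑ k ∈ range K, ((1 + δ) ^ (-(1 - p / 2))) ^ k := by
          refine mul_le_mul_of_nonneg_right ?_ hS0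
          refine mul_le_mul_of_nonneg_right ?_ hWp.le
          linarith
      _ ≤ nrm p (Dad W ξ) * ∑ k ∈ range K, ((1 + δ) ^ (-(1 - p / 2))) ^ k :=
          mul_le_mul_of_nonneg_right hDn hS0

end Pool.Agent.PC
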