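import Pool.Agent.Lib.MP_830418_an.Flat.Stm

open Finset

universe u

namespace Pool.Agent.PC

theorem p_h : S_h.{u} := by
  intro p hp G _ N c m W E X δ hF i₀ ξ hξ
  have h1 : ∀ x ∈ E, ξ x i₀ = 1 := fun x hx => (hξ x i₀).1 ⟨rfl, hx⟩
  have h0 : ∀ x i, i ≠ i₀ → ξ x i = 0 := fun x i hi => (hξ x i).2 fun h => hi h.1
  have hE0 : ∀ x, x ∉ E → ξ x = 0 := fun x hx => by
    funext i
    exact (hξ x i).2 fun h => hx h.2
  have hfs : FS ξ := FS.of_subset E.finite_toSet fun x hx => hE0 x (by simpa using hx)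
  have hD0 : ∀ x i, i ≠ i₀ → Dad W ξ x i = 0 := fun x i hi => by
    rw [Dad_apply]
    exact Finset.sum_eq_zero fun w _ => h0 _ i hi
  refine ⟨hfs, hfs.Dad W, ?_, ?_, ?_⟩
  · intro x i j hij
    by_cases hi : i = i₀
    · right
      exact hD0 x j fun hj => hij (hi.trans hj.symm)
    · left
      exact hD0 x i hi
  · rw [nrm_eq_sum hp hE0]
    have h2 : ∀ x ∈ E, ∑ i, ‖ξ x i‖ ^ p = 1 := by
      intro x hx
      rw [Finset.sum_eq_single i₀]
      · rw [h1 x hx]
        simp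
      · intro i _ hi
        rw [h0 x i hi]
        simp [hp.ne']
      · intro h
        exact absurd (Finset.mem_univ _) h
    rw [Finset.sum_congr rfl h2]
    simp
  · have h3 : ∀ x ∈ X, ((W.card : ℝ)) ^ p ≤ ∑ i, ‖Dad W ξ x i‖ ^ p := by
      intro x hx
      have h4 : Dad W ξ x i₀ = (W.card : ℂ) := by
        rw [Dad_apply]
        rw [Finset.sum_congr rfl fun w hw => h1 _ (hF.hX x hx w hw)]
        simp
      have h5 : ((W.card : ℝ)) ^ p = ‖Dad W ξ x i₀‖ ^ p := by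
        rw [h4]
        simp
      rw [h5]
      exact Finset.single_le_sum (f := fun i => ‖Dad W ξ x i‖ ^ p)
        (fun i _ => Real.rpow_nonneg (norm_nonneg _) _) (Finset.mem_univ i₀)
    calc (X.card : ℝ) * (W.card : ℝ) ^ p = ∑ x ∈ X, (W.card : ℝ) ^ p := by simp
      _ ≤ ∑ x ∈ X, ∑ i, ‖Dad W ξ x i‖ ^ p := Finset.sum_le_sum h3
      _ ≤ nrm p (Dad W ξ) :=
        Summable.sum_le_tsum X
          (fun x _ => Finset.sum_nonneg fun i _ => Real.rpow_nonneg (norm_nonneg _) _)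
          (nrm_summable hp (hfs.Dad W))

end Pool.Agent.PC
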