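import Pool.Agent.Lib.MP_830418_an.Flat.Stm
open Finset
universe u
namespace Pool.Agent.PC

theorem p_had : S_had := by
  intro N hN
  have hN0 : N ≠ 0 := by omega
  set z : ℂ := Complex.exp (2 * Real.pi * Complex.I / N) with hz
  have hprim : IsPrimitiveRoot z N := Complex.isPrimitiveRoot_exp N hN0
  have hnorm : ‖z‖ = 1 := hprim.norm'_eq_one hN0
  have hzz : z * starRingEnd ℂ z = 1 := by
    rw [Complex.mul_conj, Complex.normSq_eq_norm_sq, hnorm]
    norm_num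
  refine ⟨fun i j => z ^ ((i : ℕ) * (j : ℕ)), fun i j => by simp [hnorm], fun i i' => ?_⟩
  have hterm : ∀ j : Fin N, z ^ ((i : ℕ) * (j : ℕ)) * starRingEnd ℂ (z ^ ((i' : ℕ) * (j : ℕ))) =
      (z ^ (i : ℕ) * (starRingEnd ℂ z) ^ (i' : ℕ)) ^ (j : ℕ) := by
    intro j
    rw [map_pow, mul_pow, pow_mul, pow_mul]
  rw [Finset.sum_congr rfl fun j _ => hterm j]
  rw [Fin.sum_univ_eq_sum_range
    (fun j => (z ^ (i : ℕ) * (starRingEnd ℂ z) ^ (i' : ℕ)) ^ j) N]
  by_cases h : i = i'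
  · subst h
    rw [← mul_pow, hzz]
    simp
  · rw [if_neg h]
    have hne : z ^ (i : ℕ) * (starRingEnd ℂ z) ^ (i' : ℕ) ≠ 1 := by
      intro he
      apply h
      have h2 : z ^ (i : ℕ) = z ^ (i' : ℕ) := by
        calc z ^ (i : ℕ) = z ^ (i : ℕ) * (z * starRingEnd ℂ z) ^ (i' : ℕ) := by
              rw [hzz, one_pow, mul_one]
          _ = z ^ (i : ℕ) * (starRingEnd ℂ z) ^ (i' : ℕ) * z ^ (i' : ℕ) := by
              rw [mul_pow]; ring
          _ = z ^ (i' : ℕ) := by rw [he, one_mul]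
      exact Fin.ext (hprim.pow_inj i.2 i'.2 h2)
    have hpow : (z ^ (i : ℕ) * (starRingEnd ℂ z) ^ (i' : ℕ)) ^ N = 1 := by
      rw [mul_pow, ← pow_mul, ← pow_mul, mul_comm (i : ℕ) N, mul_comm (i' : ℕ) N, pow_mul, pow_mul,
        ← map_pow, hprim.pow_eq_one]
      simp
    have hg := mul_neg_geom_sum (z ^ (i : ℕ) * (starRingEnd ℂ z) ^ (i' : ℕ)) N
    rw [hpow, sub_self] at hg
    rcases mul_eq_zero.mp hg with h1 | h1
    · exact absurd (sub_eq_zero.mp h1).symm hne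
    · exact h1

end Pool.Agent.PC
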