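import Pool.Agent.Lib.MP_830418_an.Flat.Stm

/-!
Piece `int`: Stein interpolation for finite matrices.
-/

open Finset

universe u

namespace Pool.Agent.PC

/-- the basic entire function `(c / ‖c‖) ‖c‖^(a + b z)` -/
private noncomputable def ef (c : ℂ) (a b : ℝ) (z : ℂ) : ℂ :=
  if c = 0 then 0 else
    c / ((‖c‖ : ℝ) : ℂ) * Complex.exp (((Real.log ‖c‖ : ℝ) : ℂ) * ((a : ℂ) + (b : ℂ) * z))

private theorem ef_zero (a b : ℝ) (z : ℂ) : ef 0 a b z = 0 := by
  simp [ef]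

private theorem ef_diff (c : ℂ) (a b : ℝ) : Differentiable ℂ (ef c a b) := by
  unfold ef
  split_ifs
  · exact differentiable_const 0
  · fun_prop

private theorem norm_ef {c : ℂ} (hc : c ≠ 0) (a b : ℝ) (z : ℂ) :
    ‖ef c a b z‖ = ‖c‖ ^ (a + b * z.re) := by
  have hn : 0 < ‖c‖ := norm_pos_iff.mpr hc
  unfold ef
  rw [if_neg hc, norm_mul, norm_div, Complex.norm_real, norm_norm, div_self hn.ne', one_mul,
    Complex.norm_exp, Real.rpow_def_of_pos hn]
  congr 1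
  simp

private theorem norm_ef_le (c : ℂ) (a b : ℝ) {z : ℂ} (h0 : 0 ≤ z.re) (h1 : z.re ≤ 1) :
    ‖ef c a b z‖ ≤ Real.exp (|Real.log ‖c‖| * (|a| + |b|)) := by
  by_cases hc : c = 0
  · subst hc
    rw [ef_zero, norm_zero]
    exact (Real.exp_pos _).le
  have hn : 0 < ‖c‖ := norm_pos_iff.mpr hc
  rw [norm_ef hc, Real.rpow_def_of_pos hn]
  refine Real.exp_le_exp.mpr ?_
  refine (le_abs_self _).trans ?_
  rw [abs_mul]
  refine mul_le_mul_of_nonneg_left ?_ (abs_nonneg _)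
  refine (abs_add_le _ _).trans ?_
  rw [abs_mul, abs_of_nonneg h0]
  have := abs_nonneg b
  nlinarith

private theorem ef_real {c : ℂ} (hc : c ≠ 0) (a b t : ℝ) :
    ef c a b (t : ℂ) = c / ((‖c‖ : ℝ) : ℂ) * ((‖c‖ ^ (a + b * t) : ℝ) : ℂ) := by
  have hn : 0 < ‖c‖ := norm_pos_iff.mpr hc
  unfold ef
  rw [if_neg hc, Real.rpow_def_of_pos hn, Complex.ofReal_exp]
  push_cast
  rfl

private theorem ef_one {c : ℂ} {a b t : ℝ} (h : a + b * t = 1) :
    ef c a b (t : ℂ) = c := by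
  by_cases hc : c = 0
  · subst hc
    exact ef_zero _ _ _
  have hn : ((‖c‖ : ℝ) : ℂ) ≠ 0 := by
    exact_mod_cast (norm_pos_iff.mpr hc).ne'
  rw [ef_real hc, h, Real.rpow_one, div_mul_cancel₀ _ hn]

theorem p_int : S_int.{u} := by
  intro p hp1 hp2 ι κ _ _ K η A hA h2
  have hp0 : 0 < p := by linarith
  set v : κ → ℂ := fun k => ∑ i, K k i * η i with hv
  set s : ℝ := ∑ k, ‖v k‖ ^ p with hs
  set B : ℝ := ∑ i, ‖η i‖ ^ p with hB
  have hs0 : 0 ≤ s := Finset.sum_nonneg fun k _ => Real.rpow_nonneg (norm_nonneg _) _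
  have hB0 : 0 ≤ B := Finset.sum_nonneg fun k _ => Real.rpow_nonneg (norm_nonneg _) _
  have hA0 : 0 ≤ A := by
    refine le_trans ?_ (hA (fun i => ((‖η i‖ ^ p : ℝ) : ℂ)) fun i => ?_)
    · exact Finset.sum_nonneg fun k _ => norm_nonneg _
    · rw [Complex.norm_real, Real.norm_of_nonneg (Real.rpow_nonneg (norm_nonneg _) _)]
  rcases hs0.eq_or_lt with hs1 | hs1
  · rw [← hs1]
    positivity
  -- the parameter
  set θ : ℝ := 2 * (p - 1) / p with hθ
  have hθ0 : 0 < θ := by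
    rw [hθ]
    exact div_pos (by linarith) hp0
  have hθ1 : θ < 1 := by
    rw [hθ, div_lt_one hp0]
    linarith
  have hθp : p * θ = 2 * (p - 1) := by
    rw [hθ]
    field_simp
  let Φ : ℂ → ℂ := fun z => ∑ k, ef (starRingEnd ℂ (v k)) 0 (p / 2) z *
    ∑ i, K k i * ef (η i) p (-(p / 2)) z
  have hΦd : Differentiable ℂ Φ := by
    refine Differentiable.fun_sum fun k _ => ?_
    refine (ef_diff _ _ _).mul ?_
    refine Differentiable.fun_sum fun i _ => ?_
    exact (differentiable_const _).mul (ef_diff _ _ _)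
  have hΦb : BddAbove ((norm ∘ Φ) '' Complex.HadamardThreeLines.verticalClosedStrip 0 1) := by
    refine ⟨∑ k, Real.exp (|Real.log ‖starRingEnd ℂ (v k)‖| * (|(0 : ℝ)| + |p / 2|)) *
      ∑ i, ‖K k i‖ * Real.exp (|Real.log ‖η i‖| * (|p| + |(-(p / 2))|)), ?_⟩
    rintro _ ⟨z, hz, rfl⟩
    have hz' : 0 ≤ z.re ∧ z.re ≤ 1 := hz
    simp only [Function.comp_apply]
    refine (norm_sum_le _ _).trans (Finset.sum_le_sum fun k _ => ?_)
    rw [norm_mul]
    refine mul_le_mul (norm_ef_le _ _ _ hz'.1 hz'.2) ?_ (norm_nonneg _) (Real.exp_pos _).le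
    refine (norm_sum_le _ _).trans (Finset.sum_le_sum fun i _ => ?_)
    rw [norm_mul]
    exact mul_le_mul_of_nonneg_left (norm_ef_le _ _ _ hz'.1 hz'.2) (norm_nonneg _)
  have hΦθ : Φ (θ : ℂ) = (s : ℂ) := by
    have h1 : ∀ i, ef (η i) p (-(p / 2)) (θ : ℂ) = η i := fun i => by
      refine ef_one ?_
      linarith
    show (∑ k, ef (starRingEnd ℂ (v k)) 0 (p / 2) (θ : ℂ) *
      ∑ i, K k i * ef (η i) p (-(p / 2)) (θ : ℂ)) = _
    rw [hs, Complex.ofReal_sum]
    refine Finset.sum_congr rfl fun k _ => ?_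
    simp only [h1]
    show _ * v k = _
    by_cases hk : v k = 0
    · rw [hk, norm_zero, Real.zero_rpow hp0.ne']
      simp
    have hk' : starRingEnd ℂ (v k) ≠ 0 := (map_ne_zero _).mpr hk
    have hn : 0 < ‖v k‖ := norm_pos_iff.mpr hk
    have hnc : ((‖v k‖ : ℝ) : ℂ) ≠ 0 := by exact_mod_cast hn.ne'
    have hexp : (0 : ℝ) + p / 2 * θ = p - 1 := by linarith
    rw [ef_real hk', RCLike.norm_conj, hexp]
    have h3 : starRingEnd ℂ (v k) * v k = ((‖v k‖ : ℝ) : ℂ) ^ 2 := by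
      rw [mul_comm, Complex.mul_conj, Complex.normSq_eq_norm_sq]
      push_cast
      ring
    have h4 : (‖v k‖ : ℝ) ^ p = ‖v k‖ * ‖v k‖ ^ (p - 1) := by
      rw [Real.rpow_sub hn, Real.rpow_one]
      field_simp
    rw [h4]
    push_cast
    rw [div_mul_eq_mul_div, div_mul_eq_mul_div, div_eq_iff hnc]
    calc starRingEnd ℂ (v k) * ((‖v k‖ ^ (p - 1) : ℝ) : ℂ) * v k
        = (starRingEnd ℂ (v k) * v k) * ((‖v k‖ ^ (p - 1) : ℝ) : ℂ) := by ring
      _ = _ := by rw [h3]; ring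
  -- the left edge
  have hl : ∀ z ∈ Complex.re ⁻¹' {(0 : ℝ)}, ‖Φ z‖ ≤ A := by
    intro z hz
    have hz0 : z.re = 0 := hz
    refine (norm_sum_le _ _).trans ?_
    refine le_trans (Finset.sum_le_sum fun k _ => ?_) (hA (fun i => ef (η i) p (-(p / 2)) z)
      fun i => ?_)
    · rw [norm_mul]
      refine mul_le_of_le_one_left (norm_nonneg _) ?_
      by_cases hk : v k = 0
      · rw [hk, map_zero, ef_zero, norm_zero]
        exact zero_le_one
      · rw [norm_ef ((map_ne_zero _).mpr hk), hz0]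
        simp
    · by_cases hi : η i = 0
      · rw [hi, ef_zero, norm_zero, Real.zero_rpow hp0.ne']
      · rw [norm_ef hi, hz0]
        simp
  -- the right edge
  have hr : ∀ z ∈ Complex.re ⁻¹' {(1 : ℝ)}, ‖Φ z‖ ≤ Real.sqrt s * Real.sqrt B := by
    intro z hz
    have hz1 : z.re = 1 := hz
    have hsq : ∀ x : ℝ, 0 ≤ x → (x ^ (p / 2)) ^ 2 = x ^ p := fun x hx => by
      rw [← Real.rpow_natCast, ← Real.rpow_mul hx]
      congr 1
      push_cast
      ring
    have hg : ∀ k, ‖ef (starRingEnd ℂ (v k)) 0 (p / 2) z‖ ^ 2 = ‖v k‖ ^ p := fun k => by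
      by_cases hk : v k = 0
      · rw [hk, map_zero, ef_zero, norm_zero, Real.zero_rpow hp0.ne']
        simp
      · rw [norm_ef ((map_ne_zero _).mpr hk), hz1, RCLike.norm_conj, zero_add, mul_one]
        exact hsq _ (norm_nonneg _)
    have he : ∀ i, ‖ef (η i) p (-(p / 2)) z‖ ^ 2 = ‖η i‖ ^ p := fun i => by
      by_cases hi : η i = 0
      · rw [hi, ef_zero, norm_zero, Real.zero_rpow hp0.ne']
        simp
      · rw [norm_ef hi, hz1]
        rw [show p + -(p / 2) * 1 = p / 2 by ring]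
        exact hsq _ (norm_nonneg _)
    refine (norm_sum_le _ _).trans ?_
    simp only [norm_mul]
    refine (Real.sum_mul_le_sqrt_mul_sqrt _ _ _).trans ?_
    refine mul_le_mul ?_ ?_ (Real.sqrt_nonneg _) (Real.sqrt_nonneg _)
    · refine Real.sqrt_le_sqrt (le_of_eq ?_)
      exact Finset.sum_congr rfl fun k _ => hg k
    · refine Real.sqrt_le_sqrt ?_
      refine (h2 _).trans (le_of_eq ?_)
      exact Finset.sum_congr rfl fun i _ => he i
  have h3 := Complex.HadamardThreeLines.norm_le_interp_of_mem_verticalClosedStrip'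
    (f := Φ) (z := (θ : ℂ)) (a := A) (b := Real.sqrt s * Real.sqrt B) (l := 0) (u := 1)
    zero_lt_one (show (θ : ℂ).re ∈ Set.Icc (0 : ℝ) 1 by
      rw [Complex.ofReal_re]; exact ⟨hθ0.le, hθ1.le⟩) hΦd.diffContOnCl hΦb hl hr
  rw [hΦθ, Complex.norm_real, Real.norm_of_nonneg hs0, Complex.ofReal_re, sub_zero, sub_zero,
    div_one] at h3
  -- `s ≤ A^(1-θ) (√s √B)^θ`
  have h4 : (Real.sqrt s * Real.sqrt B) ^ θ = s ^ (θ / 2) * B ^ (θ / 2) := by
    rw [Real.mul_rpow (Real.sqrt_nonneg _) (Real.sqrt_nonneg _), Real.sqrt_eq_rpow,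
      Real.sqrt_eq_rpow, ← Real.rpow_mul hs0, ← Real.rpow_mul hB0]
    congr 2 <;> ring
  rw [h4] at h3
  have h5 : s ^ (1 / p) ≤ A ^ (1 - θ) * B ^ (θ / 2) := by
    have h6 : s ^ (1 / p) * s ^ (θ / 2) = s := by
      rw [← Real.rpow_add hs1]
      have : 1 / p + θ / 2 = 1 := by
        rw [hθ]
        field_simp
        ring
      rw [this, Real.rpow_one]
    have h7 : 0 < s ^ (θ / 2) := Real.rpow_pos_of_pos hs1 _
    refine le_of_mul_le_mul_right ?_ h7
    rw [h6]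
    refine h3.trans (le_of_eq ?_)
    ring
  have h8 : s = (s ^ (1 / p)) ^ p := by
    rw [← Real.rpow_mul hs0, one_div, inv_mul_cancel₀ hp0.ne', Real.rpow_one]
  rw [h8]
  refine (Real.rpow_le_rpow (Real.rpow_nonneg hs0 _) h5 hp0.le).trans (le_of_eq ?_)
  rw [Real.mul_rpow (Real.rpow_nonneg hA0 _) (Real.rpow_nonneg hB0 _), ← Real.rpow_mul hA0,
    ← Real.rpow_mul hB0]
  congr 2
  · linarith
  · linarith

end Pool.Agent.PC
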