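import Pool.Agent.Lib.MP_830418_an.Flat.Stm

/-!
Piece `intV`: Stein interpolation for linear maps on `Vec G N`.
-/

open Finset

universe u

namespace Pool.Agent.PC

/-- the unit vector at `(x, i)` -/
private noncomputable def ev {G : Type u} {N : ℕ} (x : G) (i : Fin N) : Vec G N :=
  open Classical in fun y j => if y = x ∧ j = i then 1 else 0

private theorem fs_ev {G : Type u} [Group G] {N : ℕ} (x : G) (i : Fin N) : FS (ev x i) := by
  classical
  refine FS.of_subset (Set.finite_singleton x) fun y hy => ?_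
  funext j
  have : y ≠ x := hy
  simp [ev, this]

/-- a function on `s × Fin N` extended by zero -/
private noncomputable def exd {G : Type u} {N : ℕ} (s : Finset G) (φ : s × Fin N → ℂ) : Vec G N :=
  ∑ i : s × Fin N, φ i • ev (i.1 : G) i.2

private theorem exd_apply {G : Type u} [Group G] {N : ℕ} (s : Finset G) (φ : s × Fin N → ℂ)
    (x : s) (i : Fin N) : exd s φ (x : G) i = φ (x, i) := by
  classical
  unfold exd
  rw [Finset.sum_apply, Finset.sum_apply]
  rw [Finset.sum_eq_single (x, i)]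
  · simp [ev]
  · rintro ⟨y, j⟩ _ hne
    simp only [Pi.smul_apply, smul_eq_mul, ev]
    rw [if_neg, mul_zero]
    rintro ⟨h1, h2⟩
    exact hne (by rw [Prod.mk.injEq]; exact ⟨Subtype.ext h1.symm, h2.symm⟩)
  · intro h
    exact absurd (Finset.mem_univ _) h

private theorem exd_apply_zero {G : Type u} [Group G] {N : ℕ} (s : Finset G) (φ : s × Fin N → ℂ)
    {x : G} (hx : x ∉ s) : exd s φ x = 0 := by
  classical
  funext i
  unfold exd
  rw [Finset.sum_apply, Finset.sum_apply]
  refine Finset.sum_eq_zero ?_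
  rintro ⟨y, j⟩ _
  simp only [Pi.smul_apply, smul_eq_mul, ev]
  rw [if_neg, mul_zero]
  rintro ⟨h1, h2⟩
  exact hx (h1 ▸ y.2)

private theorem fs_exd {G : Type u} [Group G] {N : ℕ} (s : Finset G) (φ : s × Fin N → ℂ) :
    FS (exd s φ) :=
  FS.of_subset s.finite_toSet fun _ hx => exd_apply_zero s φ hx

private theorem exd_self {G : Type u} [Group G] {N : ℕ} (s : Finset G) (η : Vec G N)
    (h : ∀ x, x ∉ s → η x = 0) : exd s (fun i : s × Fin N => η i.1 i.2) = η := by
  funext x i
  by_cases hx : x ∈ s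
  · exact exd_apply s _ ⟨x, hx⟩ i
  · rw [exd_apply_zero s _ hx, h x hx]

private theorem sum_nrm {G : Type u} [Group G] {N : ℕ} {p : ℝ} (hp : 0 < p) (s : Finset G)
    (ψ : Vec G N) (h : ∀ x, x ∉ s → ψ x = 0) :
    ∑ k : s × Fin N, ‖ψ k.1 k.2‖ ^ p = nrm p ψ := by
  rw [nrm_eq_sum hp h, Fintype.sum_prod_type, ← Finset.sum_coe_sort s]

theorem p_intV (h1 : S_int.{u}) : S_intV.{u} := by
  classical
  intro p hp1 hp2 G _ N T hT hT2 η hη A hA
  have hp0 : 0 < p := by linarith
  have hη' : (Function.support η).Finite := hη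
  set s : Finset G := hη'.toFinset with hs
  have hsη : ∀ x, x ∉ s → η x = 0 := fun x hx => by
    by_contra h
    exact hx (by rw [hs, Set.Finite.mem_toFinset]; exact h)
  have hfin : (⋃ i : s × Fin N, Function.support (T (ev (i.1 : G) i.2))).Finite :=
    Set.finite_iUnion fun i => hT _ (fs_ev _ _)
  set t : Finset G := hfin.toFinset with ht
  let K : t × Fin N → s × Fin N → ℂ := fun k i => T (ev (i.1 : G) i.2) k.1 k.2
  have hTe : ∀ φ : s × Fin N → ℂ, T (exd s φ) = ∑ i : s × Fin N, φ i • T (ev (i.1 : G) i.2) := by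
    intro φ
    unfold exd
    rw [map_sum]
    exact Finset.sum_congr rfl fun i _ => map_smul _ _ _
  have hK : ∀ (φ : s × Fin N → ℂ) (k : t × Fin N), ∑ i, K k i * φ i = T (exd s φ) k.1 k.2 := by
    intro φ k
    rw [hTe, Finset.sum_apply, Finset.sum_apply]
    refine Finset.sum_congr rfl fun i _ => ?_
    simp only [Pi.smul_apply, smul_eq_mul]
    exact mul_comm _ _
  have hT0 : ∀ (φ : s × Fin N → ℂ) (x : G), x ∉ t → T (exd s φ) x = 0 := by
    intro φ x hx
    rw [hTe, Finset.sum_apply]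
    refine Finset.sum_eq_zero fun i _ => ?_
    have : T (ev (i.1 : G) i.2) x = 0 := by
      by_contra h
      refine hx ?_
      rw [ht, Set.Finite.mem_toFinset]
      exact Set.mem_iUnion.mpr ⟨i, h⟩
    rw [Pi.smul_apply, this, smul_zero]
  have hmain := h1 p hp1 hp2 (s × Fin N) (t × Fin N) K (fun i => η i.1 i.2) A ?_ ?_
  · have e1 : ∑ k : t × Fin N, ‖∑ i, K k i * η i.1 i.2‖ ^ p = nrm p (T η) := by
      have h2 := hK (fun i => η i.1 i.2)
      have h3 := hT0 (fun i => η i.1 i.2)
      rw [exd_self s η hsη] at h2 h3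
      rw [← sum_nrm hp0 t (T η) h3]
      exact Finset.sum_congr rfl fun k _ => by rw [h2]
    have e2 : ∑ i : s × Fin N, ‖η i.1 i.2‖ ^ p = nrm p η := sum_nrm hp0 s η hsη
    rw [e1, e2] at hmain
    exact hmain
  · intro α hα
    have h2 := hA (exd s α) (fs_exd s α) fun x i => ?_
    · refine le_trans (le_of_eq ?_) h2
      rw [← sum_nrm one_pos t _ (hT0 α)]
      refine Finset.sum_congr rfl fun k _ => ?_
      rw [hK, Real.rpow_one]
    · by_cases hx : x ∈ s
      · have := hα (⟨x, hx⟩, i)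
        rw [exd_apply s α ⟨x, hx⟩ i]
        exact this
      · rw [exd_apply_zero s α hx, hsη x hx]
        simp [hp0.ne']
  · intro φ
    have h2 := hT2 (exd s φ) (fs_exd s φ)
    rw [← sum_nrm two_pos t _ (hT0 φ), ← sum_nrm two_pos s _ fun x hx => exd_apply_zero s φ hx] at h2
    refine le_trans (le_of_eq ?_) (h2.trans (le_of_eq ?_))
    · refine Finset.sum_congr rfl fun k _ => ?_
      rw [hK, Real.rpow_two]
    · refine Finset.sum_congr rfl fun i _ => ?_
      rw [exd_apply s φ i.1 i.2, Real.rpow_two]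

end Pool.Agent.PC
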