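import Pool.Agent.Lib.MP_830418_an.Flat.Stm

open Finset

universe u

namespace Pool.Agent.PC

private theorem num_pow_lower (p : ℝ) (hp1 : 1 < p) (hp2 : p < 2) (K : ℕ) (hK : 1 ≤ K)
    (k : ℕ) (hk : k ∈ range K) :
    (1 / 2 : ℝ) ≤ ((1 + 1 / (2 * (K : ℝ))) ^ (-(1 - p / 2))) ^ k := by
  have hK0 : (0 : ℝ) < K := by exact_mod_cast hK
  have hd : (0 : ℝ) < 1 / (2 * (K : ℝ)) := by positivity
  set d : ℝ := 1 / (2 * (K : ℝ)) with hdd
  have h1 : (1 : ℝ) ≤ 1 + d := by linarith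
  have h0 : (0 : ℝ) < 1 + d := by linarith
  have hkK : (k : ℝ) ≤ K := by exact_mod_cast (mem_range.1 hk).le
  have hk0 : (0 : ℝ) ≤ k := Nat.cast_nonneg k
  rw [← Real.rpow_natCast, ← Real.rpow_mul h0.le]
  have hexp : -(1 : ℝ) * K ≤ -(1 - p / 2) * k := by nlinarith
  have h2 : (1 + d) ^ (-(1 : ℝ) * K) ≤ (1 + d) ^ (-(1 - p / 2) * (k : ℝ)) :=
    Real.rpow_le_rpow_of_exponent_le h1 hexp
  refine le_trans ?_ h2
  rw [neg_one_mul, Real.rpow_neg h0.le, one_div]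
  refine inv_anti₀ (Real.rpow_pos_of_pos h0 _) ?_
  have h3 : 1 + d ≤ Real.exp d := by
    have := Real.add_one_le_exp d
    linarith
  have h4 : (1 + d) ^ (K : ℝ) ≤ (Real.exp d) ^ (K : ℝ) :=
    Real.rpow_le_rpow h0.le h3 hK0.le
  refine h4.trans ?_
  rw [← Real.exp_mul]
  have h5 : d * K = 1 / 2 := by
    rw [hdd]
    field_simp
  rw [h5]
  have h6 := Real.exp_one_lt_d9
  have h7 : Real.exp (1 / 2) * Real.exp (1 / 2) = Real.exp 1 := by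
    rw [← Real.exp_add]
    norm_num
  nlinarith [Real.exp_pos (1 / 2 : ℝ)]

theorem p_num : S_num := by
  intro p hp1 hp2 N R hR
  set M : ℝ := 4 * (N * R * (2 ^ (p - 1) * (1 + 2 / (2 - p)))) with hM
  have h2p : 0 < 2 - p := by linarith
  have hp1' : 0 < p - 1 := by linarith
  have hN : (0 : ℝ) ≤ N := Nat.cast_nonneg N
  have hM0 : 0 ≤ M := by positivity
  -- choose K
  obtain ⟨K, hK⟩ : ∃ K : ℕ, 1 ≤ K ∧ M < (K : ℝ) ^ (2 - p) := by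
    obtain ⟨n, hn⟩ := exists_nat_gt ((M + 1) ^ (1 / (2 - p)))
    refine ⟨n, ?_, ?_⟩
    · rcases Nat.eq_zero_or_pos n with h | h
      · exfalso
        rw [h] at hn
        have : (0 : ℝ) ≤ (M + 1) ^ (1 / (2 - p)) := Real.rpow_nonneg (by linarith) _
        simp only [Nat.cast_zero] at hn
        linarith
      · exact h
    · have h1 : ((M + 1) ^ (1 / (2 - p))) ^ (2 - p) < (n : ℝ) ^ (2 - p) :=
        Real.rpow_lt_rpow (Real.rpow_nonneg (by linarith) _) hn h2p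
      rw [← Real.rpow_mul (by linarith), one_div_mul_cancel h2p.ne', Real.rpow_one] at h1
      linarith
  obtain ⟨hK1, hKM⟩ := hK
  have hK0 : (0 : ℝ) < K := by exact_mod_cast hK1
  -- choose L₀
  obtain ⟨n, hn⟩ := exists_nat_gt ((K : ℝ) ^ (1 / (p - 1)))
  refine ⟨K, n, 1 / (2 * (K : ℝ)), by positivity, hK1, fun L hL => ?_⟩
  have hLn : (n : ℝ) ≤ L := by exact_mod_cast hL
  have hnpos : (0 : ℝ) < n := lt_of_le_of_lt (Real.rpow_nonneg hK0.le _) hn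
  have hL0 : (0 : ℝ) < L := lt_of_lt_of_le hnpos hLn
  have hKL : (K : ℝ) ≤ (L : ℝ) ^ (p - 1) := by
    have h1 : ((K : ℝ) ^ (1 / (p - 1))) ^ (p - 1) ≤ (L : ℝ) ^ (p - 1) :=
      Real.rpow_le_rpow (Real.rpow_nonneg hK0.le _) (hn.le.trans hLn) hp1'.le
    rwa [← Real.rpow_mul hK0.le, one_div_mul_cancel hp1'.ne', Real.rpow_one] at h1
  have hLp : (L : ℝ) ^ p = (L : ℝ) ^ (p - 1) * L := by
    rw [← Real.rpow_add_one hL0.ne']
    congr 1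
    ring
  have hKLp : (K : ℝ) * L ≤ (L : ℝ) ^ p := by
    rw [hLp]
    exact mul_le_mul_of_nonneg_right hKL hL0.le
  have hLp0 : 0 < (L : ℝ) ^ p := Real.rpow_pos_of_pos hL0 _
  have h2pow : (0 : ℝ) < 2 ^ (p - 1) := Real.rpow_pos_of_pos (by norm_num) _
  have hKp : (0 : ℝ) < (K : ℝ) ^ (p - 1) := Real.rpow_pos_of_pos hK0 _
  -- the left side
  have hleft : (K : ℝ) * (2 ^ (p - 1) * L) + 2 ^ (p - 1) * (2 * (L : ℝ) ^ p) / (2 - p) ≤
      (L : ℝ) ^ p * (2 ^ (p - 1) * (1 + 2 / (2 - p))) := by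
    have h1 : (K : ℝ) * (2 ^ (p - 1) * L) ≤ 2 ^ (p - 1) * (L : ℝ) ^ p := by
      calc (K : ℝ) * (2 ^ (p - 1) * L) = 2 ^ (p - 1) * ((K : ℝ) * L) := by ring
        _ ≤ 2 ^ (p - 1) * (L : ℝ) ^ p := mul_le_mul_of_nonneg_left hKLp h2pow.le
    have h2 : (L : ℝ) ^ p * (2 ^ (p - 1) * (1 + 2 / (2 - p))) =
        2 ^ (p - 1) * (L : ℝ) ^ p + 2 ^ (p - 1) * (2 * (L : ℝ) ^ p) / (2 - p) := by
      field_simp
    rw [h2]
    linarith
  have hl : N * (R * ((K : ℝ) ^ (p - 1) * ((K : ℝ) * (2 ^ (p - 1) * L) +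
        2 ^ (p - 1) * (2 * (L : ℝ) ^ p) / (2 - p)))) ≤
      (L : ℝ) ^ p / 4 * ((K : ℝ) ^ (p - 1) * M) := by
    calc N * (R * ((K : ℝ) ^ (p - 1) * ((K : ℝ) * (2 ^ (p - 1) * L) +
        2 ^ (p - 1) * (2 * (L : ℝ) ^ p) / (2 - p))))
        ≤ N * (R * ((K : ℝ) ^ (p - 1) * ((L : ℝ) ^ p * (2 ^ (p - 1) * (1 + 2 / (2 - p)))))) :=
          mul_le_mul_of_nonneg_left (mul_le_mul_of_nonneg_left
            (mul_le_mul_of_nonneg_left hleft hKp.le) hR) hN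
      _ = (L : ℝ) ^ p / 4 * ((K : ℝ) ^ (p - 1) * M) := by
          rw [hM]
          ring
  have hKK : (K : ℝ) ^ (p - 1) * (K : ℝ) ^ (2 - p) = K := by
    rw [← Real.rpow_add hK0]
    have : p - 1 + (2 - p) = 1 := by ring
    rw [this, Real.rpow_one]
  have hm : (L : ℝ) ^ p / 4 * ((K : ℝ) ^ (p - 1) * M) < (L : ℝ) ^ p / 4 * K := by
    refine mul_lt_mul_of_pos_left ?_ (by positivity)
    rw [← hKK]
    nth_rewrite 1 [hKK]
    exact mul_lt_mul_of_pos_left hKM hKp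
  have hs : (K : ℝ) * (1 / 2) ≤
      ∑ k ∈ range K, ((1 + 1 / (2 * (K : ℝ))) ^ (-(1 - p / 2))) ^ k := by
    have := Finset.card_nsmul_le_sum (range K)
      (fun k => ((1 + 1 / (2 * (K : ℝ))) ^ (-(1 - p / 2))) ^ k) (1 / 2)
      (fun k hk => num_pow_lower p hp1 hp2 K hK1 k hk)
    rw [card_range, nsmul_eq_mul] at this
    exact this
  calc N * (R * ((K : ℝ) ^ (p - 1) * ((K : ℝ) * (2 ^ (p - 1) * L) +
        2 ^ (p - 1) * (2 * (L : ℝ) ^ p) / (2 - p))))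
      ≤ (L : ℝ) ^ p / 4 * ((K : ℝ) ^ (p - 1) * M) := hl
    _ < (L : ℝ) ^ p / 4 * K := hm
    _ = (L : ℝ) ^ p / 2 * ((K : ℝ) * (1 / 2)) := by ring
    _ ≤ _ := mul_le_mul_of_nonneg_left hs (by positivity)

end Pool.Agent.PC
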