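import Pool.Agent.Lib.MP_830418_an.Flat.Stm

open Finset

universe u

namespace Pool.Agent.PC

theorem p_pig : S_pig.{u} := by
  classical
  intro G _ h
  by_cases hA : ∀ n : ℕ, ∃ a : G, ∀ k : ℕ, 0 < k → k ≤ n → NonFC (a ^ k)
  · exact Or.inl hA
  right
  push Not at hA
  obtain ⟨n₀, hn₀⟩ := hA
  -- the predicate
  obtain ⟨C, hC⟩ : ∃ C : ℕ → ℕ → Prop, C = fun l n => ∃ H : Subgroup G, Finite H ∧
    l ^ n ∣ Nat.card H ∧ ∀ x ∈ H, x ≠ 1 → NonFC x := ⟨_, rfl⟩
  have hmono : ∀ l n m, m ≤ n → C l n → C l m := by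
    intro l n m hmn hl
    rw [hC] at hl ⊢
    obtain ⟨H, h1, h2, h3⟩ := hl
    exact ⟨H, h1, (pow_dvd_pow l hmn).trans h2, h3⟩
  have hkey : ∀ n, ∃ l, l.Prime ∧ l ≤ n₀ ∧ C l n := by
    intro n
    obtain ⟨H, hfin, hcard, hH⟩ : ∃ H : Subgroup G, Finite H ∧
        max n₀ ((n₀ ^ n) ^ n₀ + 1) ≤ Nat.card H ∧ ∀ x ∈ H, x ≠ 1 → NonFC x := by
      rcases h (max n₀ ((n₀ ^ n) ^ n₀ + 1)) with ⟨a, ha⟩ | h1
      · exfalso
        obtain ⟨k, hk0, hk1, hk2⟩ := hn₀ a
        exact hk2 (ha k hk0 (hk1.trans (le_max_left _ _)))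
      · exact h1
    have hprime : ∀ p, p.Prime → p ∣ Nat.card H → p ≤ n₀ := by
      intro p hp hpd
      have := Fact.mk hp
      obtain ⟨x, hx⟩ := exists_prime_orderOf_dvd_card' p hpd
      obtain ⟨k, hk0, hk1, hk2⟩ := hn₀ (x : G)
      have h1 : (x : G) ^ k = 1 := by
        by_contra h2
        exact hk2 (hH _ (H.pow_mem x.2 k) h2)
      have h3 : x ^ k = 1 := by
        apply Subtype.ext
        push_cast
        exact h1
      have h4 : p ∣ k := by
        rw [← hx]
        exact orderOf_dvd_of_pow_eq_one h3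
      exact (Nat.le_of_dvd hk0 h4).trans hk1
    by_contra hcon
    push Not at hcon
    have hcard0 : Nat.card H ≠ 0 := by
      have : (n₀ ^ n) ^ n₀ + 1 ≤ Nat.card H := (le_max_right _ _).trans hcard
      omega
    have hle : Nat.card H ≤ (n₀ ^ n) ^ n₀ := by
      by_cases h00 : n₀ = 0
      · -- no primes
        have : Nat.card H = 1 := by
          by_contra hne
          obtain ⟨p, hp, hpd⟩ := Nat.exists_prime_and_dvd hne
          have := hprime p hp hpd
          have := hp.pos
          omega
        rw [this, h00]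
        simp
      · have hpos : 0 < n₀ ^ n := pow_pos (Nat.pos_of_ne_zero h00) n
        calc Nat.card H = ∏ p ∈ (Nat.card H).primeFactors, p ^ (Nat.card H).factorization p :=
              Nat.prod_primeFactors_pow_factorization hcard0
          _ ≤ ∏ _p ∈ (Nat.card H).primeFactors, n₀ ^ n := by
              refine Finset.prod_le_prod' fun p hp => ?_
              have hp1 := Nat.prime_of_mem_primeFactors hp
              have hp2 := Nat.dvd_of_mem_primeFactors hp
              have hp3 := hprime p hp1 hp2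
              have hp4 : (Nat.card H).factorization p ≤ n := by
                by_contra hlt
                push Not at hlt
                refine hcon p hp1 hp3 ?_
                rw [hC]
                exact ⟨H, hfin, (hp1.pow_dvd_iff_le_factorization hcard0).2 hlt.le, hH⟩
              calc p ^ (Nat.card H).factorization p ≤ n₀ ^ (Nat.card H).factorization p :=
                    Nat.pow_le_pow_left hp3 _
                _ ≤ n₀ ^ n := Nat.pow_le_pow_right (Nat.pos_of_ne_zero h00) hp4
          _ = (n₀ ^ n) ^ (Nat.card H).primeFactors.card := by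
              rw [Finset.prod_const]
          _ ≤ (n₀ ^ n) ^ n₀ := by
              refine Nat.pow_le_pow_right hpos ?_
              have hsub : (Nat.card H).primeFactors ⊆ Finset.Icc 1 n₀ := by
                intro p hp
                have hp1 := Nat.prime_of_mem_primeFactors hp
                have hp2 := Nat.dvd_of_mem_primeFactors hp
                exact Finset.mem_Icc.2 ⟨hp1.pos, hprime p hp1 hp2⟩
              have := Finset.card_le_card hsub
              rw [Nat.card_Icc] at this
              omega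
    have : (n₀ ^ n) ^ n₀ + 1 ≤ Nat.card H := (le_max_right _ _).trans hcard
    omega
  have hl : ∃ l, l.Prime ∧ ∀ n, C l n := by
    by_contra hcon
    push Not at hcon
    -- bounds
    have hb : ∀ l, ∃ n, l.Prime → ¬ C l n := by
      intro l
      by_cases hlp : l.Prime
      · obtain ⟨n, hn⟩ := hcon l hlp
        exact ⟨n, fun _ => hn⟩
      · exact ⟨0, fun h => absurd h hlp⟩
    choose f hf using hb
    obtain ⟨l, hlp, hle, hCl⟩ := hkey ((Finset.range (n₀ + 1)).sup f)
    refine hf l hlp (hmono l _ _ ?_ hCl)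
    exact Finset.le_sup (f := f) (Finset.mem_range.2 (by omega))
  obtain ⟨l, hlp, hl⟩ := hl
  refine ⟨l, hlp, fun n => ?_⟩
  have h1 := hl n
  rw [hC] at h1
  obtain ⟨H, hfin, hdvd, hH⟩ := h1
  have := Fact.mk hlp
  obtain ⟨K, hK⟩ := Sylow.exists_subgroup_card_pow_prime l hdvd
  refine ⟨K.map H.subtype, n, le_rfl, ?_, ?_⟩
  · rw [Subgroup.card_map_of_injective H.subtype_injective]
    exact hK
  · rintro _ ⟨x, hx, rfl⟩ hne
    exact hH _ x.2 hne

end Pool.Agent.PC
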