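import Pool.Agent.Lib.MP_830418_an.Flat.Stm

open Finset

universe u

namespace Pool.Agent.PC

private lemma rep2_id (h1 : S_rep1.{u}) (G : Type u) [Group G] (N : ℕ) :
    Rep (LinearMap.id : Vec G N →ₗ[ℂ] Vec G N) LinearMap.id := by
  have h := (h1 G N).1 1
  have e : (tr (N := N) (1 : G)) = LinearMap.id := by
    apply LinearMap.ext
    intro φ
    funext x
    show φ (1⁻¹ * x) = φ x
    rw [inv_one, one_mul]
  rw [inv_one, e] at h
  exact h

theorem p_rep2 (h1 : S_rep1.{u}) : S_rep2.{u} := by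
  intro G _ N u c m W lam bs
  obtain ⟨htr, hR, hD, h0, hadd, hsm, hcomp⟩ := h1 G N
  have hV : ∀ m : ℕ, Rep (Vop u c m) (Vad u c m) := by
    intro m
    induction m with
    | zero => exact rep2_id h1 G N
    | succ m ih => exact hcomp _ _ _ _ ih (hR u (c m))
  induction bs with
  | nil => exact h0
  | cons b bs ih =>
    have hA := hcomp _ _ _ _ (hD W) (htr b)
    have hB := hcomp _ _ _ _ ih (hsm lam⁻¹ _ _ (hcomp _ _ _ _ (hV m) (htr b)))
    have hC := hadd _ _ _ _ hA hB
    have e : (tr b⁻¹).comp (Dad W) +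
        ((((lam⁻¹ : ℝ) : ℂ)) • ((tr b⁻¹).comp (Vad u c m))).comp
          (Fad (Vad u c m) (Dad W) lam bs) = Fad (Vad u c m) (Dad W) lam (b :: bs) := by
      show _ = (tr b⁻¹).comp (Dad W + ((lam : ℂ))⁻¹ • ((Vad u c m).comp
        (Fad (Vad u c m) (Dad W) lam bs)))
      rw [LinearMap.comp_add, LinearMap.comp_smul, LinearMap.smul_comp, LinearMap.comp_assoc,
        Complex.ofReal_inv]
    rw [e] at hC
    have e' : (Dop W).comp (tr b) + (Fop (Vop u c m) (Dop W) lam bs).comp
        ((((lam⁻¹ : ℝ) : ℂ)) • ((Vop u c m).comp (tr b))) =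
        Fop (Vop u c m) (Dop W) lam (b :: bs) := by
      rw [Complex.ofReal_inv]
      rfl
    rw [e'] at hC
    exact hC

end Pool.Agent.PC
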