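import Pool.Agent.Lib.MP_830418_an.Flat.Stm

open Finset

universe u

namespace Pool.Agent.PC

private theorem sub_chain {Q : Type u} [Group Q] (l : ℕ) (hl : l.Prime) (k : ℕ)
    (hk : Nat.card Q = l ^ k) :
    ∃ H : ℕ → Subgroup Q, (∀ s ≤ k, Nat.card (H s) = l ^ s) ∧ ∀ s < k, H s ≤ H (s + 1) := by
  classical
  have := Fact.mk hl
  have hfin : Finite Q := Nat.finite_of_card_ne_zero (by
    rw [hk]
    exact pow_ne_zero _ hl.ne_zero)
  obtain ⟨step, hstep⟩ : ∃ step : Subgroup Q → Subgroup Q, ∀ K : Subgroup Q, ∀ s < k,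
      Nat.card K = l ^ s → Nat.card (step K) = l ^ (s + 1) ∧ K ≤ step K := by
    have h1 : ∀ K : Subgroup Q, ∃ K' : Subgroup Q, ∀ s < k, Nat.card K = l ^ s →
        Nat.card K' = l ^ (s + 1) ∧ K ≤ K' := by
      intro K
      by_cases h2 : ∃ s < k, Nat.card K = l ^ s
      · obtain ⟨s, hs, hK⟩ := h2
        obtain ⟨K', h3, h4⟩ := Sylow.exists_subgroup_card_pow_succ (G := Q) (p := l) (n := s)
          (by rw [hk]; exact pow_dvd_pow l hs) hK
        refine ⟨K', fun s' _ hs' => ?_⟩
        have : s = s' := Nat.pow_right_injective hl.two_le (hK.symm.trans hs')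
        rw [← this]
        exact ⟨h3, h4⟩
      · push Not at h2
        exact ⟨K, fun s hs h => absurd h (h2 s hs)⟩
    choose step hstep using h1
    exact ⟨step, hstep⟩
  have hcard : ∀ s ≤ k, Nat.card (step^[s] (⊥ : Subgroup Q)) = l ^ s := by
    intro s
    induction s with
    | zero =>
      intro _
      simp
    | succ s ih =>
      intro hs
      rw [Function.iterate_succ_apply']
      exact (hstep _ s (by omega) (ih (by omega))).1
  refine ⟨fun s => step^[s] ⊥, hcard, fun s hs => ?_⟩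
  dsimp only
  rw [Function.iterate_succ_apply']
  exact (hstep _ s hs (hcard s hs.le)).2

private theorem sub_reps {G : Type u} [Group G] (l : ℕ) (hl : l.Prime) (s : ℕ) (H K : Subgroup G)
    (hHK : H ≤ K) (hH : Nat.card H = l ^ s) (hK : Nat.card K = l ^ (s + 1)) :
    (∀ g ∈ K, ∀ h ∈ H, g⁻¹ * h * g ∈ H) ∧
      ∃ c : Fin l → G, (∀ i, c i ∈ K) ∧ ∀ i j, c i * (c j)⁻¹ ∈ H → i = j := by
  have hfin : Finite K := Nat.finite_of_card_ne_zero (by
    rw [hK]
    exact pow_ne_zero _ hl.ne_zero)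
  have hc : Nat.card (H.subgroupOf K) = l ^ s := by
    rw [Nat.card_congr (Subgroup.subgroupOfEquivOfLe hHK).toEquiv]
    exact hH
  have hidx : (H.subgroupOf K).index = l := by
    have h1 := (H.subgroupOf K).card_mul_index
    rw [hc, hK, pow_succ] at h1
    exact mul_left_cancel₀ (pow_ne_zero _ hl.ne_zero) h1
  have hnorm : (H.subgroupOf K).Normal := by
    apply Subgroup.normal_of_index_eq_minFac_card
    rw [hidx, hK, Nat.pow_minFac (Nat.succ_ne_zero s), hl.minFac_eq]
  refine ⟨?_, ?_⟩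
  · intro g hg h hh
    have h1 := hnorm.conj_mem ⟨h, hHK hh⟩ (by
      rw [Subgroup.mem_subgroupOf]
      exact hh) ⟨g, hg⟩⁻¹
    rw [Subgroup.mem_subgroupOf] at h1
    simpa using h1
  · have hq : Nat.card (K ⧸ H.subgroupOf K) = l := hidx
    have hfq : Finite (K ⧸ H.subgroupOf K) := inferInstance
    have e := Finite.equivFinOfCardEq hq
    refine ⟨fun i => (((e.symm i).out : K) : G)⁻¹, fun i => K.inv_mem (e.symm i).out.2, ?_⟩
    intro i j hij
    rw [inv_inv] at hij
    have h1 : ((e.symm i).out : K)⁻¹ * (e.symm j).out ∈ H.subgroupOf K := by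
      rw [Subgroup.mem_subgroupOf]
      exact hij
    have h2 := QuotientGroup.eq.2 h1
    rw [QuotientGroup.out_eq', QuotientGroup.out_eq'] at h2
    exact e.symm.injective h2

theorem p_sub : S_sub.{u} := by
  classical
  intro G _ l hl hyp L₀ δ hδ
  obtain ⟨P, k, hk, hPc, hP⟩ := hyp (L₀ + 1)
  obtain ⟨m, hm⟩ : ∃ m, m = L₀ := ⟨_, rfl⟩
  obtain ⟨H₀, hc₀, hle₀⟩ := sub_chain (Q := P) l hl k hPc
  obtain ⟨H, hH⟩ : ∃ H : ℕ → Subgroup G, H = fun s => (H₀ s).map P.subtype := ⟨_, rfl⟩
  have hHc : ∀ s ≤ k, Nat.card (H s) = l ^ s := by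
    intro s hs
    rw [hH]
    dsimp only
    rw [Subgroup.card_map_of_injective P.subtype_injective]
    exact hc₀ s hs
  have hHle : ∀ s < k, H s ≤ H (s + 1) := by
    intro s hs
    rw [hH]
    exact Subgroup.map_mono (hle₀ s hs)
  have hHP : ∀ s, H s ≤ P := by
    intro s
    rw [hH]
    rintro _ ⟨x, _, rfl⟩
    exact x.2
  have hreps : ∀ s, ∃ c : Fin l → G, s < m + 1 → (∀ i, c i ∈ H (s + 1)) ∧
      ∀ i j, c i * (c j)⁻¹ ∈ H s → i = j := by
    intro s
    by_cases hs : s < m + 1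
    · obtain ⟨-, c, h1, h2⟩ := sub_reps l hl s (H s) (H (s + 1)) (hHle s (by omega))
        (hHc s (by omega)) (hHc (s + 1) (by omega))
      exact ⟨c, fun _ => ⟨h1, h2⟩⟩
    · exact ⟨fun _ => 1, fun h => absurd h hs⟩
  choose c hc using hreps
  have hpr : ∀ s ≤ m + 1, ∀ t : ℕ → Fin l, pr c s t ∈ H s := by
    intro s
    induction s with
    | zero =>
      intro _ t
      rw [pr]
      exact (H 0).one_mem
    | succ s ih =>
      intro hs t
      rw [pr]
      exact (H (s + 1)).mul_mem (hHle s (by omega) (ih (by omega) t)) ((hc s (by omega)).1 _)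
  have hinj : ∀ s ≤ m + 1, ∀ t t' : ℕ → Fin l, pr c s t = pr c s t' → ∀ j < s, t j = t' j := by
    intro s
    induction s with
    | zero =>
      intro _ t t' _ j hj
      exact absurd hj (Nat.not_lt_zero j)
    | succ s ih =>
      intro hs t t' h j hj
      rw [pr, pr] at h
      have h1 : c s (t s) * (c s (t' s))⁻¹ ∈ H s := by
        have h2 : c s (t s) * (c s (t' s))⁻¹ = (pr c s t)⁻¹ * pr c s t' := by
          rw [eq_inv_mul_iff_mul_eq, ← mul_assoc, h]
          group
        rw [h2]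
        exact (H s).mul_mem ((H s).inv_mem (hpr s (by omega) t)) (hpr s (by omega) t')
      have h3 := (hc s (by omega)).2 _ _ h1
      rw [h3] at h
      rcases Nat.lt_succ_iff_lt_or_eq.1 hj with h4 | h4
      · exact ih (by omega) t t' (mul_right_cancel h) j h4
      · rw [h4]
        exact h3
  have hfin : Finite (H m) := Nat.finite_of_card_ne_zero (by
    rw [hHc m (by omega)]
    exact pow_ne_zero _ hl.ne_zero)
  have hfs : (H m : Set G).Finite := Set.toFinite _
  have hcard : hfs.toFinset.card = l ^ m := by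
    rw [← Set.ncard_eq_toFinset_card (H m : Set G) hfs, ← Nat.card_coe_set_eq]
    exact hHc m (by omega)
  have hmemW : ∀ x, x ∈ hfs.toFinset ↔ x ∈ H m := by
    intro x
    rw [Set.Finite.mem_toFinset]
    rfl
  have hne : hfs.toFinset.Nonempty := ⟨1, (hmemW 1).2 (H m).one_mem⟩
  refine ⟨m, c, hfs.toFinset, hfs.toFinset, hfs.toFinset, ?_, ?_⟩
  · rw [hcard, ← hm]
    exact (Nat.lt_pow_self hl.one_lt).le
  refine ⟨?_, ?_, hne, ?_, ?_, hne⟩
  · intro i
    refine ⟨hfs.toFinset.image fun h => c m i * h, ?_, ?_⟩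
    · have h1 := Finset.card_image_le (s := hfs.toFinset) (f := fun h => c m i * h)
      rw [hcard] at h1
      have h2 : ((hfs.toFinset.image fun h => c m i * h).card : ℝ) ≤ (l : ℝ) ^ m := by
        exact_mod_cast h1
      have h3 : 0 ≤ δ * (l : ℝ) ^ m := by positivity
      linarith
    · intro t w hw
      rw [hmemW] at hw
      rw [Finset.mem_image]
      refine ⟨(c m i)⁻¹ * pr c m t * c m i * w, ?_, by group⟩
      rw [hmemW]
      refine (H m).mul_mem ?_ hw
      obtain ⟨h1, -⟩ := sub_reps l hl m (H m) (H (m + 1)) (hHle m (by omega))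
        (hHc m (by omega)) (hHc (m + 1) (by omega))
      exact h1 _ ((hc m (by omega)).1 i) _ (hpr m (by omega) t)
  · intro t s hts
    apply hP
    · exact P.mul_mem (hHP _ (hpr (m + 1) le_rfl t)) (P.inv_mem (hHP _ (hpr (m + 1) le_rfl s)))
    · intro h
      obtain ⟨j, hj, hj'⟩ := hts
      exact hj' (hinj (m + 1) le_rfl t s (mul_inv_eq_one.1 h) j hj)
  · intro x hx w hw
    rw [hmemW] at hx hw ⊢
    exact (H m).mul_mem ((H m).inv_mem hw) hx
  · omega

end Pool.Agent.PC
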