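import Pool.Agent.Lib.MP_830418_an.Flat.Stm
open Finset
universe u
namespace Pool.Agent.PC

private theorem sqrt_sum_le {ι : Type*} (s : Finset ι) (a : ι → ℝ) (ha : ∀ w ∈ s, 0 ≤ a w) :
    Real.sqrt (∑ w ∈ s, (a w) ^ 2) ≤ ∑ w ∈ s, a w := by
  have h0 : 0 ≤ ∑ w ∈ s, a w := Finset.sum_nonneg ha
  refine (Real.sqrt_le_iff).2 ⟨h0, ?_⟩
  have h1 : ∑ w ∈ s, (a w) ^ 2 ≤ ∑ w ∈ s, a w * ∑ v ∈ s, a v := by
    refine Finset.sum_le_sum fun w hw => ?_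
    rw [sq]
    exact mul_le_mul_of_nonneg_left (Finset.single_le_sum ha hw) (ha w hw)
  rw [← Finset.sum_mul, ← sq] at h1
  exact h1

theorem p_win : S_win.{u} := by
  intro G _ N W hW p hp φ hφ
  have hf : Summable fun x => ∑ i, ‖φ x i‖ ^ p := nrm_summable hp hφ
  have hfw : ∀ w : G, Summable fun x => ∑ i, ‖φ (w * x) i‖ ^ p := fun w =>
    (Equiv.mulLeft w).summable_iff (f := fun x => ∑ i, ‖φ x i‖ ^ p) |>.2 hf
  have hfe : ∀ w : G, ∑' x, ∑ i, ‖φ (w * x) i‖ ^ p = nrm p φ := fun w =>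
    (Equiv.mulLeft w).tsum_eq fun x => ∑ i, ‖φ x i‖ ^ p
  have hcomm : (fun x => ∑ i, ∑ w ∈ W, ‖φ (w * x) i‖ ^ p) =
      fun x => ∑ w ∈ W, ∑ i, ‖φ (w * x) i‖ ^ p := by
    funext x
    exact Finset.sum_comm
  have hS2 : Summable fun x => ∑ i, ∑ w ∈ W, ‖φ (w * x) i‖ ^ p := by
    rw [hcomm]
    exact summable_sum fun w _ => hfw w
  have hE2 : ∑' x, ∑ i, ∑ w ∈ W, ‖φ (w * x) i‖ ^ p = W.card * nrm p φ := by
    rw [hcomm, Summable.tsum_finsetSum fun w _ => hfw w, Finset.sum_congr rfl fun w _ => hfe w,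
      Finset.sum_const, nsmul_eq_mul]
  have hle : ∀ x, ∑ i, Real.sqrt (∑ w ∈ W, (‖φ (w * x) i‖ ^ p) ^ 2) ≤
      ∑ i, ∑ w ∈ W, ‖φ (w * x) i‖ ^ p := fun x =>
    Finset.sum_le_sum fun i _ => sqrt_sum_le W _ fun w _ => Real.rpow_nonneg (norm_nonneg _) _
  have hnn : ∀ x, 0 ≤ ∑ i, Real.sqrt (∑ w ∈ W, (‖φ (w * x) i‖ ^ p) ^ 2) := fun x =>
    Finset.sum_nonneg fun i _ => Real.sqrt_nonneg _
  have hS1 : Summable fun x => ∑ i, Real.sqrt (∑ w ∈ W, (‖φ (w * x) i‖ ^ p) ^ 2) :=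
    Summable.of_nonneg_of_le hnn hle hS2
  have hL : (0 : ℝ) < W.card := by exact_mod_cast hW.card_pos
  refine ⟨hS1, hS2, hE2, ?_, ?_, ?_⟩
  · exact mul_nonneg (inv_nonneg.2 hL.le) (tsum_nonneg hnn)
  · unfold win
    rw [inv_mul_le_iff₀ hL, ← hE2]
    exact Summable.tsum_le_tsum hle hS1 hS2
  · intro α hα
    unfold win
    congr 1
    refine tsum_congr fun x => Finset.sum_congr rfl fun i _ => ?_
    congr 1
    refine Finset.sum_congr rfl fun w _ => ?_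
    rw [Real.rpow_one, hα]

end Pool.Agent.PC
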