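import Pool.Agent.Lib.MP_830418_an.Flat.P_D
import Pool.Agent.Lib.MP_830418_an.Flat.P_Dw
import Pool.Agent.Lib.MP_830418_an.Flat.P_L1
import Pool.Agent.Lib.MP_830418_an.Flat.P_L1w
import Pool.Agent.Lib.MP_830418_an.Flat.P_V2
import Pool.Agent.Lib.MP_830418_an.Flat.P_Vad
import Pool.Agent.Lib.MP_830418_an.Flat.P_Vad1
import Pool.Agent.Lib.MP_830418_an.Flat.P_Vsupp
import Pool.Agent.Lib.MP_830418_an.Flat.P_ban
import Pool.Agent.Lib.MP_830418_an.Flat.P_chain
import Pool.Agent.Lib.MP_830418_an.Flat.P_cyc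
import Pool.Agent.Lib.MP_830418_an.Flat.P_diss
import Pool.Agent.Lib.MP_830418_an.Flat.P_dual
import Pool.Agent.Lib.MP_830418_an.Flat.P_ext
import Pool.Agent.Lib.MP_830418_an.Flat.P_fin
import Pool.Agent.Lib.MP_830418_an.Flat.P_h
import Pool.Agent.Lib.MP_830418_an.Flat.P_had
import Pool.Agent.Lib.MP_830418_an.Flat.P_hold
import Pool.Agent.Lib.MP_830418_an.Flat.P_int
import Pool.Agent.Lib.MP_830418_an.Flat.P_intV
import Pool.Agent.Lib.MP_830418_an.Flat.P_low
import Pool.Agent.Lib.MP_830418_an.Flat.P_neu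
import Pool.Agent.Lib.MP_830418_an.Flat.P_num
import Pool.Agent.Lib.MP_830418_an.Flat.P_pig
import Pool.Agent.Lib.MP_830418_an.Flat.P_rep1
import Pool.Agent.Lib.MP_830418_an.Flat.P_rep2
import Pool.Agent.Lib.MP_830418_an.Flat.P_sub
import Pool.Agent.Lib.MP_830418_an.Flat.P_win
import Pool.Agent.Lib.MP_830418_an.Flat.Asm

/-!
The theorem with all pieces filled in.
-/

namespace Pool.Agent.PC

universe u

theorem t_int : S_int.{u} := p_int
theorem t_intV : S_intV.{u} := p_intV t_int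
theorem t_V2 : S_V2.{u} := p_V2
theorem t_Vsupp : S_Vsupp.{u} := p_Vsupp
theorem t_L1w : S_L1w.{u} := p_L1w t_V2 t_Vsupp
theorem t_L1 : S_L1.{u} := p_L1 t_L1w
theorem t_win : S_win.{u} := p_win
theorem t_D : S_D.{u} := p_D p_Dw t_win
theorem t_diss : S_diss.{u} := p_diss t_intV t_V2 t_L1 t_win
theorem t_chain : S_chain.{u} := p_chain p_hold
theorem t_low : S_low.{u} := p_low (p_Vad p_Vad1) p_neu
theorem t_rep2 : S_rep2.{u} := p_rep2 p_rep1
theorem t_fin : S_fin.{u} :=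
  p_fin p_num p_had t_diss t_D t_win t_chain t_low p_h t_rep2 p_ext

/-- Let `G` be a group such that for every `n` either some `a` has `a, ..., a^n` all with infinitely
many conjugates, or some finite subgroup of order at least `n` has all its nonidentity elements with
infinitely many conjugates.  Then for all `1 < p`, `p ≠ 2` some `p`-convolver `f` has `f^*` not a
`p`-convolver. -/
theorem final (G : Type u) [Group G]
    (h : ∀ n : ℕ, (∃ a : G, ∀ k : ℕ, 0 < k → k ≤ n → NonFC (a ^ k)) ∨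
      ∃ H : Subgroup G, Finite H ∧ n ≤ Nat.card H ∧ ∀ x ∈ H, x ≠ 1 → NonFC x)
    (p : ℝ) (hp : 1 < p) (hp2 : p ≠ 2) :
    ∃ f : G → ℂ, (∃ C : ℝ, ConvLe p C f) ∧ ¬ ∃ C : ℝ, ConvLe p C (cst f) :=
  asm t_fin p_ban p_dual p_cyc p_sub p_pig G h p hp hp2

end Pool.Agent.PC
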