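import Pool.Agent.Lib.MP_830418_an.Flat.Stm

open Finset

universe u

namespace Pool.Agent.PC

theorem p_D (h1 : S_Dw.{u}) (h2 : S_win.{u}) : S_D.{u} := by
  intro p hp1 hp2 G _ N W hW φ hφ
  have hp0 : 0 < p := by linarith
  obtain ⟨s1, s2, e2, -, -, -⟩ := h2 G N W hW p hp0 φ hφ
  have hL : (0 : ℝ) < W.card := by exact_mod_cast hW.card_pos
  have key : ∀ x i, ‖Dop W φ x i‖ ^ p ≤ 2 ^ (p - 1) *
      (∑ w ∈ W, ‖φ (w * x) i‖ ^ p + 2 * (W.card : ℝ) ^ (p - 1) *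
        (∑ w ∈ W, ‖φ (w * x) i‖ ^ p - Real.sqrt (∑ w ∈ W, (‖φ (w * x) i‖ ^ p) ^ 2))) := by
    intro x i
    have h := h1 p hp1 hp2 G W hW (fun w => ‖φ (w * x) i‖ ^ p)
      (fun w _ => Real.rpow_nonneg (norm_nonneg _) _)
    refine le_trans ?_ h
    refine Real.rpow_le_rpow (norm_nonneg _) ?_ hp0.le
    rw [Dop_apply]
    refine (norm_sum_le _ _).trans (le_of_eq (Finset.sum_congr rfl fun w _ => ?_))
    rw [← Real.rpow_mul (norm_nonneg _), mul_one_div_cancel hp0.ne', Real.rpow_one]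
  have hs3 : Summable fun x => ∑ i, 2 ^ (p - 1) *
      (∑ w ∈ W, ‖φ (w * x) i‖ ^ p + 2 * (W.card : ℝ) ^ (p - 1) *
        (∑ w ∈ W, ‖φ (w * x) i‖ ^ p - Real.sqrt (∑ w ∈ W, (‖φ (w * x) i‖ ^ p) ^ 2))) := by
    have := ((s2.add ((s2.sub s1).mul_left (2 * (W.card : ℝ) ^ (p - 1)))).mul_left
      ((2 : ℝ) ^ (p - 1)))
    refine this.congr fun x => ?_
    simp only [← Finset.mul_sum, Finset.sum_add_distrib, Finset.sum_sub_distrib]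
  have hle : nrm p (Dop W φ) ≤ ∑' x, ∑ i, 2 ^ (p - 1) *
      (∑ w ∈ W, ‖φ (w * x) i‖ ^ p + 2 * (W.card : ℝ) ^ (p - 1) *
        (∑ w ∈ W, ‖φ (w * x) i‖ ^ p - Real.sqrt (∑ w ∈ W, (‖φ (w * x) i‖ ^ p) ^ 2))) :=
    Summable.tsum_le_tsum (fun x => Finset.sum_le_sum fun i _ => key x i)
      (nrm_summable hp0 (hφ.Dop W)) hs3
  refine hle.trans (le_of_eq ?_)
  have e3 : ∑' x, ∑ i, 2 ^ (p - 1) *
      (∑ w ∈ W, ‖φ (w * x) i‖ ^ p + 2 * (W.card : ℝ) ^ (p - 1) *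
        (∑ w ∈ W, ‖φ (w * x) i‖ ^ p - Real.sqrt (∑ w ∈ W, (‖φ (w * x) i‖ ^ p) ^ 2))) =
      2 ^ (p - 1) * ((∑' x, ∑ i, ∑ w ∈ W, ‖φ (w * x) i‖ ^ p) + 2 * (W.card : ℝ) ^ (p - 1) *
        ((∑' x, ∑ i, ∑ w ∈ W, ‖φ (w * x) i‖ ^ p) -
          ∑' x, ∑ i, Real.sqrt (∑ w ∈ W, (‖φ (w * x) i‖ ^ p) ^ 2))) := by
    rw [← Summable.tsum_sub s2 s1, ← tsum_mul_left, ← Summable.tsum_add s2
      ((s2.sub s1).mul_left _), ← tsum_mul_left]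
    refine tsum_congr fun x => ?_
    simp only [← Finset.mul_sum, Finset.sum_add_distrib, Finset.sum_sub_distrib]
  rw [e3, e2]
  have e4 : ∑' x, ∑ i, Real.sqrt (∑ w ∈ W, (‖φ (w * x) i‖ ^ p) ^ 2) =
      (W.card : ℝ) * win W p φ := by
    unfold win
    rw [mul_inv_cancel_left₀ hL.ne']
  rw [e4]
  have e5 : (W.card : ℝ) ^ p = (W.card : ℝ) ^ (p - 1) * W.card := by
    conv_rhs => rw [← Real.rpow_one (W.card : ℝ)]
    rw [Real.rpow_one, ← Real.rpow_add_one hL.ne', sub_add_cancel]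
  rw [e5]
  ring

end Pool.Agent.PC
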