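import Pool.Agent.Lib.MP_830418_an.Flat.Stm

open Finset

universe u

namespace Pool.Agent.PC

private theorem cyc_nonFC_inv {G : Type u} [Group G] {x : G} (h : NonFC x) : NonFC x⁻¹ := by
  unfold NonFC at h ⊢
  have h2 := h.image (f := fun y : G => y⁻¹) (inv_injective.injOn)
  refine h2.mono ?_
  rintro _ ⟨_, ⟨g, rfl⟩, rfl⟩
  exact ⟨g, by group⟩

private theorem cyc_not_nonFC_one {G : Type u} [Group G] : ¬ NonFC (1 : G) := by
  intro h
  apply h
  refine (Set.finite_singleton (1 : G)).subset ?_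
  rintro _ ⟨g, rfl⟩
  simp

/-- the exponent -/
private def cycEx : ℕ → (ℕ → Fin 2) → ℕ
  | 0, _ => 0
  | m + 1, t => cycEx m t + (t m : ℕ) * 2 ^ m

private theorem cycEx_lt (t : ℕ → Fin 2) : ∀ m, cycEx m t < 2 ^ m
  | 0 => by simp [cycEx]
  | m + 1 => by
    have h1 := cycEx_lt t m
    have h2 : (t m : ℕ) ≤ 1 := by omega
    have h3 : (t m : ℕ) * 2 ^ m ≤ 1 * 2 ^ m := Nat.mul_le_mul_right _ h2
    rw [cycEx, pow_succ]
    omega

private theorem cycEx_inj (t s : ℕ → Fin 2) : ∀ m, cycEx m t = cycEx m s → ∀ k < m, t k = s k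
  | 0, _, k, hk => absurd hk (Nat.not_lt_zero k)
  | m + 1, h, k, hk => by
    have h1 := cycEx_lt t m
    have h2 := cycEx_lt s m
    rw [cycEx, cycEx] at h
    have h3 : (t m : ℕ) = s m := by
      rcases Nat.lt_trichotomy (t m : ℕ) (s m : ℕ) with h4 | h4 | h4
      · have : ((t m : ℕ) + 1) * 2 ^ m ≤ (s m : ℕ) * 2 ^ m := Nat.mul_le_mul_right _ h4
        rw [add_mul, one_mul] at this
        omega
      · exact h4
      · have : ((s m : ℕ) + 1) * 2 ^ m ≤ (t m : ℕ) * 2 ^ m := Nat.mul_le_mul_right _ h4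
        rw [add_mul, one_mul] at this
        omega
    rw [h3] at h
    rcases Nat.lt_succ_iff_lt_or_eq.1 hk with h4 | h4
    · exact cycEx_inj t s m (by omega) k h4
    · rw [h4]
      exact Fin.ext h3

private theorem cyc_pr {G : Type u} [Group G] (a : G) (t : ℕ → Fin 2) :
    ∀ m, pr (fun s (i : Fin 2) => a ^ ((i : ℕ) * 2 ^ s)) m t = a ^ cycEx m t
  | 0 => by simp [pr, cycEx]
  | m + 1 => by
    rw [pr, cyc_pr a t m, cycEx, pow_add]

theorem p_cyc : S_cyc.{u} := by
  classical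
  intro G _ hyp L₀ δ hδ
  obtain ⟨L, hL⟩ : ∃ L, L = max L₀ 1 := ⟨_, rfl⟩
  have hL1 : 1 ≤ L := hL ▸ le_max_right _ _
  have hL0 : L₀ ≤ L := hL ▸ le_max_left _ _
  obtain ⟨m, hm⟩ := pow_unbounded_of_one_lt ((L : ℝ) / δ) (one_lt_two (α := ℝ))
  have hm' : (L : ℝ) ≤ δ * 2 ^ m := by
    rw [div_lt_iff₀ hδ] at hm
    linarith
  obtain ⟨a, ha⟩ := hyp (2 ^ (m + 1) + 2 * L)
  have hpos : 0 < 2 ^ m := Nat.two_pow_pos m
  have hne : ∀ i j : ℕ, i < j → j ≤ 2 ^ (m + 1) + 2 * L → a ^ i ≠ a ^ j := by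
    intro i j hij hj h
    have h1 := ha (j - i) (by omega) (by omega)
    have h2 : a ^ (j - i) = 1 := by
      have h3 : a ^ i * a ^ (j - i) = a ^ i * 1 := by
        rw [← pow_add, mul_one, h]
        congr 1
        omega
      exact mul_left_cancel h3
    rw [h2] at h1
    exact cyc_not_nonFC_one h1
  have hinj : ∀ i j : ℕ, i ≤ 2 ^ (m + 1) + 2 * L → j ≤ 2 ^ (m + 1) + 2 * L → a ^ i = a ^ j →
      i = j := by
    intro i j hi hj h
    rcases Nat.lt_trichotomy i j with h1 | h1 | h1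
    · exact absurd h (hne i j h1 hj)
    · exact h1
    · exact absurd h.symm (hne j i h1 hi)
  have hWc : ((Finset.range L).image fun j => a ^ j).card = L := by
    rw [Finset.card_image_of_injOn, Finset.card_range]
    intro i hi j hj h
    have hi' := Finset.mem_range.1 (Finset.mem_coe.1 hi)
    have hj' := Finset.mem_range.1 (Finset.mem_coe.1 hj)
    exact hinj i j (by omega) (by omega) h
  have hXc : ((Finset.Ico L (2 * L)).image fun j => a ^ j).card = L := by
    rw [Finset.card_image_of_injOn, Nat.card_Ico]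
    · omega
    · intro i hi j hj h
      have hi' := Finset.mem_Ico.1 (Finset.mem_coe.1 hi)
      have hj' := Finset.mem_Ico.1 (Finset.mem_coe.1 hj)
      exact hinj i j (by omega) (by omega) h
  refine ⟨m, fun s (i : Fin 2) => a ^ ((i : ℕ) * 2 ^ s), (Finset.range L).image fun j => a ^ j,
    (Finset.range (2 * L)).image fun j => a ^ j, (Finset.Ico L (2 * L)).image fun j => a ^ j,
    by rw [hWc]; exact hL0, ?_⟩
  refine ⟨?_, ?_, ?_, ?_, ?_, ?_⟩
  · intro i
    refine ⟨(Finset.range (2 ^ m + L)).image fun l => a ^ (l + (i : ℕ) * 2 ^ m), ?_, ?_⟩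
    · have h1 : (((Finset.range (2 ^ m + L)).image fun l => a ^ (l + (i : ℕ) * 2 ^ m)).card : ℝ) ≤
          ((2 ^ m + L : ℕ) : ℝ) := by
        have := Finset.card_image_le (s := Finset.range (2 ^ m + L))
          (f := fun l => a ^ (l + (i : ℕ) * 2 ^ m))
        rw [Finset.card_range] at this
        exact_mod_cast this
      push_cast at h1 ⊢
      nlinarith
    · intro t w hw
      rw [Finset.mem_image] at hw
      obtain ⟨j, hj, rfl⟩ := hw
      rw [Finset.mem_range] at hj
      rw [Finset.mem_image]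
      refine ⟨cycEx m t + j, ?_, ?_⟩
      · rw [Finset.mem_range]
        have := cycEx_lt t m
        omega
      · rw [cyc_pr, ← pow_add, ← pow_add]
        congr 1
        ring
  · intro t s hts
    rw [cyc_pr, cyc_pr]
    have hne' : cycEx (m + 1) t ≠ cycEx (m + 1) s := by
      intro h
      obtain ⟨k, hk, hk'⟩ := hts
      exact hk' (cycEx_inj t s (m + 1) h k hk)
    have h1 := cycEx_lt t (m + 1)
    have h2 := cycEx_lt s (m + 1)
    rcases Nat.lt_or_gt_of_ne hne' with h3 | h3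
    · have h4 := cyc_nonFC_inv (ha (cycEx (m + 1) s - cycEx (m + 1) t) (by omega) (by omega))
      have h5 : a ^ cycEx (m + 1) t * (a ^ cycEx (m + 1) s)⁻¹ =
          (a ^ (cycEx (m + 1) s - cycEx (m + 1) t))⁻¹ := by
        rw [mul_inv_eq_iff_eq_mul, eq_inv_mul_iff_mul_eq, ← pow_add]
        congr 1
        omega
      rw [h5]
      exact h4
    · have h4 := ha (cycEx (m + 1) t - cycEx (m + 1) s) (by omega) (by omega)
      have h5 : a ^ cycEx (m + 1) t * (a ^ cycEx (m + 1) s)⁻¹ =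
          a ^ (cycEx (m + 1) t - cycEx (m + 1) s) := by
        rw [mul_inv_eq_iff_eq_mul, ← pow_add]
        congr 1
        omega
      rw [h5]
      exact h4
  · rw [← Finset.card_pos, hWc]
    omega
  · intro x hx w hw
    rw [Finset.mem_image] at hx hw
    obtain ⟨j, hj, rfl⟩ := hx
    obtain ⟨i, hi, rfl⟩ := hw
    rw [Finset.mem_Ico] at hj
    rw [Finset.mem_range] at hi
    rw [Finset.mem_image]
    refine ⟨j - i, Finset.mem_range.2 (by omega), ?_⟩
    rw [eq_inv_mul_iff_mul_eq, ← pow_add]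
    congr 1
    omega
  · rw [hXc]
    have := Finset.card_image_le (s := Finset.range (2 * L)) (f := fun j => a ^ j)
    rw [Finset.card_range] at this
    exact this
  · refine ⟨a ^ 0, Finset.mem_image.2 ⟨0, Finset.mem_range.2 (by omega), rfl⟩⟩

end Pool.Agent.PC
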