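import Pool.Agent.Lib.MP_830418_an.Flat.Basic

/-!
Statements of the pieces.  Every docstring contains the complete informal proof.
Notation: `B = nrm p φ`, `S = win W p φ`, `L = |W|`.
-/

open Finset

namespace Pool.Agent.PC

universe u

/-- `int`: Stein interpolation, finite matrices.
Proof. Put `v k = ∑ i, K k i * η i`, `s = ∑ k ‖v k‖^p`, `B = ∑ i ‖η i‖^p`.  `A ≥ 0` (take
`α i = ‖η i‖^p` in the first hypothesis).  If `s = 0` the claim is `0 ≤ ...`.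
Let `q = p/(p-1)`, `θ = 2/q = 2(p-1)/p ∈ (0,1)`.  For `z ∈ ℂ` let
`η_z i = (η i / ‖η i‖) * ‖η i‖^(p(1-z/2))` (complex power of a positive number; `0` if `η i = 0`) and
`g_z k = conj (v k) / ‖v k‖ * ‖v k‖^(p z/2)` (`0` if `v k = 0`).
`Φ z = ∑ k, g_z k * ∑ i, K k i * η_z i` is entire, and bounded on the closed strip `0 ≤ Re z ≤ 1`
(a finite sum of terms `const * a^{z}`).  `θ`: `p(1-θ/2) = 1` and `pθ/2 = p-1`, so
`Φ θ = ∑ k, conj(v k) ‖v k‖^(p-2) * v k = s`.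
`Re z = 0`: `‖η_z i‖ = ‖η i‖^p` and `‖g_z k‖ ≤ 1`, so `‖Φ z‖ ≤ A`.
`Re z = 1`: `‖η_z i‖ = ‖η i‖^(p/2)`, `‖g_z k‖ ≤ ‖v k‖^(p/2)`, so Cauchy-Schwarz and the second hypothesis
give `‖Φ z‖ ≤ s^(1/2) * B^(1/2)`.
Hadamard three lines (`Complex.HadamardThreeLines.norm_le_interp_of_mem_verticalClosedStrip'`):
`s ≤ A^(1-θ) * (s B)^(θ/2)`; as `1-θ/2 = 1/p`, `s ≤ A^(p(1-θ)) * B^(pθ/2) = A^(2-p) * B^(p-1)`. -/
def S_int : Prop := ∀ (p : ℝ), 1 < p → p < 2 → ∀ (ι κ : Type u) [Fintype ι] [Fintype κ]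
    (K : κ → ι → ℂ) (η : ι → ℂ) (A : ℝ),
    (∀ α : ι → ℂ, (∀ i, ‖α i‖ = ‖η i‖ ^ p) → ∑ k, ‖∑ i, K k i * α i‖ ≤ A) →
    (∀ φ : ι → ℂ, ∑ k, ‖∑ i, K k i * φ i‖ ^ 2 ≤ ∑ i, ‖φ i‖ ^ 2) →
    ∑ k, ‖∑ i, K k i * η i‖ ^ p ≤ A ^ (2 - p) * (∑ i, ‖η i‖ ^ p) ^ (p - 1)

/-- `intV`: the same for linear maps on `Vec G N`.
Proof. `s` = finset of the support of `η`, `e_{x,i}` = the vector which is `1` at `(x,i)`, and
`t` = a finset containing the supports of all `T e_{x,i}`, `x ∈ s` (finitely many finite sets).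
`ι = s × Fin N` (subtypes), `κ = t × Fin N`, `K (y,j) (x,i) = T e_{x,i} y j`.  A function `φ` on `ι`
extended by `0` is `∑ φ(x,i) e_{x,i}`, so `T` of it is `∑ K φ` on `t × Fin N` and `0` outside; the
sums over `ι`, `κ` are `nrm`s (`nrm_eq_sum`), and `‖·‖^(2:ℝ) = ‖·‖^2`, `‖·‖^(1:ℝ) = ‖·‖`. -/
def S_intV : Prop := ∀ (p : ℝ), 1 < p → p < 2 → ∀ (G : Type u) [Group G] (N : ℕ)
    (T : Vec G N →ₗ[ℂ] Vec G N), (∀ φ, FS φ → FS (T φ)) →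
    (∀ φ, FS φ → nrm 2 (T φ) ≤ nrm 2 φ) → ∀ (η : Vec G N), FS η → ∀ A : ℝ,
    (∀ α : Vec G N, FS α → (∀ x i, ‖α x i‖ = ‖η x i‖ ^ p) → nrm 1 (T α) ≤ A) →
    nrm p (T η) ≤ A ^ (2 - p) * (nrm p η) ^ (p - 1)

/-- `V2`: `Vop` is isometric for `p = 2`.
Proof. By induction on `m` (`Vop_succ`, `FS.Rop`) it is enough to treat `Rop`.
Pointwise `∑ j ‖∑ i u i j * v i‖^2 = N * ∑ i ‖v i‖^2` by `Had` (expand the square, sum over `j`
first), with `v i = φ (c_i⁻¹ x) i`.  Then sum over `x`: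
`∑ x ∑ i ‖φ (c_i⁻¹ x) i‖^2 = ∑ i ∑ x ‖φ x i‖^2` (finite sum of summable families; left
translation is a bijection of `G`). -/
def S_V2 : Prop := ∀ (G : Type u) [Group G] (N : ℕ) (u : Fin N → Fin N → ℂ), Had u →
    ∀ (c : ℕ → Fin N → G) (m : ℕ) (φ : Vec G N), FS φ → nrm 2 (Vop u c m φ) = nrm 2 φ

/-- `Vsupp`: support of `Vop`.
Proof. Prove first, by induction on `m` for all `φ`: `Vop u c m φ x ≠ 0 → ∃ t, φ ((pr c m t)⁻¹ x) ≠ 0`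
(as functions `Fin N → ℂ`).  Then `Vop u c (m+1) φ x = Vop u c m (Rop φ) x ≠ 0` gives `t` with
`Rop φ ((pr c m t)⁻¹ x) ≠ 0`, hence some `i` with `φ ((c_m i)⁻¹ (pr c m t)⁻¹ x) i ≠ 0`; replace the
value of `t` at `m` by `i` (`pr c m t` depends only on the values of `t` below `m`). -/
def S_Vsupp : Prop := ∀ (G : Type u) [Group G] (N : ℕ) (u : Fin N → Fin N → ℂ)
    (c : ℕ → Fin N → G) (m : ℕ) (φ : Vec G N) (x : G), Vop u c (m + 1) φ x ≠ 0 →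
    ∃ t : ℕ → Fin N, φ ((pr c (m + 1) t)⁻¹ * x) (t m) ≠ 0

/-- `L1w`: the `ℓ^1` bound on one window.  `φ` lives in one component `i` and on `W z`.
Proof. By `Vsupp` (`S_Vsupp`) every `x` in the support of `V φ` (`V = Vop u c (m+1)`) is
`pr c m t * c m i * w * z` with `w ∈ W` (the component `t m` must be `i`), so it lies in `S z` with the finset `S` of
`Flat.card` for `i`, `|S z| = |S| ≤ (1+δ) N^m`.  Cauchy-Schwarz over `S z × Fin N`: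
`nrm 1 (V φ) ≤ (N |S|)^(1/2) (nrm 2 (V φ))^(1/2) ≤ ((1+δ) N^(m+1))^(1/2) (nrm 2 φ)^(1/2)`, and `nrm 2 φ = ∑ w ∈ W, ‖φ (w z) i‖^2`
(`w ↦ w z` is injective). -/
def S_L1w : Prop := ∀ (G : Type u) [Group G] (N : ℕ) (u : Fin N → Fin N → ℂ), Had u →
    ∀ (c : ℕ → Fin N → G) (m : ℕ) (W E X : Finset G) (δ : ℝ), 0 < δ → Flat c m W E X δ →
    ∀ (z : G) (i : Fin N) (φ : Vec G N), (∀ x j, φ x j ≠ 0 → j = i ∧ ∃ w ∈ W, x = w * z) →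
    nrm 1 (Vop u c (m + 1) φ) ≤
      Real.sqrt ((1 + δ) * (N : ℝ) ^ (m + 1)) * Real.sqrt (∑ w ∈ W, ‖φ (w * z) i‖ ^ 2)

/-- `L1`: the `ℓ^1` bound.
Proof. For `z ∈ G`, `i` let `α_{z,i}` be `α` cut to the component `i` and to `W z`.  Every `x` lies in
exactly `L = |W|` sets `W z` (`z = w⁻¹ x`), so `L • α = ∑_{z ∈ Z} ∑_i α_{z,i}` where `Z` is the finset of all
`w⁻¹ x`, `w ∈ W`, `x` in the support of `α` (`α_{z,i} = 0` for `z ∉ Z`).  `nrm 1` is subadditive on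
finitely supported functions and `V` is linear, so `L nrm 1 (V α) ≤ ∑_{z ∈ Z} ∑_i nrm 1 (V α_{z,i})`, and
`S_L1w` bounds the terms; `win W 1 α` is `L⁻¹` times the sum of `√(∑ w ‖α (w z) i‖^2)` over all `z`,
`i` (`(‖·‖^(1:ℝ))^2 = ‖·‖^2`), a finitely supported sum. -/
def S_L1 : Prop := ∀ (G : Type u) [Group G] (N : ℕ) (u : Fin N → Fin N → ℂ), Had u →
    ∀ (c : ℕ → Fin N → G) (m : ℕ) (W E X : Finset G) (δ : ℝ), 0 < δ → Flat c m W E X δ →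
    ∀ α : Vec G N, FS α →
    nrm 1 (Vop u c (m + 1) α) ≤ Real.sqrt ((1 + δ) * (N : ℝ) ^ (m + 1)) * win W 1 α

/-- `win`: facts on the window functional.
Proof. `∑ x ∑ i ∑ w ∈ W ‖φ (w x) i‖^p = L * nrm p φ` (left translations), and for reals `a_w ≥ 0`:
`√(∑ a_w^2) ≤ ∑ a_w`.  The last claim: if `‖α x i‖ = ‖φ x i‖^p` for all `x, i` then
`win W 1 α = win W p φ` (the same terms). -/
def S_win : Prop := ∀ (G : Type u) [Group G] (N : ℕ) (W : Finset G), W.Nonempty →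
    ∀ p : ℝ, 0 < p → ∀ φ : Vec G N, FS φ →
    (Summable fun x => ∑ i, Real.sqrt (∑ w ∈ W, (‖φ (w * x) i‖ ^ p) ^ 2)) ∧
    (Summable fun x => ∑ i, ∑ w ∈ W, ‖φ (w * x) i‖ ^ p) ∧
    ∑' x, ∑ i, ∑ w ∈ W, ‖φ (w * x) i‖ ^ p = W.card * nrm p φ ∧
    0 ≤ win W p φ ∧ win W p φ ≤ nrm p φ ∧
    ∀ α : Vec G N, (∀ x i, ‖α x i‖ = ‖φ x i‖ ^ p) → win W 1 α = win W p φ

/-- `Dw`: the inequality for one window.
Proof. Let `M = a_{w0}` be the largest `a_w`.  `x = a_{w0}^(1/p)`, `y = ∑_{w ≠ w0} a_w^(1/p)`: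
`(x+y)^p ≤ 2^(p-1) (x^p + y^p)` and `y^p ≤ (L-1)^(p-1) ∑_{w ≠ w0} a_w ≤ L^(p-1) (A - M)` (power mean), `x^p = M ≤ A`,
where `A = ∑ a_w`.  Finally `R = √(∑ a_w^2) ≤ √(M A) ≤ (M+A)/2`, so `A - M ≤ 2 (A - R)`. -/
def S_Dw : Prop := ∀ (p : ℝ), 1 < p → p < 2 → ∀ (ι : Type u) (s : Finset ι), s.Nonempty →
    ∀ a : ι → ℝ, (∀ w ∈ s, 0 ≤ a w) →
    (∑ w ∈ s, (a w) ^ (1 / p)) ^ p ≤ 2 ^ (p - 1) *
      (∑ w ∈ s, a w + 2 * (s.card : ℝ) ^ (p - 1) *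
        (∑ w ∈ s, a w - Real.sqrt (∑ w ∈ s, (a w) ^ 2)))

/-- `D`: the bound for `D`.
Proof. `‖D φ x i‖ ≤ ∑ w ‖φ (w x) i‖ = ∑ w (a_w)^(1/p)` with `a_w = ‖φ (w x) i‖^p`.  Apply `S_Dw` and sum over
`x`, `i` with `S_win`: `∑ ∑ A = L B`, `∑ ∑ √ = L S`; `L^(p-1) * L = L^p`. -/
def S_D : Prop := ∀ (p : ℝ), 1 < p → p < 2 → ∀ (G : Type u) [Group G] (N : ℕ) (W : Finset G),
    W.Nonempty → ∀ φ : Vec G N, FS φ →
    nrm p (Dop W φ) ≤ 2 ^ (p - 1) *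
      ((W.card : ℝ) * nrm p φ + 2 * (W.card : ℝ) ^ p * (nrm p φ - win W p φ))

/-- `diss`: dissipation.
Proof. `n' = (1+δ) N^(m+1)`, `lam = n'^((2-p)/(2p))`.  `S_intV` for `T = Vop u c (m+1)` (`S_V2`) with
`A = √n' * win W p φ` (by `S_L1` and the last claim of `S_win`) gives
`nrm p (V φ) ≤ n'^((2-p)/2) S^(2-p) B^(p-1)`.  By `nrm_smul` the left side of the claim is
`lam^(-p) nrm p (V φ) ≤ S^(2-p) B^(p-1) ≤ (2-p) S + (p-1) B` (weighted AM-GM,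
`Real.geom_mean_le_arith_mean2_weighted`) `= B - (2-p)(B-S)`.  (`N ≥ 1`.) -/
def S_diss : Prop := ∀ (p : ℝ), 1 < p → p < 2 → ∀ (G : Type u) [Group G] (N : ℕ), 1 ≤ N →
    ∀ (u : Fin N → Fin N → ℂ), Had u →
    ∀ (c : ℕ → Fin N → G) (m : ℕ) (W E X : Finset G) (δ : ℝ), 0 < δ → Flat c m W E X δ →
    ∀ φ : Vec G N, FS φ →
    nrm p ((((((1 + δ) * (N : ℝ) ^ (m + 1)) ^ ((2 - p) / (2 * p)) : ℝ) : ℂ))⁻¹ •
      Vop u c (m + 1) φ) ≤ nrm p φ - (2 - p) * (nrm p φ - win W p φ)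

/-- `hold`: Hölder for the chain (pure real inequality for lists).
`K = length`, terms `x_1, ..., x_K ≥ 0`: `(∑ x_k)^p ≤ K^(p-1) ∑ x_k^p` (power mean inequality,
`Real.rpow_sum_le_const_mul_sum_rpow_of_nonneg` or `inner_le_nnorm_mul_nnorm`), in the vector form:
`nrm p (∑ ψ_k) ≤ K^(p-1) ∑ nrm p ψ_k` for finitely supported `ψ_k` (pointwise, then sum). -/
def S_hold : Prop := ∀ (p : ℝ), 1 < p → ∀ (G : Type u) [Group G] (N : ℕ) (l : List (Vec G N)),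
    (∀ ψ ∈ l, FS ψ) → nrm p l.sum ≤ (l.length : ℝ) ^ (p - 1) * (l.map (nrm p)).sum

/-- `chain`: the upper bound for the chain.
Proof. Let `ξ_0 = φ`, `ξ_{k+1} = lam⁻¹ • V (tr b_k ξ_k)`; `Fop V D lam bs φ = ∑_k D (tr b_k ξ_k)`
(list induction, `Fop_cons`).  With `B_k = nrm p ξ_k = nrm p (tr b_k ξ_k)` the hypothesis gives
`nrm p (D (tr b_k ξ_k)) ≤ a B_k + b (B_k - B_{k+1})` and `B_{k+1} ≤ B_k`.  So the sum of the
`nrm p (D (tr b_k ξ_k))` is `≤ (K a + b) B_0` (induction on the list: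
`a B_0 + b (B_0 - B_1) + ((K-1) a + b) B_1 ≤ (K a + b) B_0`).  `S_hold` finishes. -/
def S_chain : Prop := ∀ (p : ℝ), 1 < p → ∀ (G : Type u) [Group G] (N : ℕ)
    (V D : Vec G N →ₗ[ℂ] Vec G N) (lam a b : ℝ), 0 ≤ a → 0 ≤ b →
    (∀ φ, FS φ → FS (V φ)) → (∀ φ, FS φ → FS (D φ)) →
    (∀ φ, FS φ → nrm p (((lam : ℂ))⁻¹ • V φ) ≤ nrm p φ) →
    (∀ φ, FS φ → nrm p (D φ) ≤ a * nrm p φ + b * (nrm p φ - nrm p (((lam : ℂ))⁻¹ • V φ))) →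
    ∀ (bs : List G) (φ : Vec G N), FS φ →
    nrm p (Fop V D lam bs φ) ≤
      (bs.length : ℝ) ^ (p - 1) * ((bs.length : ℝ) * a + b) * nrm p φ

/-- `Vad1`: one adjoint step on a function with one component at each point.
`Q` contains the support of `ψ` and the sets `(c i)⁻¹ Q` are pairwise disjoint.
Proof. `Rad u c ψ x i = N^{-1/2} ∑ j conj (u i j) ψ (c_i x) j`; at most one `j` is not zero, so its
absolute value is `N^{-1/2} ∑ j ‖ψ (c_i x) j‖` and the `p`-th power is `N^{-p/2} ∑ j ‖ψ (c_i x) j‖^p`.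
Sum over `x` (translation) and `i` (`N` values): `N^(1-p/2) nrm p ψ`.  It is not zero only if
`c_i x ∈ Q`, i.e. `x ∈ (c i)⁻¹ Q`, which by disjointness happens for at most one `i`. -/
def S_Vad1 : Prop := ∀ (p : ℝ), 0 < p → ∀ (G : Type u) [Group G] (N : ℕ), 1 ≤ N →
    ∀ (u : Fin N → Fin N → ℂ), Had u →
    ∀ (c : Fin N → G) (ψ : Vec G N), FS ψ → SC ψ →
    (∀ x y i j, i ≠ j → ψ x ≠ 0 → ψ y ≠ 0 → (c i)⁻¹ * x ≠ (c j)⁻¹ * y) →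
    nrm p (Rad u c ψ) = (N : ℝ) ^ (1 - p / 2) * nrm p ψ ∧ SC (Rad u c ψ) ∧
    ∀ x i, Rad u c ψ x i ≠ 0 → ψ (c i * x) ≠ 0

/-- `Vad`: the adjoint flat is lossless on generic functions.
Proof. Induction on `m`.  For `m+1`: `ψ' = Vad u c m ψ` satisfies `SC`, and its support is contained in
the set of `(pr c m t)⁻¹ q`, `ψ q ≠ 0`; `Vad u c (m+1) ψ = Rad u (c m) ψ'`, apply `S_Vad1`: if
`(c m i)⁻¹ (pr c m t)⁻¹ q = (c m j)⁻¹ (pr c m s)⁻¹ r` with `i ≠ j`, then with `t' = t` changed to `i` at `m` and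
`s' = s` changed to `j` at `m` this reads `(pr c (m+1) t')⁻¹ q = (pr c (m+1) s')⁻¹ r`, contradiction.  The
hypothesis for `m` follows from the one for `m+1`: if `t, s` differ below `m` and
`(pr c m t)⁻¹ q = (pr c m s)⁻¹ r` then make `t m = s m` and multiply by `(c m (t m))⁻¹`.
`N^(m (1-p/2)) * N^(1-p/2) = N^((m+1)(1-p/2))`. -/
def S_Vad : Prop := ∀ (p : ℝ), 0 < p → ∀ (G : Type u) [Group G] (N : ℕ), 1 ≤ N →
    ∀ (u : Fin N → Fin N → ℂ), Had u →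
    ∀ (c : ℕ → Fin N → G) (m : ℕ) (ψ : Vec G N), FS ψ → SC ψ →
    (∀ (t s : ℕ → Fin N), (∃ k < m, t k ≠ s k) → ∀ q r, ψ q ≠ 0 → ψ r ≠ 0 →
      (pr c m t)⁻¹ * q ≠ (pr c m s)⁻¹ * r) →
    nrm p (Vad u c m ψ) = (N : ℝ) ^ ((m : ℝ) * (1 - p / 2)) * nrm p ψ ∧ SC (Vad u c m ψ) ∧
    ∀ x, Vad u c m ψ x ≠ 0 → ∃ t : ℕ → Fin N, ψ (pr c m t * x) ≠ 0

/-- `neu`: selection by B.H. Neumann's lemma.
Proof. Suppose every `b` is in `Y` or satisfies `b t b⁻¹ ∈ Z` for some `t ∈ T`.  For `t ∈ T`, `z ∈ Z` the set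
`{b | b t b⁻¹ = z}` is empty or a left coset `b₀ C(t)` (`b₀ t b₀⁻¹ = z`: `b t b⁻¹ = z` iff `b₀⁻¹ b` commutes
with `t`), and `C(t)` = centralizer of `{t}` has infinite index (the conjugates of `t` correspond to the cosets of `C(t)`; infinitely many).
`Y` is a finite union of cosets of the trivial subgroup, also of infinite index as `G` is infinite.
`Subgroup.exists_finiteIndex_of_leftCoset_cover` gives one of finite index: contradiction. -/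
def S_neu : Prop := ∀ (G : Type u) [Group G] [Infinite G] (T Z Y : Finset G),
    (∀ t ∈ T, NonFC t) → ∃ b : G, b ∉ Y ∧ ∀ t ∈ T, b * t * b⁻¹ ∉ Z

/-- `low`: the lower bound.
Proof. Put `h = D ξ`, `ρ = N^(m(1-p/2)) / lam^p`.  Induction on `K` with the following additional data: a finset
`Q` such that `ψ := Fad (Vad u c m) D lam bs ξ` satisfies `SC`, `ψ x ≠ 0 → x ∈ Q`, (a) for `t, s` different
below `m`, `q, r ∈ Q`: `(pr c m t)⁻¹ q ≠ (pr c m s)⁻¹ r`, (b) for all `t`, `q ∈ Q`: `h ((pr c m t)⁻¹ q) = 0`,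
(c) the formula for `nrm p ψ`.  `K = 0`: `bs = []`, `ψ = 0`, `Q = ∅`.
Step: `ψ₁ = h + lam⁻¹ • Vad u c m ψ`.  By `S_Vad`, `nrm p (Vad ψ) = N^(m(1-p/2)) nrm p ψ`, `Vad ψ` is `SC`
and lives on the points `(pr c m t)⁻¹ q`, `q ∈ Q`, where `h = 0` by (b); so `ψ₁` is `SC` and
`nrm p ψ₁ = nrm p h + lam^(-p) N^(m(1-p/2)) nrm p ψ`, which gives (c) for `K+1`.  Let `P` be a finset containing
the support of `ψ₁`.  `pr c m t` takes finitely many values (it depends on `t` below `m` only).  Choose `b`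
by `S_neu` with `T` = all `pr c m s * (pr c m t)⁻¹`, `t, s` different below `m`; `Z` = all `q' r'⁻¹`, `q', r' ∈ P`;
`Y` = all `q' x⁻¹ (pr c m t)⁻¹`, `q' ∈ P`, `h x ≠ 0`.  New list `b :: bs`, new `Q = b⁻¹ P`,
`Fad (b :: bs) = tr b⁻¹ ψ₁` (`nrm_tr`).  (a): `(pr c m t)⁻¹ b⁻¹ q' = (pr c m s)⁻¹ b⁻¹ r'` means
`b (pr c m s) (pr c m t)⁻¹ b⁻¹ = r' q'⁻¹`.  (b): `x = (pr c m t)⁻¹ b⁻¹ q'` means `b = q' x⁻¹ (pr c m t)⁻¹`. -/
def S_low : Prop := ∀ (p : ℝ), 0 < p → ∀ (G : Type u) [Group G] [Infinite G] (N : ℕ), 1 ≤ N →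
    ∀ (u : Fin N → Fin N → ℂ), Had u → ∀ (c : ℕ → Fin N → G) (m : ℕ) (lam : ℝ), 0 < lam →
    (∀ t s : ℕ → Fin N, (∃ k < m, t k ≠ s k) → NonFC (pr c m t * (pr c m s)⁻¹)) →
    ∀ (D : Vec G N →ₗ[ℂ] Vec G N) (ξ : Vec G N), FS (D ξ) → SC (D ξ) → ∀ K : ℕ,
    ∃ bs : List G, bs.length = K ∧
      nrm p (Fad (Vad u c m) D lam bs ξ) =
        nrm p (D ξ) * ∑ k ∈ range K, ((N : ℝ) ^ ((m : ℝ) * (1 - p / 2)) / lam ^ p) ^ k

/-- `h`: the test function `1_E` in the component `0`.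
Proof. `D^* ξ (x) 0 = #{w ∈ W : w⁻¹ x ∈ E}`, other components are `0`; it is `L` for `x ∈ X`. -/
def S_h : Prop := ∀ (p : ℝ), 0 < p → ∀ (G : Type u) [Group G] (N : ℕ) (c : ℕ → Fin N → G) (m : ℕ)
    (W E X : Finset G) (δ : ℝ), Flat c m W E X δ → ∀ (i₀ : Fin N) (ξ : Vec G N),
    (∀ x i, (i = i₀ ∧ x ∈ E → ξ x i = 1) ∧ (¬ (i = i₀ ∧ x ∈ E) → ξ x i = 0)) →
    FS ξ ∧ FS (Dad W ξ) ∧ SC (Dad W ξ) ∧ nrm p ξ = E.card ∧
    (X.card : ℝ) * (W.card : ℝ) ^ p ≤ nrm p (Dad W ξ)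

/-- `rep1`: the building blocks are given by matrices.
Proof. `tr g`: `f i j = single g 1` if `i = j`, else `0`.  `Rop u c`: `f j i = single (c i) (N^{-1/2} u i j)`.
`Dop W`: `f j j = ∑ w ∈ W, single w⁻¹ 1`, off-diagonal `0`.  Zero: `f = 0`.  Sum: add the matrices
(`Finsupp.sum_add_index'`).  Real scalar `r`: `r • f`.  Composition `T ∘ T'`, `T'^* ∘ T^*`: matrix product for the group algebra
`(f f')_{ik} = ∑ j, (f i j).sum fun g a => (f' j k).sum fun h b => single (g*h) (a*b)`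
(`Finsupp.sum_sum_index`, `Finsupp.sum_single_index`; `h⁻¹ * (g⁻¹ * x) = (g h)⁻¹ x`). -/
def S_rep1 : Prop := ∀ (G : Type u) [Group G] (N : ℕ),
    (∀ g : G, Rep (tr (N := N) g) (tr g⁻¹)) ∧
    (∀ (u : Fin N → Fin N → ℂ) (c : Fin N → G), Rep (Rop u c) (Rad u c)) ∧
    (∀ W : Finset G, Rep (Dop (N := N) W) (Dad W)) ∧
    Rep (0 : Vec G N →ₗ[ℂ] Vec G N) 0 ∧
    (∀ T Ts T' Ts' : Vec G N →ₗ[ℂ] Vec G N, Rep T Ts → Rep T' Ts' → Rep (T + T') (Ts + Ts')) ∧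
    (∀ (r : ℝ) (T Ts : Vec G N →ₗ[ℂ] Vec G N), Rep T Ts → Rep ((r : ℂ) • T) ((r : ℂ) • Ts)) ∧
    (∀ T Ts T' Ts' : Vec G N →ₗ[ℂ] Vec G N, Rep T Ts → Rep T' Ts' →
      Rep (T.comp T') (Ts'.comp Ts))

/-- `rep2`: the chain.
Proof. Induction on `m` for `Vop`, `Vad`, then on the list, with `S_rep1`; `Rep id id` is `tr 1`. -/
def S_rep2 : Prop := ∀ (G : Type u) [Group G] (N : ℕ) (u : Fin N → Fin N → ℂ)
    (c : ℕ → Fin N → G) (m : ℕ) (W : Finset G) (lam : ℝ) (bs : List G),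
    Rep (Fop (Vop u c m) (Dop W) lam bs) (Fad (Vad u c m) (Dad W) lam bs)

/-- `ext`: extraction of one entry.
Proof. Let `f` be the matrix of `Rep T Ts`.  For `ξ : G →₀ ℂ` and `j` let `ξ_j` be `ξ` in the component `j`.
`T ξ_j x i₀ = (f i₀ j).sum (a * ξ (g⁻¹ x)) = ∑ k ∈ ξ.support, f i₀ j (x k⁻¹) * ξ k` (`g = x k⁻¹`), so
`∑ x ‖f i₀ j * ξ (x)‖^p ≤ nrm p (T ξ_j) ≤ C nrm p ξ_j = C ∑ ‖ξ k‖^p`: `ConvLe p C (f i₀ j)` (the family has finite support).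
`Ts ξ x j = (f i₀ j).sum (conj a * η (g x))` for `ξ` = `η` in the component `i₀`, `= ∑ k ∈ η.support, conj (f i₀ j (k x⁻¹)) η k`
`= ∑ k, cst (f i₀ j) (x k⁻¹) η k`.  If all `ConvLe p R' (cst (f i₀ j))` held, `R' = R C`, then
`nrm p (Ts ξ) ≤ N R' ∑ ‖η k‖^p`, contradiction.  So some `j` fails; finally divide by
`C^(1/p)`: `f' = C^(-1/p) f i₀ j` has `ConvLe p 1 f'` and `¬ ConvLe p R (cst f')`. -/
def S_ext : Prop := ∀ (p : ℝ), 1 < p → ∀ (G : Type u) [Group G] (N : ℕ)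
    (T Ts : Vec G N →ₗ[ℂ] Vec G N), Rep T Ts → ∀ (C R : ℝ), 0 < C → 0 ≤ R →
    (∀ φ, FS φ → nrm p (T φ) ≤ C * nrm p φ) → ∀ (i₀ : Fin N) (ξ : Vec G N), FS ξ →
    (∀ x i, i ≠ i₀ → ξ x i = 0) → N * (R * C) * nrm p ξ < nrm p (Ts ξ) →
    ∃ f : G →₀ ℂ, ConvLe p 1 (f : G → ℂ) ∧ ¬ ConvLe p R (cst (f : G → ℂ))

/-- `num`: numbers.
Proof. `P = (1-p/2) ∈ (0,1/2)`, `((1+δ)^(-P))^k ≥ (1+δ)^(-k) ≥ (1+δ)^(-K) ≥ 1/2` for `k < K` if `δ = 1/(2K)`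
(`(1+δ)^K ≤ exp (1/2) ≤ 2`), so the right side is `≥ L^p K / 4`.  If `L^(p-1) ≥ K` the left side is
`≤ R N K^(p-1) 2^(p-1) L^p (1 + 2/(2-p))`.  Choose `K ≥ 1` with
`K^(2-p) > 4 R N 2^(p-1) (1 + 2/(2-p))`, then `L₀` with `L₀^(p-1) ≥ K`, `L₀ ≥ 1`. -/
def S_num : Prop := ∀ (p : ℝ), 1 < p → p < 2 → ∀ (N : ℕ) (R : ℝ), 0 ≤ R →
    ∃ (K L₀ : ℕ) (δ : ℝ), 0 < δ ∧ 1 ≤ K ∧ ∀ L : ℕ, L₀ ≤ L →
    N * (R * ((K : ℝ) ^ (p - 1) * ((K : ℝ) * (2 ^ (p - 1) * L) +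
        2 ^ (p - 1) * (2 * (L : ℝ) ^ p) / (2 - p)))) <
      (L : ℝ) ^ p / 2 * ∑ k ∈ range K, ((1 + δ) ^ (-(1 - p / 2))) ^ k

/-- `had`: the Fourier matrix.  `u i j = exp (2 π I i j / N)`; the rows are orthogonal
(geometric sum of a nontrivial `N`-th root of unity, or characters of `ZMod N`). -/
def S_had : Prop := ∀ N : ℕ, 1 ≤ N → ∃ u : Fin N → Fin N → ℂ, Had u

/-- `fin`: from flat data to finitely supported functions.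
Proof. `S_num` gives `K, L₀, δ`; `CondF` gives a flat datum with `|W| ≥ L₀` (also `≥ 1`).  `V = Vop u c (m+1)`,
`D = Dop W`, `lam = ((1+δ) N^(m+1))^((2-p)/(2p))`, `a = 2^(p-1) L`, `b = 2^(p-1) 2 L^p / (2-p)`.  `S_diss`:
`nrm p (lam⁻¹ V φ) ≤ B - (2-p)(B-S) ≤ B` and `B - S ≤ (B - nrm p (lam⁻¹ V φ))/(2-p)`, so `S_D` gives the hypothesis of
`S_chain`.  `S_low` with `m+1`, `D = Dad W`, `ξ = 1_E` in the component `0` (`S_h`), gives `bs` of length `K`, and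
`N^((m+1)(1-p/2)) / lam^p = (1+δ)^(-(1-p/2))` as `lam^p = ((1+δ) N^(m+1))^(1-p/2)`.
`nrm p (D^* ξ) ≥ |X| L^p ≥ L^p |E| / 2`, so by `S_num` `N (R C) nrm p ξ < nrm p (F^* ξ)` with
`C = K^(p-1)(K a + b)`.  `S_rep2` and `S_ext` finish. -/
def S_fin : Prop := ∀ (p : ℝ), 1 < p → p < 2 → ∀ (G : Type u) [Group G] [Infinite G] (N : ℕ),
    1 ≤ N → CondF G N → ∀ R : ℝ, 0 ≤ R →
    ∃ f : G →₀ ℂ, ConvLe p 1 (f : G → ℂ) ∧ ¬ ConvLe p R (cst (f : G → ℂ))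

/-- `dual`: duality.
Proof. `q = p/(p-1)`.  For `η, ξ : G →₀ ℂ` the form `⟨f * ξ, η⟩ = ∑_{x,k} f (x k⁻¹) ξ k conj (η x)` satisfies
`|⟨f*ξ, η⟩| ≤ C (∑‖ξ‖^p)^(1/p) (∑ ‖η‖^q)^(1/q)` by Hölder.  It equals `conj ⟨cst f * η, ξ⟩`.  For given `η` and a
finset `B ⊆ G` take `ξ k = conj-sign * ‖(cst f * η) k‖^(q-1)` on `B` (so that `⟨cst f * η, ξ⟩ = s := ∑_{k ∈ B} ‖(cst f * η) k‖^q` and
`∑ ‖ξ‖^p = s`), hence `s ≤ C s^(1/p) (∑‖η‖^q)^(1/q)`, `s ≤ C^q ∑ ‖η‖^q`.  All finsets `B`: summable and bounded. -/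
def S_dual : Prop := ∀ (p q : ℝ), 1 < p → 1 < q → 1 / p + 1 / q = 1 → ∀ (G : Type u) [Group G]
    (f : G → ℂ) (C : ℝ), 0 ≤ C → ConvLe p (C ^ p) f → ConvLe q (C ^ q) (cst f)

/-- `ban`: from finitely supported functions to one function.
Proof. Take `f_n` for `R = (4^n n)^p` etc.  `‖f_n x‖ ≤ 1` (apply `ConvLe p 1` to the delta at `1`).  Suppose
that for every `c ∈ ℓ^1` the function `cst f_c`, `f_c = ∑ c_n f_n`, is a convolver (`f_c` itself satisfies `ConvLe p (∑|c_n|)^p` by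
Minkowski for every finite set of `x`; so otherwise we are done).  For `ξ, η : G →₀ ℂ` with
`∑‖ξ‖^p ≤ 1`, `∑‖η‖^q ≤ 1` consider `Λ_{ξ,η} (c) = ∑_{x,k} f_c ((x k⁻¹)⁻¹) conj (ξ k) η x`, a continuous linear form on
`lp (fun _ : ℕ => ℂ) 1`, pointwise bounded over `(ξ,η)` by the assumption (Hölder).
`banach_steinhaus`: uniformly bounded by `M`.  At `c = e_n`: `|⟨cst f_n * ξ, η⟩| ≤ M` for all `ξ, η`, so
`ConvLe p (M^p) (cst f_n)` for all `n` (dual norm on every finite set), contradiction for large `n`.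
(An elementary gliding hump is equally fine.) -/
def S_ban : Prop := ∀ (p : ℝ), 1 < p → ∀ (G : Type u) [Group G],
    (∀ R : ℝ, 0 ≤ R → ∃ f : G →₀ ℂ, ConvLe p 1 (f : G → ℂ) ∧ ¬ ConvLe p R (cst (f : G → ℂ))) →
    ∃ f : G → ℂ, (∃ C : ℝ, ConvLe p C f) ∧ ¬ ∃ C : ℝ, ConvLe p C (cst f)

/-- `cyc`: flat data from an element of large order modulo the FC-centre.
Proof. Given `L₀`, `δ` put `L = max L₀ 1`, take `m` with `L ≤ δ 2^m`, and `a` with `a^k` `NonFC` for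
`0 < k ≤ n = 2^(m+1) + 2 L`.  `c s i = a^(i 2^s)`, so `pr c m t = a^(∑_{s<m} t_s 2^s)` with exponent in `[0,2^m)`, and `t, s` which
differ below `m+1` give different exponents below `2^(m+1)`, the quotient is `a^(±d)`, `0 < d < 2^(m+1)`, `NonFC` (`x` is
`NonFC` iff `x⁻¹` is).  `W = {a^j : j < L}` (`L` elements since `a^k ≠ 1` for `0 < k ≤ n`: `1` is not `NonFC`),
`S = {a^(l + i 2^m) : l < 2^m + L}`, `E = {a^j : j < 2L}`, `X = {a^j : L ≤ j < 2L}`: `|X| = L`, `|E| ≤ 2L`. -/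
def S_cyc : Prop := ∀ (G : Type u) [Group G],
    (∀ n : ℕ, ∃ a : G, ∀ k : ℕ, 0 < k → k ≤ n → NonFC (a ^ k)) → CondF G 2

/-- `sub`: flat data from large finite `ℓ`-subgroups.
Proof. Given `L₀` take `t` with `ℓ^t ≥ L₀` and a subgroup `P`, finite of order `ℓ^k` with `k ≥ t+1`.  Chain
`H_0 = ⊥ < H_1 < ... < H_{t+1} ≤ P` with `|H_s| = ℓ^s` (`Sylow.exists_subgroup_card_pow_succ` or
`Sylow.exists_subgroup_card_pow_prime_le_card` downwards); `H_s` is normal in `H_{s+1}` (index `ℓ` in an `ℓ`-group,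
`Subgroup.normal_of_index_eq_minFac_card`).  `c s i`, `i < ℓ`: representatives of the right cosets of
`H_s` in `H_{s+1}` (`H_{s+1} = ⊔ H_s c_{s,i}`).  Then `pr c s t` runs bijectively through `H_s`; `m = t`,
`W = E = X = H_t`, `S = H_t c_{t,i} H_t = c_{t,i} H_t` has `ℓ^t` elements.  The quotient of different products is in `P`
and `≠ 1`, so `NonFC`. -/
def S_sub : Prop := ∀ (G : Type u) [Group G] (l : ℕ), l.Prime →
    (∀ n : ℕ, ∃ P : Subgroup G, ∃ k : ℕ, n ≤ k ∧ Nat.card P = l ^ k ∧ ∀ x ∈ P, x ≠ 1 → NonFC x) →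
    CondF G l

/-- `pig`: reduction of the general hypothesis.
Proof. If the first alternative holds for arbitrarily large `n`, it holds for all `n`.  Otherwise there is `n₀`
such that for all `n ≥ n₀` the second holds and every `a` has some `0 < k ≤ n₀` with `a^k` not `NonFC`; for `a` in a
finite subgroup `H` as in the second alternative this means `a^k = 1`, so all prime divisors of `|H|` are `≤ n₀`
(Cauchy).  `|H|` is the product of its prime power parts (at most `n₀` of them), so if `|H| > (l^n)^{n₀}`-type bounds fail for all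
primes `l ≤ n₀` (i.e. `l^n ∤ |H|` for all of them) then `|H| ≤ ∏_{l ≤ n₀} l^n ≤ (n₀^n)^{n₀}`.  So for every `n` there are `H` and a prime `l ≤ n₀`
with `l^n ∣ |H|`, hence a subgroup of order `l^n` (Sylow).  Pigeonhole: one prime `l` works for
infinitely many `n`, hence for all `n`. -/
def S_pig : Prop := ∀ (G : Type u) [Group G],
    (∀ n : ℕ, (∃ a : G, ∀ k : ℕ, 0 < k → k ≤ n → NonFC (a ^ k)) ∨
      ∃ H : Subgroup G, Finite H ∧ n ≤ Nat.card H ∧ ∀ x ∈ H, x ≠ 1 → NonFC x) →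
    (∀ n : ℕ, ∃ a : G, ∀ k : ℕ, 0 < k → k ≤ n → NonFC (a ^ k)) ∨
    ∃ l : ℕ, l.Prime ∧ ∀ n : ℕ, ∃ P : Subgroup G, ∃ k : ℕ, n ≤ k ∧ Nat.card P = l ^ k ∧
      ∀ x ∈ P, x ≠ 1 → NonFC x

end Pool.Agent.PC
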